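import Mathlib

/-!
# MP_506470_co : set-homogeneous graphs, definitions
-/

namespace SetHom

/-- `G` is set-homogeneous: any two isomorphic finite induced subgraphs are carried to each other
(as sets) by an automorphism. -/
def SetHomogeneous {V : Type*} (G : SimpleGraph V) : Prop :=
  ∀ U W : Finset V, Nonempty (G.induce (U : Set V) ≃g G.induce (W : Set V)) →
    ∃ φ : G ≃g G, φ '' (U : Set V) = (W : Set V)

/-- `G` is homogeneous: every isomorphism between finite induced subgraphs extends to an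
automorphism. -/
def Homogeneous {V : Type*} (G : SimpleGraph V) : Prop :=
  ∀ (U W : Finset V) (f : G.induce (U : Set V) ≃g G.induce (W : Set V)),
    ∃ φ : G ≃g G, ∀ u : (U : Set V), φ u = f u

/-- The dyadic rationals in `[0,1)`: a countable dense set of points of the circle `ℝ/ℤ`, no two of
them at distance exactly `1/3`. -/
def Dy : Type := {q : ℚ // 0 ≤ q ∧ q < 1 ∧ ∃ (n : ℕ) (k : ℤ), q = k / 2 ^ n}

/-- The arcs of Cherlin's myopic local order `S(3)`: `a → b` if the angle from `a` to `b`
(measured in full turns) lies strictly between `0` and `1/3`. -/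
def S3 (a b : Dy) : Prop := 0 < Int.fract (b.1 - a.1) ∧ Int.fract (b.1 - a.1) < 1 / 3

/-- The graph `R(3)`: the arcs of `S(3)` without their orientation. -/
def R3 : SimpleGraph Dy where
  Adj a b := S3 a b ∨ S3 b a
  symm := ⟨fun _ _ h => h.symm⟩
  loopless := ⟨fun a h => by simp [S3] at h⟩

/-- One-point extension property for finite partial automorphisms. -/
def OPE {V : Type*} (G : SimpleGraph V) : Prop :=
  ∀ (U : Finset V) (f : V → V), Set.InjOn f U →
    (∀ x ∈ U, ∀ y ∈ U, (G.Adj (f x) (f y) ↔ G.Adj x y)) →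
    ∀ a, a ∉ U → ∃ b, (∀ x ∈ U, f x ≠ b) ∧ ∀ x ∈ U, (G.Adj b (f x) ↔ G.Adj a x)

/-- No triangles. -/
def TF {V : Type*} (G : SimpleGraph V) : Prop :=
  ∀ a b c, G.Adj a b → G.Adj b c → G.Adj a c → False

/-- Independent finite sets. -/
def Indep {V : Type*} (G : SimpleGraph V) (I : Finset V) : Prop :=
  ∀ x ∈ I, ∀ y ∈ I, ¬ G.Adj x y

/-- The basic facts on an infinite triangle-free set-homogeneous graph which contains a path with
three vertices and an edge together with an isolated vertex. -/
structure Good {V : Type*} (G : SimpleGraph V) : Prop where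
  sh : SetHomogeneous G
  tf : TF G
  infdeg : ∀ v, (G.neighborSet v).Infinite
  common : ∀ I : Finset V, Indep G I → ∃ v, ∀ x ∈ I, G.Adj v x
  inter : ∀ u v, u ≠ v → ¬ G.Adj u v → (G.neighborSet u ∩ G.neighborSet v).Infinite
  diff : ∀ u v, u ≠ v → ¬ G.Adj u v → (G.neighborSet v \ G.neighborSet u).Infinite
  nonedge : ∀ v, ∃ u, u ≠ v ∧ ¬ G.Adj u v
  trans : ∀ u v, ∃ φ : G ≃g G, φ u = v
  star : ∀ (v : V) (S S' : Finset V), (∀ x ∈ S, G.Adj v x) → (∀ x ∈ S', G.Adj v x) →
    S.card = S'.card → 2 ≤ S.card → ∃ φ : G ≃g G, φ v = v ∧ φ '' (S : Set V) = (S' : Set V)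
  copath : ∀ a b c a' b' c', G.Adj a b → ¬ G.Adj a c → ¬ G.Adj b c → c ≠ a → c ≠ b →
    G.Adj a' b' → ¬ G.Adj a' c' → ¬ G.Adj b' c' → c' ≠ a' → c' ≠ b' →
    ∃ φ : G ≃g G, φ c = c' ∧ φ '' ({a, b} : Set V) = {a', b'}

/-- Every independent finite set is shattered. -/
def Shat {V : Type*} (G : SimpleGraph V) : Prop :=
  ∀ I : Finset V, Indep G I → ∀ B ⊆ I, ∃ u, u ∉ I ∧ ∀ x ∈ I, (G.Adj u x ↔ x ∈ B)

/-- The trace of a vertex on the neighbourhood of `v`. -/
def Tr {V : Type*} (G : SimpleGraph V) (v u : V) : Set (G.neighborSet v) := {x | G.Adj u x.1}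

/-- The relation used in the coloured model: colour `0` is the neighbourhood of the base point,
colour `1` the vertices with an initial segment as trace, colour `2` the others. -/
def triRel {X : Type*} [LinearOrder X] (c : X → Fin 3) (x y : X) : Prop :=
  (c x = 0 ∧ c y = 1 ∧ x < y) ∨ (c x = 0 ∧ c y = 2 ∧ y < x) ∨ (c x = 1 ∧ c y = 2 ∧ x < y)

/-- The graph on `X` and a base point `none` defined by a coloured linear order. -/
def tri {X : Type*} [LinearOrder X] (c : X → Fin 3) : SimpleGraph (Option X) where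
  Adj a b := match a, b with
    | none, none => False
    | none, some x => c x = 0
    | some x, none => c x = 0
    | some x, some y => triRel c x y ∨ triRel c y x
  symm := ⟨by
    rintro (_ | x) (_ | y) h
    · exact h
    · exact h
    · exact h
    · exact h.symm⟩
  loopless := ⟨by
    rintro (_ | x) h
    · exact h
    · simp [triRel] at h⟩

/-- Every colour is dense and unbounded. -/
structure Dense3 {X : Type*} [LinearOrder X] (c : X → Fin 3) : Prop where
  btw : ∀ x y, x < y → ∀ i, ∃ z, x < z ∧ z < y ∧ c z = i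
  below : ∀ x i, ∃ z, z < x ∧ c z = i
  above : ∀ x i, ∃ z, x < z ∧ c z = i

/-- Increasing partial maps are induced by the group `Γ`. -/
def GO {Ω : Type*} [LinearOrder Ω] (Γ : Subgroup (Equiv.Perm Ω)) : Prop :=
  ∀ l l' : List Ω, l.Pairwise (· < ·) → l'.Pairwise (· < ·) → l.length = l'.length →
    2 ≤ l.length → ∃ g ∈ Γ, l.map g = l'

end SetHom
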