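import Pool.Agent.Helper25.SH.Defs2
import Pool.Agent.Helper52.SH.H2

/-!
# MP_506470_co, finite clique number: module H3 (stars over generic links)
-/

namespace SetHom

variable {V : Type}

/-- the state of the construction -/
structure H3St (G : SimpleGraph V) (n : ℕ) (Y H : Finset V) : Prop where
  kf : G.CliqueFreeOn (Y : Set V) n
  sub : H ⊆ Y
  ind : Indep G H
  meet : ∀ s : Finset V, s ⊆ Y → G.IsNClique (n - 1) s → ∃ x ∈ s, x ∈ H

/-- `b` is hit -/
def H3Hit (G : SimpleGraph V) (n : ℕ) (Y : Finset V) (b : V) : Prop :=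
  ∃ s : Finset V, s ⊆ Y ∧ G.IsNClique (n - 1) s ∧ ∀ x ∈ s, G.Adj b x

theorem h3_add [DecidableEq V] {G : SimpleGraph V} {n : ℕ} (hn : 3 ≤ n) {Y H : Finset V}
    (h : H3St G n Y H) (Λ : Finset V) (x' : V) (hΛ : G.IsNClique (n - 2) Λ)
    (hd : ∀ l ∈ Λ, l ∉ Y ∧ ∀ y ∈ Y, ¬ G.Adj l y) (hxH : ∀ y ∈ H, ¬ G.Adj x' y) :
    H3St G n (Y ∪ insert x' Λ) (insert x' H) := by
  have hsub : ∀ s : Finset V, s ⊆ Y ∪ insert x' Λ → G.IsClique (s : Set V) →
      (∃ l ∈ s, l ∈ Λ) → s ⊆ insert x' Λ := by
    rintro s hs hc ⟨l, hls, hlΛ⟩ y hy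
    by_cases hyl : y = l
    · rw [hyl]
      exact Finset.mem_insert_of_mem hlΛ
    · have h1 : G.Adj l y := hc hls hy (Ne.symm hyl)
      rcases Finset.mem_union.1 (hs hy) with h2 | h2
      · exact absurd h1 ((hd l hlΛ).2 y h2)
      · exact h2
  have hcard : (insert x' Λ).card ≤ n - 1 := by
    have h1 := Finset.card_insert_le x' Λ
    rw [hΛ.2] at h1
    omega
  have hother : ∀ s : Finset V, s ⊆ Y ∪ insert x' Λ → (¬ ∃ l ∈ s, l ∈ Λ) → x' ∉ s → s ⊆ Y := by
    intro s hs hl hx y hy
    rcases Finset.mem_union.1 (hs hy) with h2 | h2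
    · exact h2
    · rcases Finset.mem_insert.1 h2 with rfl | h2
      · exact absurd hy hx
      · exact absurd ⟨y, hy, h2⟩ hl
  refine ⟨?_, ?_, ?_, ?_⟩
  · intro s hs hc
    have hs' : s ⊆ Y ∪ insert x' Λ := by exact_mod_cast hs
    by_cases hl : ∃ l ∈ s, l ∈ Λ
    · have h1 := Finset.card_le_card (hsub s hs' hc.1 hl)
      rw [hc.2] at h1
      omega
    · by_cases hx : x' ∈ s
      · have h1 : s.erase x' ⊆ Y := by
          apply hother _ ((Finset.erase_subset _ _).trans hs')
          · rintro ⟨l, hls, hlΛ⟩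
            exact hl ⟨l, Finset.mem_of_mem_erase hls, hlΛ⟩
          · exact Finset.notMem_erase x' s
        have h2 : G.IsNClique (n - 1) (s.erase x') := by
          refine ⟨hc.1.subset (by exact_mod_cast Finset.erase_subset x' s), ?_⟩
          rw [Finset.card_erase_of_mem hx, hc.2]
        obtain ⟨y, hy, hyH⟩ := h.meet _ h1 h2
        exact hxH y hyH (hc.1 hx (Finset.mem_of_mem_erase hy) (Finset.ne_of_mem_erase hy).symm)
      · exact h.kf (by exact_mod_cast hother s hs' hl hx) hc
  · intro y hy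
    rcases Finset.mem_insert.1 hy with rfl | hy
    · exact Finset.mem_union_right _ (Finset.mem_insert_self _ _)
    · exact Finset.mem_union_left _ (h.sub hy)
  · intro x hx y hy
    rcases Finset.mem_insert.1 hx with hx1 | hx1
    · rcases Finset.mem_insert.1 hy with hy1 | hy1
      · rw [hx1, hy1]
        exact G.irrefl
      · rw [hx1]
        exact hxH y hy1
    · rcases Finset.mem_insert.1 hy with hy1 | hy1
      · rw [hy1]
        exact fun e => hxH x hx1 e.symm
      · exact h.ind x hx1 y hy1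
  · intro s hs hc
    by_cases hx : x' ∈ s
    · exact ⟨x', hx, Finset.mem_insert_self _ _⟩
    · by_cases hl : ∃ l ∈ s, l ∈ Λ
      · have h1 := hsub s hs hc.1 hl
        have h2 : s ⊆ Λ := by
          intro y hy
          rcases Finset.mem_insert.1 (h1 hy) with rfl | h3
          · exact absurd hy hx
          · exact h3
        have h3 := Finset.card_le_card h2
        rw [hc.2, hΛ.2] at h3
        omega
      · obtain ⟨y, hy, hyH⟩ := h.meet s (hother s hs hl hx) hc
        exact ⟨y, hy, Finset.mem_insert_of_mem hyH⟩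

theorem h3_clique [DecidableEq V] {G : SimpleGraph V} {n : ℕ} (hn : 3 ≤ n) {Λ : Finset V} {x' : V}
    (hΛ : G.IsNClique (n - 2) Λ) (hx : ∀ l ∈ Λ, G.Adj x' l) :
    G.IsNClique (n - 1) (insert x' Λ) := by
  have h := hΛ.insert (a := x') hx
  have : n - 2 + 1 = n - 1 := by omega
  rwa [this] at h

theorem h3_step {G : SimpleGraph V} {n : ℕ} (h : Gen n G) {Y H W : Finset V} {b : V}
    (hS : H3St G n Y H) (hW : Indep G W) (hb : b ∈ W) (hYW : ∀ y ∈ Y, y ∉ W)
    (hO : ∀ Λ : Finset V, G.IsNClique (n - 2) Λ → (∀ l ∈ Λ, G.Adj b l) →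
      (∀ x ∈ H, x ∉ Λ ∧ ∀ l ∈ Λ, ¬ G.Adj x l) →
      ∃ x, G.Adj x b ∧ (∀ l ∈ Λ, G.Adj x l) ∧ ∀ y ∈ H, ¬ G.Adj x y) :
    ∃ Y' H' : Finset V, Y ⊆ Y' ∧ H3St G n Y' H' ∧ H'.card ≤ H.card + 1 ∧ (∀ y ∈ Y', y ∉ W) ∧
      H3Hit G n Y' b := by
  classical
  have hn := h.hn
  have hbY : b ∉ Y := fun e => hYW b e hb
  by_cases hc : G.CliqueFreeOn ((insert b Y : Finset V) : Set V) n
  · obtain ⟨Λ, hΛ, hΛD, hΛW, hΛa⟩ := h.ladder (insert b Y) {b} W hc (by simp) (by
      intro x hx y hy
      rw [Finset.mem_singleton] at hx hy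
      rw [hx, hy]
      exact G.irrefl)
    have hΛne : Λ.Nonempty := by
      rw [← Finset.card_pos, hΛ.2]
      omega
    obtain ⟨l0, hl0⟩ := hΛne
    have hbl : ∀ l ∈ Λ, G.Adj b l := fun l hl =>
      ((hΛa l hl b (Finset.mem_insert_self _ _)).2 (Finset.mem_singleton_self _)).symm
    have hYl : ∀ l ∈ Λ, l ∉ Y ∧ ∀ y ∈ Y, ¬ G.Adj l y := by
      intro l hl
      refine ⟨fun e => Finset.disjoint_left.1 hΛD hl (Finset.mem_insert_of_mem e), fun y hy e => ?_⟩
      have := (hΛa l hl y (Finset.mem_insert_of_mem hy)).1 e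
      rw [Finset.mem_singleton] at this
      exact hbY (this ▸ hy)
    obtain ⟨x, hxb, hxΛ, hxH⟩ := hO Λ hΛ hbl (fun x hx =>
      ⟨fun e => (hYl x e).1 (hS.sub hx), fun l hl e => (hYl l hl).2 x (hS.sub hx) e.symm⟩)
    refine ⟨Y ∪ insert x Λ, insert x H, Finset.subset_union_left, h3_add hn hS Λ x hΛ hYl hxH,
      Finset.card_insert_le _ _, ?_, insert x Λ, Finset.subset_union_right, h3_clique hn hΛ hxΛ, ?_⟩
    · intro y hy hyW
      rcases Finset.mem_union.1 hy with h1 | h1
      · exact hYW y h1 hyW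
      · rcases Finset.mem_insert.1 h1 with rfl | h1
        · exact hW y hyW b hb hxb
        · exact Finset.disjoint_left.1 hΛW h1 hyW
    · intro y hy
      rcases Finset.mem_insert.1 hy with rfl | h1
      · exact hxb.symm
      · exact hbl y h1
  · refine ⟨Y, H, Finset.Subset.refl _, hS, Nat.le_succ _, hYW, ?_⟩
    unfold SimpleGraph.CliqueFreeOn at hc
    push Not at hc
    obtain ⟨s, hs, hsc⟩ := hc
    have hs' : s ⊆ insert b Y := by exact_mod_cast hs
    have hbs : b ∈ s := by
      by_contra hbs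
      refine hS.kf (t := s) ?_ hsc
      intro y hy
      rcases Finset.mem_insert.1 (hs' hy) with rfl | h1
      · exact absurd hy hbs
      · exact h1
    refine ⟨s.erase b, ?_, ⟨hsc.1.subset (by exact_mod_cast Finset.erase_subset b s), ?_⟩, ?_⟩
    · intro y hy
      rcases Finset.mem_insert.1 (hs' (Finset.mem_of_mem_erase hy)) with rfl | h1
      · exact absurd hy (Finset.notMem_erase _ _)
      · exact h1
    · rw [Finset.card_erase_of_mem hbs, hsc.2]
    · intro y hy
      exact hsc.1 hbs (Finset.mem_of_mem_erase hy) (Finset.ne_of_mem_erase hy).symm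

theorem H3Hit.mono {G : SimpleGraph V} {n : ℕ} {Y Y' : Finset V} {b : V} (h : H3Hit G n Y b)
    (hY : Y ⊆ Y') : H3Hit G n Y' b := by
  obtain ⟨s, hs, h1, h2⟩ := h
  exact ⟨s, hs.trans hY, h1, h2⟩

/-- the statement for independent sets of size `k` -/
def H3OS (G : SimpleGraph V) (n k : ℕ) : Prop :=
  ∀ (w : V) (Λ W : Finset V), W.card = k → G.IsNClique (n - 2) Λ → (∀ l ∈ Λ, G.Adj w l) →
    Indep G W → (∀ x ∈ W, x ∉ Λ ∧ ∀ l ∈ Λ, ¬ G.Adj x l) → w ∉ W →
    ∃ x, G.Adj x w ∧ (∀ l ∈ Λ, G.Adj x l) ∧ ∀ y ∈ W, ¬ G.Adj x y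

theorem h3_iter {G : SimpleGraph V} {n : ℕ} (h : Gen n G) {W : Finset V} {m : ℕ}
    (hO : ∀ k < m, H3OS G n k) (hW : Indep G W) (k : ℕ) :
    ∀ (U Y H : Finset V), U.card = k → U ⊆ W → H3St G n Y H → (∀ y ∈ Y, y ∉ W) →
      (∀ b ∈ W, b ∉ U → H3Hit G n Y b) → H.card + U.card ≤ m →
      ∃ Y', Y ⊆ Y' ∧ G.CliqueFreeOn (Y' : Set V) n ∧ ∀ b ∈ W, H3Hit G n Y' b := by
  classical
  induction k with
  | zero =>
    intro U Y H hU _ hS _ hit _
    have : U = ∅ := Finset.card_eq_zero.1 hU
    subst this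
    exact ⟨Y, Finset.Subset.refl _, hS.kf, fun b hb => hit b hb (by simp)⟩
  | succ k ih =>
    intro U Y H hU hUW hS hYW hit hcard
    obtain ⟨b, hb⟩ : U.Nonempty := by
      rw [← Finset.card_pos]
      omega
    have hbW := hUW hb
    have hbY : b ∉ Y := fun e => hYW b e hbW
    obtain ⟨Y', H', hYY', hS', hH', hYW', hit'⟩ := h3_step h hS hW hbW hYW (by
      intro Λ hΛ hbΛ hHΛ
      exact hO H.card (by omega) b Λ H rfl hΛ hbΛ hS.ind hHΛ (fun e => hbY (hS.sub e)))
    have hU' : (U.erase b).card = k := by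
      rw [Finset.card_erase_of_mem hb]
      omega
    obtain ⟨Y'', h1, h2, h3⟩ := ih (U.erase b) Y' H' hU' ((Finset.erase_subset _ _).trans hUW) hS'
      hYW' (by
        intro c hc hcU
        by_cases hcb : c = b
        · rw [hcb]
          exact hit'
        · exact (hit c hc (fun e => hcU (Finset.mem_erase.2 ⟨hcb, e⟩))).mono hYY') (by omega)
    exact ⟨Y'', hYY'.trans h1, h2, h3⟩

theorem h3_final {G : SimpleGraph V} {n : ℕ} (h : Gen n G) {W Y : Finset V}
    (hY : G.CliqueFreeOn (Y : Set V) n) (hit : ∀ b ∈ W, H3Hit G n Y b) :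
    ∃ x, (∀ y ∈ Y, G.Adj x y) ∧ ∀ b ∈ W, ¬ G.Adj x b := by
  classical
  have hn := h.hn
  obtain ⟨x, hx⟩ := h.cn Y hY
  refine ⟨x, hx, fun b hb hxb => ?_⟩
  obtain ⟨s, hs, h1, h2⟩ := hit b hb
  have h3 : G.IsNClique (n - 1 + 1) (insert b s) := h1.insert h2
  have h4 : G.IsNClique (n - 1 + 1 + 1) (insert x (insert b s)) := by
    apply h3.insert
    intro y hy
    rcases Finset.mem_insert.1 hy with rfl | hy
    · exact hxb
    · exact hx y (hs hy)
  have : n - 1 + 1 + 1 = n + 1 := by omega
  rw [this] at h4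
  exact h.hK _ h4

theorem h3_base [DecidableEq V] {G : SimpleGraph V} {n : ℕ} (hn : 3 ≤ n) {R : Finset V} {ρ : V}
    (hR : G.IsNClique (n - 1) R) (hρ : ρ ∈ R) : H3St G n R {ρ} := by
  refine ⟨?_, by simpa using hρ, ?_, ?_⟩
  · intro s hs hc
    have hs' : s ⊆ R := by exact_mod_cast hs
    have := Finset.card_le_card hs'
    rw [hR.2, hc.2] at this
    omega
  · intro x hx y hy
    rw [Finset.mem_singleton] at hx hy
    rw [hx, hy]
    exact G.irrefl
  · intro s hs hc
    have : s = R := Finset.eq_of_subset_of_card_le hs (by rw [hR.2, hc.2])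
    rw [this]
    exact ⟨ρ, hρ, Finset.mem_singleton_self _⟩

theorem h3_os {G : SimpleGraph V} {n : ℕ} (h : Gen n G) (m : ℕ) : H3OS G n m := by
  classical
  have hn := h.hn
  -- the case of one non-adjacent vertex
  have one : ∀ (w : V) (Λ : Finset V) (w1 : V), G.IsNClique (n - 2) Λ → (∀ l ∈ Λ, G.Adj w l) →
      (w1 ∉ Λ ∧ ∀ l ∈ Λ, ¬ G.Adj w1 l) → w1 ≠ w → ¬ G.Adj w w1 →
      ∃ x, G.Adj x w ∧ (∀ l ∈ Λ, G.Adj x l) ∧ ¬ G.Adj x w1 := by
    intro w Λ w1 hΛ hw hw1 hne hww1
    have hwΛ : w ∉ Λ := fun e => G.irrefl (hw w e)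
    have hD : G.CliqueFreeOn ((insert w1 (insert w Λ) : Finset V) : Set V) n := by
      intro s hs hc
      have hs' : s ⊆ insert w1 (insert w Λ) := by exact_mod_cast hs
      have h1 : (insert w1 (insert w Λ)).card ≤ n := by
        have h2 := Finset.card_insert_le w1 (insert w Λ)
        have h3 := Finset.card_insert_le w Λ
        rw [hΛ.2] at h3
        omega
      have h2 : s = insert w1 (insert w Λ) := Finset.eq_of_subset_of_card_le hs' (by rw [hc.2]; exact h1)
      have h3 : w1 ∈ s := by rw [h2]; simp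
      have h4 : w ∈ s := by rw [h2]; simp
      exact hww1 (hc.1 h4 h3 (Ne.symm hne))
    obtain ⟨w', -, hw'D, hw'⟩ := h.ext (insert w1 (insert w Λ)) Λ ∅ hD
      (fun l hl => Finset.mem_insert_of_mem (Finset.mem_insert_of_mem hl)) (by
        intro s hs hc
        have hs' : s ⊆ Λ := by exact_mod_cast hs
        have := Finset.card_le_card hs'
        rw [hΛ.2, hc.2] at this
        omega)
    have e1 : ∀ l ∈ Λ, G.Adj w' l := fun l hl =>
      (hw' l (Finset.mem_insert_of_mem (Finset.mem_insert_of_mem hl))).2 hl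
    have e2 : ¬ G.Adj w' w := fun e => hwΛ ((hw' w (by simp)).1 e)
    have e3 : ¬ G.Adj w' w1 := fun e => hw1.1 ((hw' w1 (by simp)).1 e)
    have e4 : w' ≠ w := fun e => hw'D (by rw [e]; simp)
    have e5 : w' ≠ w1 := fun e => hw'D (by rw [e]; simp)
    obtain ⟨κ, k1, k2, k3, k4⟩ := h.k12 Λ w w' w1 hΛ hw e1 e4.symm (fun e => e2 e.symm) hw1.1 hw1.2
      (fun e => hww1 e.symm) (fun e => e3 e.symm) hne e5.symm
    exact ⟨κ, k2, k1, k4⟩
  induction m using Nat.strong_induction_on with
  | _ m ih =>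
    intro w Λ W hWc hΛ hw hW hWΛ hwW
    have hwΛ : w ∉ Λ := fun e => G.irrefl (hw w e)
    have hR : G.IsNClique (n - 1) (insert w Λ) := h3_clique hn hΛ hw
    obtain ⟨ρ, hρ⟩ : Λ.Nonempty := by
      rw [← Finset.card_pos, hΛ.2]
      omega
    have hRW : ∀ y ∈ insert w Λ, y ∉ W := by
      intro y hy hyW
      rcases Finset.mem_insert.1 hy with rfl | hy
      · exact hwW hyW
      · exact (hWΛ y hyW).1 hy
    have fin : ∀ Y : Finset V, insert w Λ ⊆ Y → G.CliqueFreeOn (Y : Set V) n →
        (∀ b ∈ W, H3Hit G n Y b) → ∃ x, G.Adj x w ∧ (∀ l ∈ Λ, G.Adj x l) ∧ ∀ y ∈ W, ¬ G.Adj x y := by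
      intro Y hY1 hY2 hY3
      obtain ⟨x, hx1, hx2⟩ := h3_final h hY2 hY3
      exact ⟨x, hx1 w (hY1 (by simp)), fun l hl => hx1 l (hY1 (by simp [hl])), hx2⟩
    have hbase := h3_base hn hR (Finset.mem_insert_of_mem hρ : ρ ∈ insert w Λ)
    rcases Nat.lt_or_ge m 2 with hm | hm
    · rcases Nat.eq_zero_or_pos m with h0 | h0
      · have : W = ∅ := Finset.card_eq_zero.1 (by rw [hWc, h0])
        subst this
        exact fin _ (Finset.Subset.refl _) hbase.kf (by simp)
      · have hm1 : W.card = 1 := by omega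
        obtain ⟨w1, rfl⟩ := Finset.card_eq_one.1 hm1
        have hw1 := hWΛ w1 (Finset.mem_singleton_self _)
        have hw1w : w1 ≠ w := fun e => hwW (by rw [e]; simp)
        by_cases hadj : G.Adj w w1
        · obtain ⟨Y', H', h1, h2, -, -, h3⟩ := h3_step h hbase hW (Finset.mem_singleton_self w1) hRW (by
            intro Λ' hΛ' hb' hH'
            have h4 := hH' ρ (Finset.mem_singleton_self _)
            obtain ⟨x, x1, x2, x3⟩ := one w1 Λ' ρ hΛ' hb' h4
              (fun e => hw1.1 (e ▸ hρ)) (hw1.2 ρ hρ)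
            refine ⟨x, x1, x2, fun y hy => ?_⟩
            rw [Finset.mem_singleton] at hy
            rw [hy]
            exact x3)
          exact fin Y' h1 h2.kf (by
            intro b hb
            rw [Finset.mem_singleton] at hb
            rw [hb]
            exact h3)
        · obtain ⟨x, x1, x2, x3⟩ := one w Λ w1 hΛ hw hw1 hw1w hadj
          refine ⟨x, x1, x2, fun y hy => ?_⟩
          rw [Finset.mem_singleton] at hy
          rw [hy]
          exact x3
    · obtain ⟨w1, hw1, w2, hw2, h12⟩ := Finset.one_lt_card.1 (by omega : 1 < W.card)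
      have hw1w : w1 ≠ w := fun e => hwW (e ▸ hw1)
      have hw2w : w2 ≠ w := fun e => hwW (e ▸ hw2)
      have hD : G.CliqueFreeOn ((insert w1 (insert w2 (insert w Λ)) : Finset V) : Set V) n := by
        intro s hs hc
        have hs' : s ⊆ insert w1 (insert w2 (insert w Λ)) := by exact_mod_cast hs
        have small : ∀ u ∈ W, u ∈ s → (∀ y ∈ s, y ∈ W ∨ y ∈ insert w Λ) → False := by
          intro u huW hus hall
          have h1 : s ⊆ {u, w} := by
            intro y hy
            by_cases hyu : y = u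
            · simp [hyu]
            · have h2 : G.Adj u y := hc.1 hus hy (Ne.symm hyu)
              rcases hall y hy with h3 | h3
              · exact absurd h2 (hW u huW y h3)
              · rcases Finset.mem_insert.1 h3 with rfl | h3
                · simp
                · exact absurd h2 ((hWΛ u huW).2 y h3)
          have h2 := Finset.card_le_card h1
          have h3 : ({u, w} : Finset V).card ≤ 2 := Finset.card_le_two
          rw [hc.2] at h2
          omega
        have hall : ∀ y ∈ s, y ∈ W ∨ y ∈ insert w Λ := by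
          intro y hy
          rcases Finset.mem_insert.1 (hs' hy) with rfl | h1
          · exact Or.inl hw1
          · rcases Finset.mem_insert.1 h1 with rfl | h1
            · exact Or.inl hw2
            · exact Or.inr h1
        by_cases hex : ∃ u ∈ s, u ∈ W
        · obtain ⟨u, hus, huW⟩ := hex
          exact small u huW hus hall
        · have h1 : s ⊆ insert w Λ := by
            intro y hy
            rcases hall y hy with h2 | h2
            · exact absurd ⟨y, hy, h2⟩ hex
            · exact h2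
          exact hbase.kf (t := s) (by exact_mod_cast h1) hc
      obtain ⟨Λ', hΛ', hΛ'D, hΛ'W, hΛ'a⟩ := h.ladder (insert w1 (insert w2 (insert w Λ))) {w1, w2} W hD
        (by
          intro y hy
          rw [Finset.mem_insert, Finset.mem_singleton] at hy
          rcases hy with rfl | rfl
          · simp
          · simp) (by
          intro x hx y hy
          rw [Finset.mem_insert, Finset.mem_singleton] at hx hy
          rcases hx with rfl | rfl <;> rcases hy with rfl | rfl
          · exact G.irrefl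
          · exact hW _ hw1 _ hw2
          · exact hW _ hw2 _ hw1
          · exact G.irrefl)
      have f1 : ∀ l ∈ Λ', G.Adj w1 l := fun l hl => ((hΛ'a l hl w1 (by simp)).2 (by simp)).symm
      have f2 : ∀ l ∈ Λ', G.Adj w2 l := fun l hl => ((hΛ'a l hl w2 (by simp)).2 (by simp)).symm
      have f3 : ∀ l ∈ Λ', l ∉ insert w Λ ∧ ∀ y ∈ insert w Λ, ¬ G.Adj l y := by
        intro l hl
        refine ⟨fun e => Finset.disjoint_left.1 hΛ'D hl
          (Finset.mem_insert_of_mem (Finset.mem_insert_of_mem e)), fun y hy e => ?_⟩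
        have := (hΛ'a l hl y (Finset.mem_insert_of_mem (Finset.mem_insert_of_mem hy))).1 e
        rw [Finset.mem_insert, Finset.mem_singleton] at this
        rcases this with h1 | h1
        · exact hRW y hy (h1 ▸ hw1)
        · exact hRW y hy (h1 ▸ hw2)
      have hρR : ρ ∈ insert w Λ := Finset.mem_insert_of_mem hρ
      obtain ⟨κ, k1, k2, k3, k4⟩ := h.k12 Λ' w1 w2 ρ hΛ' f1 f2 h12 (hW w1 hw1 w2 hw2)
        (fun e => (f3 ρ e).1 hρR) (fun l hl e => (f3 l hl).2 ρ hρR e.symm)
        (fun e => (hWΛ w1 hw1).2 ρ hρ e.symm) (fun e => (hWΛ w2 hw2).2 ρ hρ e.symm)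
        (fun e => (hWΛ w1 hw1).1 (e ▸ hρ)) (fun e => (hWΛ w2 hw2).1 (e ▸ hρ))
      have hS := h3_add hn hbase Λ' κ hΛ' f3 (by
        intro y hy
        rw [Finset.mem_singleton] at hy
        rw [hy]
        exact k4)
      have hcl := h3_clique hn hΛ' k1
      have hk : ∀ b, G.Adj κ b → (∀ l ∈ Λ', G.Adj b l) → H3Hit G n (insert w Λ ∪ insert κ Λ') b := by
        intro b hb hbl
        refine ⟨insert κ Λ', Finset.subset_union_right, hcl, fun y hy => ?_⟩
        rcases Finset.mem_insert.1 hy with rfl | hy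
        · exact hb.symm
        · exact hbl y hy
      obtain ⟨Y', y1, y2, y3⟩ := h3_iter h (W := W) (m := m) ih hW (m - 2) ((W.erase w1).erase w2)
        (insert w Λ ∪ insert κ Λ') (insert κ {ρ}) (by
          rw [Finset.card_erase_of_mem (Finset.mem_erase.2 ⟨h12.symm, hw2⟩),
            Finset.card_erase_of_mem hw1]
          omega) ((Finset.erase_subset _ _).trans (Finset.erase_subset _ _)) hS (by
          intro y hy hyW
          rcases Finset.mem_union.1 hy with hy | hy
          · exact hRW y hy hyW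
          · rcases Finset.mem_insert.1 hy with rfl | hy
            · exact hW y hyW w1 hw1 k2
            · exact Finset.disjoint_left.1 hΛ'W hy hyW) (by
          intro b hb hbU
          by_cases hb1 : b = w1
          · rw [hb1]
            exact hk w1 k2 f1
          · by_cases hb2 : b = w2
            · rw [hb2]
              exact hk w2 k3 f2
            · exact absurd (Finset.mem_erase.2 ⟨hb2, Finset.mem_erase.2 ⟨hb1, hb⟩⟩) hbU) (by
          have e1 : (insert κ {ρ} : Finset V).card ≤ 2 := Finset.card_le_two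
          rw [Finset.card_erase_of_mem (Finset.mem_erase.2 ⟨h12.symm, hw2⟩),
            Finset.card_erase_of_mem hw1]
          omega)
      exact fin Y' (Finset.subset_union_left.trans y1) y2 y3

-- Module H3
theorem Gen.ostar {G : SimpleGraph V} {n : ℕ} (h : Gen n G) (w : V) (Λ W F : Finset V)
    (hΛ : G.IsNClique (n - 2) Λ) (hw : ∀ l ∈ Λ, G.Adj w l) (hW : Indep G W)
    (hWΛ : ∀ x ∈ W, x ∉ Λ ∧ ∀ l ∈ Λ, ¬ G.Adj x l) (hwW : w ∉ W) :
    ∃ x, x ∉ F ∧ G.Adj x w ∧ (∀ l ∈ Λ, G.Adj x l) ∧ ∀ y ∈ W, ¬ G.Adj x y := by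
  classical
  have hn := h.hn
  have hwΛ : w ∉ Λ := fun e => G.irrefl (hw w e)
  obtain ⟨ρ, hρ⟩ : Λ.Nonempty := by
    rw [← Finset.card_pos, hΛ.2]
    omega
  -- enlarge W
  have enl : ∀ F : Finset V, ∃ W' : Finset V, W ⊆ W' ∧ Indep G W' ∧
      (∀ x ∈ W', x ∉ Λ ∧ ∀ l ∈ Λ, ¬ G.Adj x l) ∧ w ∉ W' ∧
      ∀ f ∈ F, (∀ l ∈ Λ, G.Adj f l) → ∃ e ∈ W', G.Adj f e := by
    intro F
    induction F using Finset.induction_on with
    | empty => exact ⟨W, Finset.Subset.refl _, hW, hWΛ, hwW, by simp⟩
    | insert f F hf ih =>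
      obtain ⟨W', h1, h2, h3, h4, h5⟩ := ih
      by_cases hfl : ∀ l ∈ Λ, G.Adj f l
      · have hfΛ : f ∉ Λ := fun e => G.irrefl (hfl f e)
        have hfW' : f ∉ W' := fun e => (h3 f e).2 ρ hρ (hfl ρ hρ)
        have hD : G.CliqueFreeOn ((insert f (Λ ∪ W') : Finset V) : Set V) n := by
          intro s hs hc
          have hs' : s ⊆ insert f (Λ ∪ W') := by exact_mod_cast hs
          by_cases hex : ∃ u ∈ s, u ∈ W'
          · obtain ⟨u, hus, huW⟩ := hex
            have h6 : s ⊆ {u, f} := by
              intro y hy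
              by_cases hyu : y = u
              · simp [hyu]
              · have h7 : G.Adj u y := hc.1 hus hy (Ne.symm hyu)
                rcases Finset.mem_insert.1 (hs' hy) with rfl | h8
                · simp
                · rcases Finset.mem_union.1 h8 with h8 | h8
                  · exact absurd h7 ((h3 u huW).2 y h8)
                  · exact absurd h7 (h2 u huW y h8)
            have h7 := Finset.card_le_card h6
            have h8 : ({u, f} : Finset V).card ≤ 2 := Finset.card_le_two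
            rw [hc.2] at h7
            omega
          · have h6 : s ⊆ insert f Λ := by
              intro y hy
              rcases Finset.mem_insert.1 (hs' hy) with rfl | h8
              · exact Finset.mem_insert_self _ _
              · rcases Finset.mem_union.1 h8 with h8 | h8
                · exact Finset.mem_insert_of_mem h8
                · exact absurd ⟨y, hy, h8⟩ hex
            have h7 := Finset.card_le_card h6
            have h8 := Finset.card_insert_le f Λ
            rw [hΛ.2] at h8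
            rw [hc.2] at h7
            omega
        obtain ⟨e, e1, e2, e3⟩ := h.ext (insert f (Λ ∪ W')) {f} {w} hD (by simp) (by
          intro s hs hc
          have hs' : s ⊆ {f} := by exact_mod_cast hs
          have := Finset.card_le_card hs'
          rw [Finset.card_singleton, hc.2] at this
          omega)
        have e4 : G.Adj e f := (e3 f (by simp)).2 (by simp)
        have e5 : ∀ y ∈ W', ¬ G.Adj e y := by
          intro y hy ha
          have := (e3 y (by simp [hy])).1 ha
          rw [Finset.mem_singleton] at this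
          exact hfW' (this ▸ hy)
        have e6 : ∀ y ∈ Λ, ¬ G.Adj e y := by
          intro y hy ha
          have := (e3 y (by simp [hy])).1 ha
          rw [Finset.mem_singleton] at this
          exact hfΛ (this ▸ hy)
        refine ⟨insert e W', h1.trans (Finset.subset_insert _ _), ?_, ?_, ?_, ?_⟩
        · intro x hx y hy
          rcases Finset.mem_insert.1 hx with hx1 | hx1
          · rcases Finset.mem_insert.1 hy with hy1 | hy1
            · rw [hx1, hy1]
              exact G.irrefl
            · rw [hx1]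
              exact e5 y hy1
          · rcases Finset.mem_insert.1 hy with hy1 | hy1
            · rw [hy1]
              exact fun a => e5 x hx1 a.symm
            · exact h2 x hx1 y hy1
        · intro x hx
          rcases Finset.mem_insert.1 hx with rfl | hx
          · exact ⟨fun a => e2 (by simp [a]), e6⟩
          · exact h3 x hx
        · intro a
          rcases Finset.mem_insert.1 a with rfl | a
          · exact e1 (by simp)
          · exact h4 a
        · intro g hg hgl
          rcases Finset.mem_insert.1 hg with rfl | hg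
          · exact ⟨e, Finset.mem_insert_self _ _, e4.symm⟩
          · obtain ⟨e', a1, a2⟩ := h5 g hg hgl
            exact ⟨e', Finset.mem_insert_of_mem a1, a2⟩
      · refine ⟨W', h1, h2, h3, h4, ?_⟩
        intro g hg hgl
        rcases Finset.mem_insert.1 hg with rfl | hg
        · exact absurd hgl hfl
        · exact h5 g hg hgl
  obtain ⟨W', h1, h2, h3, h4, h5⟩ := enl F
  obtain ⟨x, x1, x2, x3⟩ := h3_os h W'.card w Λ W' rfl hΛ hw h2 h3 h4
  refine ⟨x, fun hxF => ?_, x1, x2, fun y hy => x3 y (h1 hy)⟩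
  obtain ⟨e, he, hxe⟩ := h5 x hxF x2
  exact x3 e he hxe

end SetHom
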