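import Pool.Agent.Helper25.SH.Defs2

/-!
# MP_506470_co, finite clique number: module G2 (generalised quadrangles)
-/

namespace SetHom

variable {V : Type}

theorem g2_clique {G : SimpleGraph V} (hP : ∀ v, P3F G (G.neighborSet v)) {u v x y : V}
    (huv : G.Adj u v) (h1 : G.Adj u x) (h2 : G.Adj v x) (h3 : G.Adj u y) (h4 : G.Adj v y)
    (hxy : x ≠ y) : G.Adj x y :=
  hP u x h1 v huv y h3 h2.symm h4 hxy

theorem g2_fin {G : SimpleGraph V} {m : ℕ} (hm : 1 ≤ m)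
    (hμ : ∀ u v, G.Adj u v → {x | G.Adj u x ∧ G.Adj v x}.ncard = m) {u v : V}
    (huv : G.Adj u v) : {x | G.Adj u x ∧ G.Adj v x}.Finite := by
  apply Set.finite_of_ncard_pos
  rw [hμ u v huv]
  exact hm

theorem g2_ex {G : SimpleGraph V} {m : ℕ} (hm : 1 ≤ m)
    (hμ : ∀ u v, G.Adj u v → {x | G.Adj u x ∧ G.Adj v x}.ncard = m) {u v : V}
    (huv : G.Adj u v) : ∃ x, G.Adj u x ∧ G.Adj v x := by
  have h : {x | G.Adj u x ∧ G.Adj v x}.Nonempty := by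
    apply Set.nonempty_of_ncard_ne_zero
    rw [hμ u v huv]
    omega
  exact h

theorem g2_far {G : SimpleGraph V} (hinf : ∀ v, (G.neighborSet v).Infinite) {m : ℕ} (hm : 1 ≤ m)
    (hμ : ∀ u v, G.Adj u v → {x | G.Adj u x ∧ G.Adj v x}.ncard = m) (x : V) (F : Finset V) :
    ∃ w, G.Adj x w ∧ ∀ a ∈ F, G.Adj x a → w ≠ a ∧ ¬ G.Adj a w := by
  have hfin : (⋃ a ∈ (F : Set V), ({w | w = a} ∪ {w | G.Adj x a ∧ G.Adj x w ∧ G.Adj a w})).Finite := by
    apply Set.Finite.biUnion F.finite_toSet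
    intro a _
    apply Set.Finite.union
    · exact Set.finite_singleton a
    · by_cases h : G.Adj x a
      · exact (g2_fin hm hμ h).subset (fun w hw => hw.2)
      · exact Set.finite_empty.subset (fun w hw => (h hw.1).elim)
  obtain ⟨w, hw, hw'⟩ := ((hinf x).sdiff hfin).nonempty
  refine ⟨w, hw, fun a ha hxa => ⟨fun h => hw' ?_, fun h => hw' ?_⟩⟩
  · exact Set.mem_biUnion (show a ∈ (F : Set V) from ha) (Or.inl h)
  · exact Set.mem_biUnion (show a ∈ (F : Set V) from ha) (Or.inr ⟨hxa, hw, h⟩)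

theorem g2_one {G : SimpleGraph V} [Nonempty V] (hW : WSH G)
    (hinf : ∀ v, (G.neighborSet v).Infinite) {m : ℕ}
    (hm : 1 ≤ m) (hμ : ∀ u v, G.Adj u v → {x | G.Adj u x ∧ G.Adj v x}.ncard = m) {a b c : V}
    (hab : G.Adj a b) (hac : ¬ G.Adj a c) (hbc : ¬ G.Adj b c) :
    ∃ x, G.Adj x a ∧ G.Adj x b ∧ G.Adj x c := by
  classical
  obtain ⟨x⟩ := (inferInstance : Nonempty V)
  obtain ⟨a0, ha0⟩ := (hinf x).nonempty
  have ha0' : G.Adj x a0 := ha0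
  obtain ⟨b0, hb0, hb0'⟩ := g2_ex hm hμ ha0'
  obtain ⟨c0, hc0, hc0'⟩ := g2_far hinf hm hμ x {a0, b0}
  obtain ⟨φ, h1, h2⟩ := hW.k2k1 hb0' (hc0' a0 (by simp) ha0').2 (hc0' b0 (by simp) hb0).2
    hab hac hbc
  have e1 : G.Adj (φ x) (φ a0) := φ.map_adj_iff.2 ha0'
  have e2 : G.Adj (φ x) (φ b0) := φ.map_adj_iff.2 hb0
  have e3 : G.Adj (φ x) (φ c0) := φ.map_adj_iff.2 hc0
  refine ⟨φ x, ?_⟩
  rw [h1] at e3
  rcases h2 with ⟨h2, h3⟩ | ⟨h2, h3⟩
  · rw [h2] at e1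
    rw [h3] at e2
    exact ⟨e1, e2, e3⟩
  · rw [h2] at e1
    rw [h3] at e2
    exact ⟨e2, e1, e3⟩

theorem g2_two {G : SimpleGraph V} (hP : ∀ v, P3F G (G.neighborSet v)) {a b c x x' : V}
    (hab : G.Adj a b) (hac : ¬ G.Adj a c) (hac' : a ≠ c) (h1 : G.Adj x a) (h2 : G.Adj x b)
    (h3 : G.Adj x c) (h1' : G.Adj x' a) (h2' : G.Adj x' b) (h3' : G.Adj x' c) : x = x' := by
  by_contra hne
  have hxx : G.Adj x x' := g2_clique hP hab h1.symm h2.symm h1'.symm h2'.symm hne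
  exact hac (hP x a h1 x' hxx c h3 h1'.symm h3' hac')

theorem g2_big {G : SimpleGraph V} [Nonempty V] (hW : WSH G)
    (hinf : ∀ v, (G.neighborSet v).Infinite) (hP : ∀ v, P3F G (G.neighborSet v)) {m : ℕ}
    (hm : 2 ≤ m) (hμ : ∀ u v, G.Adj u v → {x | G.Adj u x ∧ G.Adj v x}.ncard = m) : False := by
  classical
  have hm1 : 1 ≤ m := by omega
  obtain ⟨x⟩ := (inferInstance : Nonempty V)
  obtain ⟨x', hx'⟩ := (hinf x).nonempty
  have hxx' : G.Adj x x' := hx'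
  obtain ⟨u, hu, v, hv, huv⟩ : ∃ u ∈ {y | G.Adj x y ∧ G.Adj x' y}, ∃ v ∈ {y | G.Adj x y ∧ G.Adj x' y},
      u ≠ v := by
    have h1 := hμ x x' hxx'
    have h2 : 1 < {y | G.Adj x y ∧ G.Adj x' y}.ncard := by omega
    obtain ⟨u, v, hu, hv, huv⟩ := (Set.one_lt_ncard_iff (g2_fin hm1 hμ hxx')).1 h2
    exact ⟨u, hu, v, hv, huv⟩
  have hauv : G.Adj u v := g2_clique hP hxx' hu.1 hu.2 hv.1 hv.2 huv
  obtain ⟨w, hw, hwF⟩ := g2_far hinf hm1 hμ x {u, v, x'}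
  obtain ⟨hwu, huw⟩ := hwF u (by simp) hu.1
  obtain ⟨hwv, hvw⟩ := hwF v (by simp) hv.1
  obtain ⟨hwx', hx'w⟩ := hwF x' (by simp) hxx'
  obtain ⟨wA, hwA, hwAF⟩ := g2_far hinf hm1 hμ x {u, v, w}
  obtain ⟨hwAu, huwA⟩ := hwAF u (by simp) hu.1
  obtain ⟨hwAv, hvwA⟩ := hwAF v (by simp) hv.1
  obtain ⟨hwAw, hwwA⟩ := hwAF w (by simp) hw
  obtain ⟨w1, hw1, hw1F⟩ := g2_far hinf hm1 hμ x' {u, v, x}
  obtain ⟨hw1u, huw1⟩ := hw1F u (by simp) hu.2
  obtain ⟨hw1v, hvw1⟩ := hw1F v (by simp) hv.2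
  obtain ⟨hw1x, hxw1⟩ := hw1F x (by simp) hxx'.symm
  obtain ⟨wB, hB1, hB2, hB3, hB4, hB5, hB6⟩ : ∃ wB, G.Adj x' wB ∧ ¬ G.Adj x wB ∧ ¬ G.Adj u wB ∧
      ¬ G.Adj v wB ∧ ¬ G.Adj w wB ∧ w ≠ wB := by
    by_cases hc : G.Adj w w1
    · obtain ⟨wB, h1, h2⟩ := g2_ex hm1 hμ hw1
      refine ⟨wB, h1, fun h => ?_, fun h => ?_, fun h => ?_, fun h => ?_, fun h => ?_⟩
      · exact hxw1 (hP x' x hxx'.symm wB h1 w1 hw1 h h2.symm hw1x.symm)
      · exact huw1 (hP x' u hu.2 wB h1 w1 hw1 h h2.symm hw1u.symm)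
      · exact hvw1 (hP x' v hv.2 wB h1 w1 hw1 h h2.symm hw1v.symm)
      · exact hx'w (hP w1 x' hw1.symm wB h2 w hc.symm h1 h.symm hwx'.symm)
      · rw [h] at hx'w
        exact hx'w h1
    · refine ⟨w1, hw1, hxw1, huw1, hvw1, hc, fun h => ?_⟩
      rw [h] at hx'w
      exact hx'w hw1
  -- further inequalities
  have neuw : u ≠ w := hwu.symm
  have nevw : v ≠ w := hwv.symm
  have neuA : u ≠ wA := hwAu.symm
  have nevA : v ≠ wA := hwAv.symm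
  have newA : w ≠ wA := hwAw.symm
  have neuB : u ≠ wB := fun h => hB2 (h ▸ hu.1)
  have nevB : v ≠ wB := fun h => hB2 (h ▸ hv.1)
  have hauv' := hauv.symm
  have s1 : ¬ G.Adj w u := fun h => huw h.symm
  have s2 : ¬ G.Adj w v := fun h => hvw h.symm
  have s3 : ¬ G.Adj wA u := fun h => huwA h.symm
  have s4 : ¬ G.Adj wA v := fun h => hvwA h.symm
  have s5 : ¬ G.Adj wA w := fun h => hwwA h.symm
  have s6 : ¬ G.Adj wB u := fun h => hB3 h.symm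
  have s7 : ¬ G.Adj wB v := fun h => hB4 h.symm
  have s8 : ¬ G.Adj wB w := fun h => hB5 h.symm
  obtain ⟨φ, σ, h3, -⟩ := hW.tuple (k := 4)
    (fun i j => (i == 0 && j == 1) || (i == 1 && j == 0)) (by decide) ![u, v, w, wA] ![u, v, w, wB]
    (by
      intro i j hij
      fin_cases i <;> fin_cases j <;> simp_all)
    (by
      intro i j hij
      fin_cases i <;> fin_cases j <;> simp_all)
    (by
      intro i j
      fin_cases i <;> fin_cases j <;> simp_all)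
    (by
      intro i j
      fin_cases i <;> fin_cases j <;> simp_all)
  have hx : ∀ i : Fin 4, G.Adj x (![u, v, w, wA] i) := by
    intro i
    fin_cases i
    · exact hu.1
    · exact hv.1
    · exact hw
    · exact hwA
  have hz : ∀ i : Fin 4, G.Adj (φ x) (![u, v, w, wB] i) := by
    intro i
    have h4 := φ.map_adj_iff.2 (hx (σ.symm i))
    rw [h3, Equiv.apply_symm_apply] at h4
    exact h4
  have hz0 : G.Adj (φ x) u := hz 0
  have hz1 : G.Adj (φ x) v := hz 1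
  have hz2 : G.Adj (φ x) w := hz 2
  have hz3 : G.Adj (φ x) wB := hz 3
  have : x = φ x := g2_two hP hauv huw neuw hu.1 hv.1 hw hz0 hz1 hz2
  rw [← this] at hz3
  exact hB2 hz3

theorem g2_small {G : SimpleGraph V} [Nonempty V] (hW : WSH G)
    (hinf : ∀ v, (G.neighborSet v).Infinite) (hP : ∀ v, P3F G (G.neighborSet v))
    (hμ : ∀ u v, G.Adj u v → {x | G.Adj u x ∧ G.Adj v x}.ncard = 1) : False := by
  classical
  have hm1 : 1 ≤ 1 := le_rfl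
  have uniq : ∀ {a b x y : V}, G.Adj a b → G.Adj a x → G.Adj b x → G.Adj a y → G.Adj b y →
      x = y := by
    intro a b x y hab h1 h2 h3 h4
    obtain ⟨z, hz⟩ := Set.ncard_eq_one.1 (hμ a b hab)
    have h5 : x ∈ {x | G.Adj a x ∧ G.Adj b x} := ⟨h1, h2⟩
    have h6 : y ∈ {x | G.Adj a x ∧ G.Adj b x} := ⟨h3, h4⟩
    rw [hz, Set.mem_singleton_iff] at h5 h6
    rw [h5, h6]
  obtain ⟨x0⟩ := (inferInstance : Nonempty V)
  obtain ⟨p, hp⟩ := (hinf x0).nonempty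
  have hp' : G.Adj x0 p := hp
  obtain ⟨q, hq, hqF⟩ := g2_far hinf hm1 hμ x0 {p}
  obtain ⟨hqp, npq⟩ := hqF p (by simp) hp'
  -- common neighbours of p and q
  have hC : {x | G.Adj p x ∧ G.Adj q x}.Infinite := by
    intro hfin
    apply hinf p
    have h1 : ({x | G.Adj p x ∧ G.Adj q x} ∪ ⋃ z ∈ {x | G.Adj p x ∧ G.Adj q x},
        {y | G.Adj p y ∧ G.Adj z y}).Finite := by
      apply hfin.union
      apply hfin.biUnion
      intro z hz
      exact g2_fin hm1 hμ hz.1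
    refine h1.subset ?_
    intro u hu
    have hu' : G.Adj p u := hu
    by_cases hqu : G.Adj q u
    · exact Or.inl ⟨hu', hqu⟩
    · right
      obtain ⟨z, hz1, hz2, hz3⟩ := g2_one hW hinf hm1 hμ hu' npq (fun h => hqu h.symm)
      exact Set.mem_biUnion (show z ∈ {x | G.Adj p x ∧ G.Adj q x} from ⟨hz1.symm, hz3.symm⟩)
        ⟨hu', hz2⟩
  -- the key claim
  have key : ∀ s, ¬ G.Adj p s → ¬ G.Adj q s → {x | (G.Adj p x ∧ G.Adj q x) ∧ ¬ G.Adj x s}.Finite := by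
    intro s hps hqs
    by_contra hinfJ
    have hinfJ' : {x | (G.Adj p x ∧ G.Adj q x) ∧ ¬ G.Adj x s}.Infinite := hinfJ
    obtain ⟨T, hT, hTc⟩ := hinfJ'.exists_subset_card_eq 3
    obtain ⟨x, y, z, hxy, hxz, hyz, rfl⟩ := Finset.card_eq_three.1 hTc
    have hx : (G.Adj p x ∧ G.Adj q x) ∧ ¬ G.Adj x s := hT (by simp)
    have hy : (G.Adj p y ∧ G.Adj q y) ∧ ¬ G.Adj y s := hT (by simp)
    have hz : (G.Adj p z ∧ G.Adj q z) ∧ ¬ G.Adj z s := hT (by simp)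
    obtain ⟨a, ha1, ha2, ha3⟩ := g2_one hW hinf hm1 hμ hx.1.1 hps hx.2
    have hq_a : ¬ G.Adj q a := by
      intro h
      -- p, q are common neighbours of a and x
      exact hqp (uniq ha2 h.symm hx.1.2.symm ha1 hx.1.1.symm)
    have step : ∀ y b, ((G.Adj p y ∧ G.Adj q y) ∧ ¬ G.Adj y s) → x ≠ y → G.Adj b q → G.Adj b y →
        G.Adj a b := by
      intro y b hy hxy hb1 hb2
      have hya : ¬ G.Adj y a := by
        intro h
        exact hxy (uniq ha1.symm hx.1.1 ha2 hy.1.1 h.symm)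
      obtain ⟨b', hb1', hb2', hb3'⟩ := g2_one hW hinf hm1 hμ hy.1.2 hq_a hya
      have : b' = b := uniq hy.1.2 hb1'.symm hb2'.symm hb1.symm hb2.symm
      rw [← this]
      exact hb3'.symm
    obtain ⟨by', hby1, hby2, hby3⟩ := g2_one hW hinf hm1 hμ hy.1.2 hqs hy.2
    obtain ⟨bz, hbz1, hbz2, hbz3⟩ := g2_one hW hinf hm1 hμ hz.1.2 hqs hz.2
    have e1 := step y by' hy hxy hby1 hby2
    have e2 := step z bz hz hxz hbz1 hbz2
    have e3 : by' = bz := uniq ha3 e1 hby3.symm e2 hbz3.symm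
    rw [e3] at hby1 hby2
    exact hyz (uniq hbz1 hby2 hy.1.2 hbz2 hz.1.2)
  obtain ⟨x1, hx1⟩ := hC.nonempty
  obtain ⟨s, hs, hsF⟩ := g2_far hinf hm1 hμ x1 {p, q}
  obtain ⟨hsp, nps⟩ := hsF p (by simp) hx1.1.symm
  obtain ⟨hsq, nqs⟩ := hsF q (by simp) hx1.2.symm
  obtain ⟨s', hs'1, hs'2⟩ := g2_ex hm1 hμ hs
  have nps' : ¬ G.Adj p s' := by
    intro h
    exact nps (hP x1 p hx1.1.symm s' hs'1 s hs h hs'2.symm hsp.symm)
  have nqs' : ¬ G.Adj q s' := by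
    intro h
    exact nqs (hP x1 q hx1.2.symm s' hs'1 s hs h hs'2.symm hsq.symm)
  have hfin : ({x1} ∪ ({x | (G.Adj p x ∧ G.Adj q x) ∧ ¬ G.Adj x s} ∪
      {x | (G.Adj p x ∧ G.Adj q x) ∧ ¬ G.Adj x s'})).Finite :=
    (Set.finite_singleton x1).union ((key s nps nqs).union (key s' nps' nqs'))
  obtain ⟨x, hx, hx'⟩ := (hC.sdiff hfin).nonempty
  have e1 : x ≠ x1 := fun h => hx' (Or.inl h)
  have e2 : G.Adj x s := by
    by_contra h
    exact hx' (Or.inr (Or.inl ⟨hx, h⟩))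
  have e3 : G.Adj x s' := by
    by_contra h
    exact hx' (Or.inr (Or.inr ⟨hx, h⟩))
  exact e1 (uniq hs'2 e2.symm e3.symm hs.symm hs'1.symm)

theorem gq_false {G : SimpleGraph V} [Nonempty V] (hW : WSH G)
    (hinf : ∀ v, (G.neighborSet v).Infinite) (hP : ∀ v, P3F G (G.neighborSet v)) (m : ℕ)
    (hm : 1 ≤ m) (hμ : ∀ u v, G.Adj u v → {x | G.Adj u x ∧ G.Adj v x}.ncard = m) : False := by
  rcases Nat.lt_or_ge 1 m with h | h
  · exact g2_big hW hinf hP h hμ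
  · have : m = 1 := le_antisymm h hm
    subst this
    exact g2_small hW hinf hP hμ

end SetHom
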