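import Pool.Agent.Helper76.SH.Defs

/-!
# MP_506470_co : module Ga
-/

namespace SetHom

theorem bip_embed {V : Type*} {G : SimpleGraph V} (tf : TF G) (hS : Shat G)
    (hI : ∀ n : ℕ, ∃ I : Finset V, Indep G I ∧ I.card = n)
    (W : Type) [Fintype W] (H : SimpleGraph W) (col : W → Bool)
    (hcol : ∀ x y, H.Adj x y → col x ≠ col y) : Nonempty (H ↪g G) := by
  classical
  obtain ⟨I, hI1, hI2⟩ := hI (Fintype.card (W ⊕ Unit ⊕ W))
  have hc : Fintype.card (W ⊕ Unit ⊕ W) = Fintype.card I := by rw [Fintype.card_coe, hI2]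
  let g : (W ⊕ Unit ⊕ W) ≃ I := Fintype.equivOfCardEq hc
  let z : V := (g (Sum.inr (Sum.inl ()))).1
  let B : W → Finset V := fun y =>
    ((Finset.univ.filter (fun t : W ⊕ Unit ⊕ W => match t with
      | Sum.inl x => H.Adj x y
      | Sum.inr (Sum.inl _) => True
      | Sum.inr (Sum.inr w) => w = y)).image (fun t => (g t).1))
  have hBI : ∀ y, B y ⊆ I := by
    intro y t ht
    obtain ⟨s, -, rfl⟩ := Finset.mem_image.1 ht
    exact (g s).2
  have hB : ∀ y t, (g t).1 ∈ B y ↔ (match t with
      | Sum.inl x => H.Adj x y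
      | Sum.inr (Sum.inl _) => True
      | Sum.inr (Sum.inr w) => w = y) := by
    intro y t
    simp only [B, Finset.mem_image, Finset.mem_filter, Finset.mem_univ, true_and]
    constructor
    · rintro ⟨s, hs, h⟩
      have : s = t := g.injective (Subtype.ext h)
      rw [← this]
      exact hs
    · intro h
      exact ⟨t, h, rfl⟩
  have ex : ∀ y, ∃ u, u ∉ I ∧ ∀ x ∈ I, (G.Adj u x ↔ x ∈ B y) := fun y => hS I hI1 (B y) (hBI y)
  choose u hu1 hu2 using ex
  have hu3 : ∀ y t, G.Adj (u y) (g t).1 ↔ (match t with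
      | Sum.inl x => H.Adj x y
      | Sum.inr (Sum.inl _) => True
      | Sum.inr (Sum.inr w) => w = y) := by
    intro y t
    rw [hu2 y _ (g t).2, hB]
  let F : W → V := fun x => if col x = true then (g (Sum.inl x)).1 else u x
  have Ft : ∀ x, col x = true → F x = (g (Sum.inl x)).1 := by
    intro x hx
    simp only [F, if_pos hx]
  have Ff : ∀ x, col x = false → F x = u x := by
    intro x hx
    simp only [F]
    rw [if_neg (by rw [hx]; simp)]
  have huz : ∀ y, G.Adj (u y) z := by
    intro y
    have := hu3 y (Sum.inr (Sum.inl ()))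
    exact this.2 trivial
  have adj : ∀ x y, G.Adj (F x) (F y) ↔ H.Adj x y := by
    intro x y
    cases hx : col x <;> cases hy : col y
    · rw [Ff x hx, Ff y hy]
      constructor
      · intro h
        exact (tf _ _ _ h (huz y) (huz x)).elim
      · intro h
        exact absurd (by rw [hx, hy]) (hcol x y h)
    · rw [Ff x hx, Ft y hy, hu3 x (Sum.inl y)]
      exact ⟨fun h => h.symm, fun h => h.symm⟩
    · rw [Ft x hx, Ff y hy, G.adj_comm, hu3 y (Sum.inl x)]
    · rw [Ft x hx, Ft y hy]
      constructor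
      · intro h
        exact absurd h (hI1 _ (g _).2 _ (g _).2)
      · intro h
        exact absurd (by rw [hx, hy]) (hcol x y h)
  have inj : Function.Injective F := by
    intro x y h
    cases hx : col x <;> cases hy : col y
    · rw [Ff x hx, Ff y hy] at h
      have h1 : G.Adj (u x) (g (Sum.inr (Sum.inr x))).1 := (hu3 x (Sum.inr (Sum.inr x))).2 rfl
      rw [h] at h1
      exact (hu3 y (Sum.inr (Sum.inr x))).1 h1
    · rw [Ff x hx, Ft y hy] at h
      exact absurd (h ▸ (g (Sum.inl y)).2) (hu1 x)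
    · rw [Ft x hx, Ff y hy] at h
      exact absurd (h.symm ▸ (g (Sum.inl x)).2) (hu1 y)
    · rw [Ft x hx, Ft y hy] at h
      have := g.injective (Subtype.ext h)
      simpa using this
  exact ⟨⟨⟨F, inj⟩, fun {x y} => adj x y⟩⟩

end SetHom
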