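import Pool.Agent.Helper76.SH.Gc

/-!
# MP_506470_co : module Gb
-/

namespace SetHom

/-- numbers of decorations, none at `c0` -/
noncomputable def num0 (W : Type*) [Finite W] (c0 : W) (x : W) : ℕ :=
  open Classical in if x = c0 then 0 else num W x

lemma num0_ne {W : Type*} [Finite W] {c0 x : W} (h : x ≠ c0) : num0 W c0 x = num W x := by
  simp [num0, h]

lemma num0_self {W : Type*} [Finite W] (c0 : W) : num0 W c0 c0 = 0 := by
  simp [num0]

/-- the amalgamation step -/
lemma step {V : Type} {G : SimpleGraph V} (hs : SetHomogeneous G) (tf : TF G)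
    (W : Type) [Finite W] (H : SimpleGraph W) (hH : TF H) (c0 a b : W) (hab : a ≠ b)
    (ha : H.Adj c0 a) (hb : H.Adj c0 b)
    (f1 : (Dec H (num0 W c0)).induce {v | v ≠ Sum.inl a} ↪g G)
    (f2 : (Dec H (num0 W c0)).induce {v | v ≠ Sum.inl b} ↪g G) : Nonempty (H ↪g G) := by
  classical
  have hac : a ≠ c0 := fun h => H.loopless.irrefl c0 (by rwa [h] at ha)
  have hbc : b ≠ c0 := fun h => H.loopless.irrefl c0 (by rwa [h] at hb)
  set n := num0 W c0 with hn
  let D := Dec H n
  let s : Set (W ⊕ ((Σ x : W, Fin (n x)) × Bool)) := {v | v ≠ Sum.inl a ∧ v ≠ Sum.inl b}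
  have hs' : ∀ q, Sum.inr q ∈ s := fun q => ⟨by simp, by simp⟩
  let A := D.induce s
  let e1 : A ↪g G := ⟨⟨fun v => f1 ⟨v.1, v.2.1⟩, fun x y h => by
    have := f1.injective h
    apply Subtype.ext
    simpa using this⟩, by
      intro x y
      exact f1.map_adj_iff⟩
  let e2 : A ↪g G := ⟨⟨fun v => f2 ⟨v.1, v.2.2⟩, fun x y h => by
    have := f2.injective h
    apply Subtype.ext
    simpa using this⟩, by
      intro x y
      exact f2.map_adj_iff⟩
  obtain ⟨φ, α, hφ⟩ := emb_lemma hs e1 e2
  have hφ' : ∀ v : s, φ (f1 ⟨v.1, v.2.1⟩) = f2 ⟨(α v).1, (α v).2.2⟩ := hφ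
  have memW : ∀ x : W, x ≠ a → x ≠ b → Sum.inl x ∈ s := fun x h1 h2 =>
    ⟨fun h => h1 (Sum.inl_injective h), fun h => h2 (Sum.inl_injective h)⟩
  -- `α` fixes the vertices of `W` other than `c0`
  have fix1 : ∀ (x : W) (h1 : x ≠ a) (h2 : x ≠ b), x ≠ c0 →
      α ⟨Sum.inl x, memW x h1 h2⟩ = ⟨Sum.inl x, memW x h1 h2⟩ := by
    intro x h1 h2 h3
    apply fix_of_dg {v : s | ∃ x, v.1 = Sum.inl x ∧ x ≠ c0} (Nat.card W + 3)
    · rintro ⟨(y | q), hy⟩ ht
      · have hy0 : y = c0 := by
          by_contra h
          exact ht ⟨y, rfl, h⟩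
        subst hy0
        rw [dg_induce]
        have := cnt_upper H n y s
        have h0 : n y = 0 := num0_self y
        omega
      · have h2 : dg A ⟨Sum.inr q, hy⟩ ≤ 2 := dg_inr (H := H) s q hy
        omega
    · rintro ⟨t, ht⟩ ⟨y, hy, hy0⟩
      simp only at hy
      subst hy
      rw [dg_induce]
      refine le_trans ?_ (cnt_lower H n y s hs')
      rw [hn, num0_ne hy0]
      exact num_ge W y
    · rintro ⟨t, ht⟩ ⟨y, hy, hy0⟩ ⟨t', ht'⟩ ⟨z, hz, hz0⟩ h
      simp only at hy hz
      subst hy
      subst hz
      have ny : n y = num W y := num0_ne hy0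
      have nz : n z = num W z := num0_ne hz0
      rw [dg_induce, dg_induce, num_div W y _ (ny ▸ cnt_lower H n y _ hs')
        (ny ▸ cnt_upper H n y _), num_div W z _ (nz ▸ cnt_lower H n z _ hs')
        (nz ▸ cnt_upper H n z _)] at h
      have : Finite.equivFin W y = Finite.equivFin W z := by
        apply Fin.ext
        omega
      apply Subtype.ext
      simp only
      rw [(Finite.equivFin W).injective this]
    · exact ⟨x, rfl, h3⟩
  have fix0 : α ⟨Sum.inl c0, memW c0 hac.symm hbc.symm⟩ =
      ⟨Sum.inl c0, memW c0 hac.symm hbc.symm⟩ := by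
    rcases hv : α ⟨Sum.inl c0, memW c0 hac.symm hbc.symm⟩ with ⟨(x | ⟨p, c⟩), hx⟩
    · by_cases hx0 : x = c0
      · subst hx0
        rfl
      · exfalso
        have hxa : x ≠ a := fun h => hx.1 (by rw [h])
        have hxb : x ≠ b := fun h => hx.2 (by rw [h])
        have h1 := fix1 x hxa hxb hx0
        have h2 : α ⟨Sum.inl c0, memW c0 hac.symm hbc.symm⟩ = α ⟨Sum.inl x, memW x hxa hxb⟩ := by
          rw [h1, hv]
        have h3 := α.injective h2
        simp only [Subtype.mk.injEq, Sum.inl.injEq] at h3
        exact hx0 h3.symm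
    · exfalso
      obtain ⟨w, hw⟩ := α.surjective ⟨Sum.inr (p, !c), hs' _⟩
      have h1 : A.Adj (α ⟨Sum.inl c0, memW c0 hac.symm hbc.symm⟩) (α w) := by
        rw [hv, hw]
        show p = p ∧ c ≠ !c
        exact ⟨rfl, by cases c <;> simp⟩
      rw [α.map_adj_iff] at h1
      rcases w with ⟨(y | ⟨q, d⟩), hy⟩
      · have h1 : H.Adj c0 y := h1
        have hy0 : y ≠ c0 := fun h => H.loopless.irrefl c0 (by rwa [h] at h1)
        have hya : y ≠ a := fun h => hy.1 (by rw [h])
        have hyb : y ≠ b := fun h => hy.2 (by rw [h])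
        have h2 := fix1 y hya hyb hy0
        rw [h2] at hw
        simp at hw
      · have h1 : q.1 = c0 ∧ d = false := h1
        have h2 : 0 < n q.1 := lt_of_le_of_lt (Nat.zero_le _) q.2.isLt
        rw [h1.1] at h2
        have h0 : n c0 = 0 := num0_self c0
        omega
  have key : ∀ (x : W) (h1 : x ≠ a) (h2 : x ≠ b),
      φ (f1 ⟨Sum.inl x, (memW x h1 h2).1⟩) = f2 ⟨Sum.inl x, (memW x h1 h2).2⟩ := by
    intro x h1 h2
    rw [hφ' ⟨Sum.inl x, memW x h1 h2⟩]
    by_cases hx : x = c0
    · subst hx
      congr 1
      simp only [fix0]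
    · congr 1
      simp only [fix1 x h1 h2 hx]
  let F : W → V := fun x => if hx : x = b then φ (f1 ⟨Sum.inl b, fun h => hab (Sum.inl_injective h).symm⟩)
    else f2 ⟨Sum.inl x, fun h => hx (Sum.inl_injective h)⟩
  have Fb : F b = φ (f1 ⟨Sum.inl b, fun h => hab (Sum.inl_injective h).symm⟩) := by
    simp only [F, dif_pos]
  have Fx : ∀ x (hx : x ≠ b), F x = f2 ⟨Sum.inl x, fun h => hx (Sum.inl_injective h)⟩ := by
    intro x hx
    simp only [F, dif_neg hx]
  have Fx' : ∀ x (hx : x ≠ a), F x = φ (f1 ⟨Sum.inl x, fun h => hx (Sum.inl_injective h)⟩) ∨ x ≠ b := by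
    intro x hx
    by_cases hb' : x = b
    · subst hb'
      left
      exact Fb
    · exact Or.inr hb'
  have Fx1 : ∀ x (hx : x ≠ a), F x = φ (f1 ⟨Sum.inl x, fun h => hx (Sum.inl_injective h)⟩) := by
    intro x hx
    by_cases hb' : x = b
    · subst hb'
      exact Fb
    · rw [Fx x hb', ← key x hx hb']
  -- adjacency away from the pair `a, b`
  have adj1 : ∀ x y, x ≠ b → y ≠ b → (G.Adj (F x) (F y) ↔ H.Adj x y) := by
    intro x y hx hy
    rw [Fx x hx, Fx y hy, f2.map_adj_iff]
    exact Iff.rfl
  have adj2 : ∀ x y, x ≠ a → y ≠ a → (G.Adj (F x) (F y) ↔ H.Adj x y) := by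
    intro x y hx hy
    rw [Fx1 x hx, Fx1 y hy, φ.map_adj_iff, f1.map_adj_iff]
    exact Iff.rfl
  have nadj : ¬ G.Adj (F a) (F b) := by
    intro h
    have h1 := (adj1 c0 a hbc.symm hab).2 ha
    have h2 := (adj2 c0 b hac.symm hab.symm).2 hb
    exact tf _ _ _ h1 h h2
  have nadjH : ¬ H.Adj a b := fun h => hH c0 a b ha h hb
  have adj : ∀ x y, (G.Adj (F x) (F y) ↔ H.Adj x y) := by
    intro x y
    by_cases hxa : x = a
    · by_cases hyb : y = b
      · subst hxa hyb
        exact ⟨fun h => absurd h nadj, fun h => absurd h nadjH⟩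
      · exact adj1 x y (by rw [hxa]; exact hab) hyb
    · by_cases hxb : x = b
      · by_cases hya : y = a
        · subst hxb hya
          exact ⟨fun h => absurd h.symm nadj, fun h => absurd h.symm nadjH⟩
        · exact adj2 x y hxa hya
      · by_cases hyb : y = b
        · exact adj2 x y hxa (by rw [hyb]; exact hab.symm)
        · exact adj1 x y hxb hyb
  have ne : F a ≠ F b := by
    intro h
    have c1 : {t : s | G.Adj (F a) (f2 ⟨t.1, t.2.2⟩)}.ncard = cnt H n a s := by
      unfold cnt
      rw [← Set.ncard_image_of_injective _ Subtype.val_injective]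
      congr 1
      ext t
      constructor
      · rintro ⟨⟨t, ht⟩, h, rfl⟩
        have h : G.Adj (F a) (f2 ⟨t, ht.2⟩) := h
        rw [Fx a hab, f2.map_adj_iff] at h
        exact ⟨ht, h⟩
      · rintro ⟨ht, h⟩
        refine ⟨⟨t, ht⟩, ?_, rfl⟩
        show G.Adj (F a) (f2 ⟨t, ht.2⟩)
        rw [Fx a hab, f2.map_adj_iff]
        exact h
    have c2 : {t : s | G.Adj (F b) (f2 ⟨t.1, t.2.2⟩)}.ncard = cnt H n b s := by
      have e : {t : s | G.Adj (F b) (f2 ⟨t.1, t.2.2⟩)} =
          α '' {t : s | G.Adj (F b) (φ (f1 ⟨t.1, t.2.1⟩))} := by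
        ext t
        constructor
        · intro ht
          refine ⟨α.symm t, ?_, by simp⟩
          show G.Adj (F b) (φ (f1 ⟨(α.symm t).1, (α.symm t).2.1⟩))
          rw [hφ']
          simpa using ht
        · rintro ⟨u, hu, rfl⟩
          have hu : G.Adj (F b) (φ (f1 ⟨u.1, u.2.1⟩)) := hu
          rw [hφ'] at hu
          exact hu
      rw [e, Set.ncard_image_of_injective _ α.injective]
      unfold cnt
      rw [← Set.ncard_image_of_injective _ Subtype.val_injective]
      congr 1
      ext t
      constructor
      · rintro ⟨⟨t, ht⟩, h, rfl⟩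
        have h : G.Adj (F b) (φ (f1 ⟨t, ht.1⟩)) := h
        rw [Fb, φ.map_adj_iff, f1.map_adj_iff] at h
        exact ⟨ht, h⟩
      · rintro ⟨ht, h⟩
        refine ⟨⟨t, ht⟩, ?_, rfl⟩
        show G.Adj (F b) (φ (f1 ⟨t, ht.1⟩))
        rw [Fb, φ.map_adj_iff, f1.map_adj_iff]
        exact h
    have na : n a = num W a := num0_ne hac
    have nb : n b = num W b := num0_ne hbc
    have h3 : cnt H n a s = cnt H n b s := by rw [← c1, ← c2, h]
    have h4 := num_div W a _ (na ▸ cnt_lower H n a _ hs') (na ▸ cnt_upper H n a _)
    have h5 := num_div W b _ (nb ▸ cnt_lower H n b _ hs') (nb ▸ cnt_upper H n b _)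
    rw [h3, h5] at h4
    have : Finite.equivFin W a = Finite.equivFin W b := by
      apply Fin.ext
      omega
    exact hab ((Finite.equivFin W).injective this)
  have inj : Function.Injective F := by
    intro x y h
    by_cases hxb : x = b
    · by_cases hyb : y = b
      · rw [hxb, hyb]
      · by_cases hya : y = a
        · subst hxb hya
          exact absurd h.symm ne
        · rw [hxb] at h ⊢
          rw [Fx1 b hab.symm, Fx1 y hya] at h
          have := f1.injective (φ.injective h)
          simpa using this
    · by_cases hyb : y = b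
      · by_cases hxa : x = a
        · subst hxa hyb
          exact absurd h ne
        · rw [hyb] at h ⊢
          rw [Fx1 b hab.symm, Fx1 x hxa] at h
          have := f1.injective (φ.injective h)
          simpa using this
      · rw [Fx x hxb, Fx y hyb] at h
        have := f2.injective h
        simpa using this
  exact ⟨⟨⟨F, inj⟩, fun {x y} => adj x y⟩⟩

lemma induce_tf {T : Type*} {K : SimpleGraph T} (h : TF K) (s : Set T) : TF (K.induce s) :=
  fun x y z h1 h2 h3 => h x.1 y.1 z.1 h1 h2 h3

/-- the induction -/
lemma main_ind {V : Type} {G : SimpleGraph V} (hs : SetHomogeneous G) (tf : TF G)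
    (hB : ∀ (W : Type) [Fintype W] (H : SimpleGraph W) (col : W → Bool),
      (∀ x y, H.Adj x y → col x ≠ col y) → Nonempty (H ↪g G)) (t : ℕ) :
    ∀ (W : Type) [Finite W] (H : SimpleGraph W) (C : Set W) (col : W → Bool), TF H →
      C.ncard ≤ t → (∀ x y, x ∉ C → y ∉ C → H.Adj x y → col x ≠ col y) →
      Nonempty (H ↪g G) := by
  classical
  induction t with
  | zero =>
    intro W _ H C col hH hC hcol
    have hC : C = ∅ := by
      rw [← Set.ncard_eq_zero (Set.toFinite C)]
      omega
    subst hC
    have _ := Fintype.ofFinite W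
    exact hB W H col (fun x y h => hcol x y (Set.notMem_empty _) (Set.notMem_empty _) h)
  | succ t ih =>
    -- inner induction on the degree of a vertex of `C`
    have inner : ∀ d : ℕ, ∀ (W : Type) [Finite W] (H : SimpleGraph W) (C : Set W) (c0 : W)
        (col : W → Bool), TF H → C.ncard ≤ t + 1 → c0 ∈ C → (H.neighborSet c0).ncard ≤ d →
        (∀ x y, x ∉ C → y ∉ C → H.Adj x y → col x ≠ col y) → Nonempty (H ↪g G) := by
      intro d
      induction d with
      | zero =>
        intro W _ H C c0 col hH hC hc0 hd hcol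
        apply ih W H (C \ {c0}) col hH
        · rw [Set.ncard_diff_singleton_of_mem hc0]
          omega
        · have h0 : H.neighborSet c0 = ∅ := by
            rw [← Set.ncard_eq_zero (Set.toFinite _)]
            omega
          intro x y hx hy hxy
          apply hcol x y _ _ hxy
          · intro h
            apply hx
            refine ⟨h, ?_⟩
            rintro rfl
            have : y ∈ H.neighborSet x := hxy
            rw [h0] at this
            exact this
          · intro h
            apply hy
            refine ⟨h, ?_⟩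
            rintro rfl
            have : x ∈ H.neighborSet y := hxy.symm
            rw [h0] at this
            exact this
      | succ d ihd =>
        intro W _ H C c0 col hH hC hc0 hd hcol
        by_cases hd1 : (H.neighborSet c0).ncard ≤ 1
        · -- recolour `c0`
          obtain ⟨e, he⟩ : ∃ e : Bool, ∀ y, H.Adj c0 y → col y = e := by
            rw [Set.ncard_le_one (Set.toFinite _)] at hd1
            by_cases h : ∃ y, H.Adj c0 y
            · obtain ⟨y, hy⟩ := h
              exact ⟨col y, fun z hz => by rw [hd1 y hy z hz]⟩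
            · exact ⟨true, fun y hy => absurd ⟨y, hy⟩ h⟩
          apply ih W H (C \ {c0}) (Function.update col c0 (!e)) hH
          · rw [Set.ncard_diff_singleton_of_mem hc0]
            omega
          · intro x y hx hy hxy
            by_cases hxc : x = c0
            · have hyc : y ≠ c0 := by
                rintro rfl
                rw [hxc] at hxy
                exact H.loopless.irrefl _ hxy
              rw [hxc] at hxy ⊢
              rw [Function.update_self, Function.update_of_ne hyc, he y hxy]
              cases e <;> simp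
            · by_cases hyc : y = c0
              · rw [hyc] at hxy ⊢
                rw [Function.update_self, Function.update_of_ne hxc, he x hxy.symm]
                cases e <;> simp
              · rw [Function.update_of_ne hyc, Function.update_of_ne hxc]
                exact hcol x y (fun h => hx ⟨h, hxc⟩) (fun h => hy ⟨h, hyc⟩) hxy
        · -- amalgamation
          rw [not_le, Set.one_lt_ncard (Set.toFinite _)] at hd1
          obtain ⟨a, ha, b, hb, hab⟩ := hd1
          have sub : ∀ a : W, H.Adj c0 a → Nonempty
              ((Dec H (num0 W c0)).induce {v | v ≠ Sum.inl a} ↪g G) := by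
            intro a ha
            have hac : c0 ≠ a := fun h => H.loopless.irrefl c0 (by rwa [← h] at ha)
            let s : Set (W ⊕ ((Σ x : W, Fin (num0 W c0 x)) × Bool)) := {v | v ≠ Sum.inl a}
            let col' : W ⊕ ((Σ x : W, Fin (num0 W c0 x)) × Bool) → Bool := fun v =>
              match v with
              | Sum.inl x => col x
              | Sum.inr (p, false) => !(col p.1)
              | Sum.inr (p, true) => col p.1
            refine ihd s ((Dec H (num0 W c0)).induce s) {v | ∃ x ∈ C, v.1 = Sum.inl x}
              ⟨Sum.inl c0, fun h => hac (Sum.inl_injective h)⟩ (fun v => col' v.1)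
              (induce_tf (Dec_tf hH) _) ?_ ⟨c0, hc0, rfl⟩ ?_ ?_
            · refine le_trans ?_ hC
              rw [← Set.ncard_image_of_injective _ Subtype.val_injective,
                ← Set.ncard_image_of_injective C (Sum.inl_injective (β :=
                  ((Σ x : W, Fin (num0 W c0 x)) × Bool)))]
              apply Set.ncard_le_ncard _ (Set.toFinite _)
              rintro _ ⟨⟨v, hv⟩, ⟨x, hx, h⟩, rfl⟩
              exact ⟨x, hx, h.symm⟩
            · rw [← Set.ncard_image_of_injective _ Subtype.val_injective]
              have h1 : (Sum.inl '' (H.neighborSet c0 \ {a}) : Set (W ⊕ ((Σ x : W,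
                  Fin (num0 W c0 x)) × Bool))).ncard ≤ d := by
                rw [Set.ncard_image_of_injective _ Sum.inl_injective,
                  Set.ncard_diff_singleton_of_mem (show a ∈ H.neighborSet c0 from ha)]
                omega
              refine le_trans (Set.ncard_le_ncard ?_ (Set.toFinite _)) h1
              rintro _ ⟨⟨(x | ⟨p, c⟩), hv⟩, h, rfl⟩
              · refine ⟨x, ⟨h, ?_⟩, rfl⟩
                intro hx
                exact hv (by rw [Set.mem_singleton_iff.1 hx])
              · exfalso
                have h : p.1 = c0 ∧ c = false := h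
                have h2 : 0 < num0 W c0 p.1 := lt_of_le_of_lt (Nat.zero_le _) p.2.isLt
                rw [h.1, num0_self] at h2
                omega
            · rintro ⟨(x | ⟨p, c⟩), hx⟩ ⟨(y | ⟨q, e⟩), hy⟩ h1 h2 h3
              · exact hcol x y (fun h => h1 ⟨x, h, rfl⟩) (fun h => h2 ⟨y, h, rfl⟩) h3
              · have h3 : q.1 = x ∧ e = false := h3
                obtain ⟨rfl, rfl⟩ := h3
                show col q.1 ≠ !(col q.1)
                cases col q.1 <;> simp
              · have h3 : p.1 = y ∧ c = false := h3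
                obtain ⟨rfl, rfl⟩ := h3
                show (!(col p.1)) ≠ col p.1
                cases col p.1 <;> simp
              · have h3 : p = q ∧ c ≠ e := h3
                obtain ⟨rfl, h4⟩ := h3
                cases c <;> cases e
                · exact absurd rfl h4
                · show (!(col p.1)) ≠ col p.1
                  cases col p.1 <;> simp
                · show col p.1 ≠ !(col p.1)
                  cases col p.1 <;> simp
                · exact absurd rfl h4
          obtain ⟨f1⟩ := sub a ha
          obtain ⟨f2⟩ := sub b hb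
          exact step hs tf W H hH c0 a b hab ha hb f1 f2
    intro W _ H C col hH hC hcol
    by_cases hne : C.Nonempty
    · obtain ⟨c0, hc0⟩ := hne
      exact inner _ W H C c0 col hH hC hc0 le_rfl hcol
    · rw [Set.not_nonempty_iff_eq_empty] at hne
      subst hne
      have _ := Fintype.ofFinite W
      exact hB W H col (fun x y h => hcol x y (Set.notMem_empty _) (Set.notMem_empty _) h)

theorem tf_embed {V : Type} {G : SimpleGraph V} (hs : SetHomogeneous G) (tf : TF G)
    (hB : ∀ (W : Type) [Fintype W] (H : SimpleGraph W) (col : W → Bool),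
      (∀ x y, H.Adj x y → col x ≠ col y) → Nonempty (H ↪g G))
    (W : Type) [Fintype W] (H : SimpleGraph W) (hH : TF H) : Nonempty (H ↪g G) :=
  main_ind hs tf hB (Set.univ : Set W).ncard W H Set.univ (fun _ => true) hH le_rfl
    (fun x _ hx => absurd (Set.mem_univ x) hx)

end SetHom
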