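import Pool.Agent.Helper76.SH.ModD2
import Pool.Agent.Helper26.SH.Basics
import Pool.Agent.Helper33.SH.Order
import Pool.Agent.Helper33.SH.Dyadic
import Pool.Agent.Helper23.SH.Segments
import Pool.Agent.Helper30.SH.BackForth
import Pool.Agent.Helper3.SH.I
import Pool.Agent.Helper76.SH.Ga
import Pool.Agent.Helper76.SH.Gb

/-!
# MP_506470_co : assembly
-/

namespace SetHom

open Classical in
/-- the permutation of the neighbourhood induced by an automorphism fixing the base point -/
noncomputable def indPerm {V : Type*} {G : SimpleGraph V} {v : V} (φ : G ≃g G) (h : φ v = v) :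
    Equiv.Perm (G.neighborSet v) where
  toFun x := ⟨φ x.1, by
    have := φ.map_adj_iff.2 x.2
    rwa [h] at this⟩
  invFun x := ⟨φ.symm x.1, by
    have hx : G.Adj v x.1 := x.2
    show G.Adj v (φ.symm x.1)
    rw [← φ.map_adj_iff, RelIso.apply_symm_apply, h]
    exact hx⟩
  left_inv x := by
    apply Subtype.ext
    simp
  right_inv x := by
    apply Subtype.ext
    simp

/-- the group induced on the neighbourhood of `v` by the stabiliser of `v` -/
def stabGroup {V : Type*} (G : SimpleGraph V) (v : V) : Subgroup (Equiv.Perm (G.neighborSet v)) where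
  carrier := {g | ∃ φ : G ≃g G, φ v = v ∧ ∀ x : G.neighborSet v, φ x.1 = (g x).1}
  mul_mem' := by
    rintro g h ⟨φ, h1, h2⟩ ⟨ψ, h3, h4⟩
    refine ⟨ψ.trans φ, ?_, ?_⟩
    · show φ (ψ v) = v
      rw [h3, h1]
    · intro x
      show φ (ψ x.1) = (g (h x)).1
      rw [h4, h2]
  one_mem' := ⟨RelIso.refl _, rfl, fun x => rfl⟩
  inv_mem' := by
    rintro g ⟨φ, h1, h2⟩
    refine ⟨φ.symm, ?_, ?_⟩
    · apply φ.injective
      rw [RelIso.apply_symm_apply, h1]
    · intro x
      apply φ.injective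
      rw [RelIso.apply_symm_apply, h2]
      simp

/-- coloured isomorphic orders define isomorphic graphs -/
lemma tri_iso {X Y : Type*} [LinearOrder X] [LinearOrder Y] (c : X → Fin 3) (d : Y → Fin 3)
    (f : X ≃o Y) (hf : ∀ x, d (f x) = c x) : Nonempty (tri c ≃g tri d) := by
  refine ⟨⟨f.toEquiv.optionCongr, ?_⟩⟩
  have key : ∀ x y, triRel d (f x) (f y) ↔ triRel c x y := by
    intro x y
    simp only [triRel, hf, f.lt_iff_lt]
  intro a b
  rcases a with _ | x <;> rcases b with _ | y
  · exact Iff.rfl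
  · show d (f y) = 0 ↔ c y = 0
    rw [hf]
  · show d (f x) = 0 ↔ c x = 0
    rw [hf]
  · show (triRel d (f x) (f y) ∨ triRel d (f y) (f x)) ↔ (triRel c x y ∨ triRel c y x)
    rw [key, key]

/-- the shattered case for one vertex gives it for the graph -/
lemma shat_of_local {V : Type*} {G : SimpleGraph V} (hG : Good G) (v : V)
    (h : ∀ S : Finset V, (∀ x ∈ S, G.Adj v x) → ∀ B ⊆ S, ∃ u, u ≠ v ∧ ¬ G.Adj u v ∧
      ∀ x ∈ S, (G.Adj u x ↔ x ∈ B)) : Shat G := by
  classical
  intro I hI B hB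
  obtain ⟨w, hw⟩ := hG.common I hI
  obtain ⟨φ, hφ⟩ := hG.trans w v
  obtain ⟨u, h1, h2, h3⟩ := h (I.image φ) (by
    intro x hx
    rw [Finset.mem_image] at hx
    obtain ⟨y, hy, rfl⟩ := hx
    have := φ.map_adj_iff.2 (hw y hy)
    rwa [hφ] at this) (B.image φ) (Finset.image_subset_image hB)
  refine ⟨φ.symm u, ?_, ?_⟩
  · intro hu
    have := φ.map_adj_iff.2 (hw _ hu)
    rw [RelIso.apply_symm_apply, hφ] at this
    exact h2 this.symm
  · intro x hx
    rw [← φ.map_adj_iff, RelIso.apply_symm_apply, h3 (φ x) (Finset.mem_image_of_mem _ hx)]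
    rw [Finset.mem_image]
    constructor
    · rintro ⟨y, hy, hxy⟩
      rwa [← φ.injective hxy]
    · intro hx
      exact ⟨x, hx, rfl⟩

/-- not shattered: the graph is the complement of `R(3)` -/
lemma coR3_of_not_shat {V : Type} [Countable V] {G : SimpleGraph V} (hG : Good G) (v : V)
    (h : ¬ ∀ S : Finset V, (∀ x ∈ S, G.Adj v x) → ∀ B ⊆ S, ∃ u, u ≠ v ∧ ¬ G.Adj u v ∧
      ∀ x ∈ S, (G.Adj u x ↔ x ∈ B)) : Nonempty (G ≃g R3ᶜ) := by
  classical
  have : Infinite (G.neighborSet v) := (hG.infdeg v).to_subtype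
  obtain ⟨_, hgo⟩ := exists_order (stabGroup G v) (by
    intro S S' hcard h2
    obtain ⟨φ, h3, h4⟩ := hG.star v (S.map ⟨Subtype.val, Subtype.val_injective⟩)
      (S'.map ⟨Subtype.val, Subtype.val_injective⟩)
      (by
        intro x hx
        rw [Finset.mem_map] at hx
        obtain ⟨y, _, rfl⟩ := hx
        exact y.2)
      (by
        intro x hx
        rw [Finset.mem_map] at hx
        obtain ⟨y, _, rfl⟩ := hx
        exact y.2)
      (by simpa using hcard) (by simpa using h2)
    refine ⟨indPerm φ h3, ⟨φ, h3, fun x => rfl⟩, ?_⟩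
    ext x
    have h5 : x.1 ∈ (φ '' ((S.map ⟨Subtype.val, Subtype.val_injective⟩ : Finset V) : Set V)) ↔
        x.1 ∈ ((S'.map ⟨Subtype.val, Subtype.val_injective⟩ : Finset V) : Set V) := by
      rw [h4]
    have h6 : x.1 ∈ ((S'.map ⟨Subtype.val, Subtype.val_injective⟩ : Finset V) : Set V) ↔
        x ∈ (S' : Set (G.neighborSet v)) := by
      rw [Finset.mem_coe, Finset.mem_coe]
      exact Finset.mem_map' (⟨Subtype.val, Subtype.val_injective⟩ : G.neighborSet v ↪ V)
    rw [h6] at h5
    rw [← h5]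
    constructor
    · rintro ⟨y, hy, rfl⟩
      refine ⟨y.1, ?_, rfl⟩
      rw [Finset.mem_coe] at hy ⊢
      exact (Finset.mem_map' (⟨Subtype.val, Subtype.val_injective⟩ : G.neighborSet v ↪ V)).2 hy
    · rintro ⟨y, hy, hxy⟩
      simp only [Finset.coe_map, Function.Embedding.coeFn_mk, Set.mem_image, Finset.mem_coe] at hy
      obtain ⟨z, hz, rfl⟩ := hy
      exact ⟨z, hz, Subtype.ext hxy⟩)
  -- the family of traces
  have hseg := segments (stabGroup G v) hgo
    {T | ∃ u, u ≠ v ∧ ¬ G.Adj u v ∧ T = Tr G v u}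
    (by
      rintro g ⟨φ, h1, h2⟩ T ⟨u, hu, hu', rfl⟩
      refine ⟨φ u, ?_, ?_, ?_⟩
      · intro h3
        rw [← h1] at h3
        exact hu (φ.injective h3)
      · intro h3
        rw [← h1, φ.map_adj_iff] at h3
        exact hu' h3
      · ext x
        constructor
        · rintro ⟨y, hy, rfl⟩
          show G.Adj (φ u) (g y).1
          rw [← h2, φ.map_adj_iff]
          exact hy
        · intro hx
          refine ⟨g.symm x, ?_, by simp⟩
          show G.Adj u (g.symm x).1
          rw [← φ.map_adj_iff, h2, Equiv.apply_symm_apply]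
          exact hx)
    (by
      rintro T ⟨u, hu, hu', rfl⟩ hfin
      apply hG.inter u v hu hu'
      refine (hfin.image Subtype.val).subset ?_
      rintro x ⟨h1, h2⟩
      exact ⟨⟨x, h2⟩, h1, rfl⟩)
    (by
      rintro T ⟨u, hu, hu', rfl⟩ huniv
      obtain ⟨x, hx, hx'⟩ := tr_ne hG hu hu'
      have : (⟨x, hx⟩ : G.neighborSet v) ∈ Tr G v u := by rw [huniv]; trivial
      exact hx' this)
    (by
      rintro A ⟨a, ha, ha', rfl⟩ B ⟨b, hb, hb', rfl⟩ D ⟨d, hd, hd', rfl⟩ hAB hAD hBD
      have nadj : ∀ p q, (Tr G v p ∩ Tr G v q).Nonempty → ¬ G.Adj p q := by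
        rintro p q ⟨x, hx1, hx2⟩ hpq
        exact hG.tf p q x.1 hpq hx2 hx1
      obtain ⟨x, hx⟩ := hG.common {v, a, b, d} (by
        have n1 := nadj _ _ hAB
        have n2 := nadj _ _ hAD
        have n3 := nadj _ _ hBD
        intro p hp q hq
        simp only [Finset.mem_insert, Finset.mem_singleton] at hp hq
        rcases hp with rfl | rfl | rfl | rfl <;> rcases hq with rfl | rfl | rfl | rfl <;>
          first
            | exact G.loopless.irrefl _
            | assumption
            | (intro h; exact absurd h.symm (by assumption)))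
      have h1 := hx v (by simp)
      have h2 := hx a (by simp)
      have h3 := hx b (by simp)
      have h4 := hx d (by simp)
      exact ⟨⟨x, h1.symm⟩, ⟨h2.symm, h3.symm⟩, h4.symm⟩)
    (by
      rintro A ⟨a, ha, ha', rfl⟩ B ⟨b, hb, hb', rfl⟩ D ⟨d, hd, hd', rfl⟩ ⟨hAB, hAD, hBD⟩
      have adj : ∀ p q, p ≠ v → ¬ G.Adj p v → q ≠ v → ¬ G.Adj q v →
          Disjoint (Tr G v p) (Tr G v q) → G.Adj p q := by
        intro p q hp hp' hq hq' hd
        rw [adj_iff_disj hG hp hp' hq hq']
        rintro x hx ⟨h1, h2⟩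
        exact Set.disjoint_left.1 hd (show (⟨x, hx⟩ : G.neighborSet v) ∈ Tr G v p from h1) h2
      exact hG.tf a b d (adj a b ha ha' hb hb' hAB) (adj b d hb hb' hd hd' hBD)
        (adj a d ha ha' hd hd' hAD))
    (by
      rintro T ⟨u, hu, hu', rfl⟩ z hz
      obtain ⟨w, hw, hw', h1, h2⟩ := p6 hG hu hu' z.2 hz
      refine ⟨Tr G v w, ⟨w, hw, hw', rfl⟩, h1, ?_⟩
      rw [Set.disjoint_left]
      intro x hx1 hx2
      exact hG.tf w u x.1 h2 hx2 hx1)
    (by
      push Not at h
      obtain ⟨S, hS, B, hB, h1⟩ := h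
      refine ⟨S.subtype (fun x => x ∈ G.neighborSet v), B.subtype (fun x => x ∈ G.neighborSet v),
        ?_, ?_⟩
      · intro x hx
        rw [Finset.mem_subtype] at hx ⊢
        exact hB hx
      · rintro T ⟨u, hu, hu', rfl⟩ heq
        obtain ⟨x, hx, hx'⟩ := h1 u hu hu'
        have h2 : (⟨x, hS x hx⟩ : G.neighborSet v) ∈
            (Tr G v u ∩ ((S.subtype (fun x => x ∈ G.neighborSet v) : Finset _) :
              Set (G.neighborSet v))) ↔ G.Adj u x := by
          constructor
          · intro h3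
            exact h3.1
          · intro h3
            refine ⟨h3, ?_⟩
            rw [Finset.mem_coe, Finset.mem_subtype]
            exact hx
        rw [heq] at h2
        have h3 : (⟨x, hS x hx⟩ : G.neighborSet v) ∈
            ((B.subtype (fun x => x ∈ G.neighborSet v) : Finset _) : Set (G.neighborSet v)) ↔
              x ∈ B := by
          rw [Finset.mem_coe, Finset.mem_subtype]
        rw [h3] at h2
        rcases hx' with ⟨h4, h5⟩ | ⟨h4, h5⟩
        · exact h5 (h2.2 h4)
        · exact h4 (h2.1 h5))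
  obtain ⟨X, _, _, _, c, hc, ⟨e1⟩⟩ := segments_model hG v
    (by
      intro l l' h1 h2 h3 h4
      obtain ⟨g, ⟨φ, h5, h6⟩, h7⟩ := hgo l l' h1 h2 h3 h4
      refine ⟨φ, h5, ?_⟩
      rw [← h7, List.map_map]
      apply List.map_congr_left
      intro x _
      exact h6 x)
    (fun u hu hu' => hseg _ ⟨u, hu, hu', rfl⟩)
  obtain ⟨Y, _, _, _, d, hd, ⟨e2⟩⟩ := dyadic_model
  obtain ⟨f, hf⟩ := coloured_cantor c d hc hd
  obtain ⟨e3⟩ := tri_iso c d f hf
  exact ⟨(e1.trans e3).trans e2.symm⟩

/-- The classification of the triangle-free case. -/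
theorem main {V : Type} [Countable V] [Infinite V] (G : SimpleGraph V) (hs : SetHomogeneous G)
    (tf : TF G) : Homogeneous G ∨ Nonempty (G ≃g R3ᶜ) := by
  classical
  by_cases hP : ∃ a b c, G.Adj a b ∧ G.Adj b c ∧ a ≠ c
  · by_cases hC : ∃ a b c, G.Adj a b ∧ ¬ G.Adj a c ∧ ¬ G.Adj b c ∧ c ≠ a ∧ c ≠ b
    · have hG : Good G := basics hs tf hP hC
      obtain ⟨v, _, _, _⟩ := hP
      by_cases h : ∀ S : Finset V, (∀ x ∈ S, G.Adj v x) → ∀ B ⊆ S, ∃ u, u ≠ v ∧ ¬ G.Adj u v ∧
          ∀ x ∈ S, (G.Adj u x ↔ x ∈ B)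
      · left
        have hS := shat_of_local hG v h
        have hI : ∀ n : ℕ, ∃ I : Finset V, Indep G I ∧ I.card = n := by
          intro n
          obtain ⟨I, hI, hn⟩ := (hG.infdeg v).exists_subset_card_eq n
          refine ⟨I, ?_, hn⟩
          intro x hx y hy hxy
          exact hG.tf v x y (hI hx) hxy (hI hy)
        have hB := fun (W : Type) [Fintype W] (H : SimpleGraph W) (col : W → Bool)
          (hcol : ∀ x y, H.Adj x y → col x ≠ col y) => bip_embed tf hS hI W H col hcol
        exact homogeneous_of_ope (ope_of_embed hs tf (fun W _ H hH => tf_embed hs tf hB W H hH))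
      · right
        exact coR3_of_not_shat hG v h
    · exact Or.inl (homogeneous_of_ope (ope_of_noC hs tf hC))
  · exact Or.inl (homogeneous_of_ope (ope_of_noP hs tf hP))

end SetHom
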