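import Pool.Agent.Helper30.SH.ZRow
import Pool.Agent.Helper95.SH.CoordI
import Pool.Agent.Helper76.RC.EJ

/-!
# Parseval tail of the rows of `D2` for head vectors

`gT Θ Θ' n x = Θ' x e^{i n Θ x}` has `‖gT‖² = ‖Θ'‖²` for every `n`, and `Rn Θ Θ' n k = fc (gT Θ Θ' n) k / k`.
`TB Θ Θ' K m1 ε`: for `|n| ≤ K` the quadratic mean of the coefficients of `gT n` with `|k| > m1` is at most `ε`.
`TB_of`: `TB` from a kernel check; `rows_tail`, `rows_tail2`: the rows `l` with `l - 1 > m1`.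
-/

set_option autoImplicit false

open MeasureTheory Set Filter Topology

namespace Helper76.SH

open Helper49.LT hiding sg cf
open Helper95.RC (ms av)
open Helper95.SH (Rn wF En ms_fc)
open Helper30.SH (cf fc_V bm_V sum_sq_le V_tp)
open Helper87.RC (BM fc_eq fc_sub fc_cmul fc_add fc_conj pars)
open Helper56.RC (fc)
open Helper41.SH (IA inv trp)
open Pool.Agent.Helper20.RC (lk lk_ge lk_sq)
open Helper54.RC.Fast Helper76.RC.TPoly Helper76.RC.ExpF Helper76.RC.TrD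

variable {Θ Θ' : ℝ → ℝ}

/-! ## Transported modes -/

/-- `Θ' e^{i n Θ}` -/
noncomputable def gT (Θ Θ' : ℝ → ℝ) (n : ℤ) (x : ℝ) : ℂ := (Θ' x : ℂ) * ee ((n : ℝ) * Θ x)

theorem Rn_gT (h : IA Θ Θ') (n : ℤ) {k : ℤ} (hk : k ≠ 0) : Rn Θ Θ' n k = fc (gT Θ Θ' n) k / k := by
  have hkc : (k : ℂ) ≠ 0 := by exact_mod_cast hk
  unfold Rn
  by_cases hn : n = 0
  · subst hn
    rw [if_pos rfl]
    congr 2
    funext x
    simp [gT, ee_zero]
  · rw [if_neg hn]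
    have hnc : (n : ℂ) ≠ 0 := by exact_mod_cast hn
    have h1 := h.fc_mode hn k
    have e : gT Θ Θ' n = trp Θ Θ' (fun θ => ee ((n : ℝ) * θ)) := rfl
    rw [e, h1]
    unfold En
    field_simp

theorem gT_conj (Θ Θ' : ℝ → ℝ) (n : ℤ) : gT Θ Θ' (-n) = fun x => (starRingEnd ℂ) (gT Θ Θ' n x) := by
  funext x
  unfold gT
  rw [map_mul, Complex.conj_ofReal, ← ee_neg]
  congr 2
  push_cast
  ring

/-- the tail bound -/
def TB (Θ Θ' : ℝ → ℝ) (K m1 : ℕ) (ε : ℝ) : Prop :=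
  ∀ n : ℤ, |n| ≤ K → ∀ F : Finset ℤ, (∀ k ∈ F, (m1 : ℤ) < |k|) → ∑ k ∈ F, ‖fc (gT Θ Θ' n) k‖ ^ 2 ≤ ε ^ 2

theorem TB_of_nonneg {K m1 : ℕ} {ε : ℝ}
    (h : ∀ n : ℕ, n ≤ K → ∀ F : Finset ℤ, (∀ k ∈ F, (m1 : ℤ) < |k|) → ∑ k ∈ F, ‖fc (gT Θ Θ' n) k‖ ^ 2 ≤ ε ^ 2) :
    TB Θ Θ' K m1 ε := by
  intro n hn F hF
  rcases le_total 0 n with h0 | h0
  · obtain ⟨m, rfl⟩ := Int.eq_ofNat_of_zero_le h0
    exact h m (by rw [abs_of_nonneg h0] at hn; exact_mod_cast hn) F hF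
  · obtain ⟨m, hm⟩ := Int.eq_ofNat_of_zero_le (by omega : 0 ≤ -n)
    have e : n = -(m : ℤ) := by omega
    subst e
    rw [abs_neg, abs_of_nonneg (by positivity)] at hn
    have h1 := h m (by exact_mod_cast hn) (F.image fun k => -k) (by
      intro k hk
      obtain ⟨k', hk', rfl⟩ := Finset.mem_image.1 hk
      rw [abs_neg]
      exact hF k' hk')
    rw [Finset.sum_image (fun a _ b _ h => by simpa using h)] at h1
    refine le_trans (le_of_eq ?_) h1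
    refine Finset.sum_congr rfl fun k _ => ?_
    rw [gT_conj, fc_conj, Complex.norm_conj]

/-! ## Approximation and Parseval -/

theorem ms_eq_sum (b : ℕ) (R : FP) : ms (V b R) = ∑ n ∈ Finset.Icc (-(R.N : ℤ)) R.N, ‖fc (V b R) n‖ ^ 2 := by
  obtain ⟨C, hC⟩ := bm_V b R
  rw [ms_fc hC]
  apply tsum_eq_sum
  intro n hn
  rw [fc_V]
  unfold cf
  rw [if_neg hn, norm_zero]
  norm_num

theorem sum_le_ms {f : ℝ → ℂ} {C : ℝ} (hf : BM f C) (F : Finset ℤ) : ∑ n ∈ F, ‖fc f n‖ ^ 2 ≤ ms f := by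
  have := sum_le_hasSum F (fun n _ => by positivity) (pars hf)
  exact this

theorem sum_mul_le {ι : Type*} (F : Finset ι) (x y : ι → ℝ) {A B : ℝ} (hA : 0 ≤ A) (hB : 0 ≤ B)
    (h1 : ∑ i ∈ F, x i ^ 2 ≤ A ^ 2) (h2 : ∑ i ∈ F, y i ^ 2 ≤ B ^ 2) : ∑ i ∈ F, x i * y i ≤ A * B := by
  have h := Finset.sum_mul_sq_le_sq_mul_sq F x y
  have h3 : (∑ i ∈ F, x i * y i) ^ 2 ≤ (A * B) ^ 2 := by
    refine h.trans ?_
    rw [mul_pow]
    exact mul_le_mul h1 h2 (Finset.sum_nonneg fun i _ => by positivity) (by positivity)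
  exact abs_le_of_sq_le_sq' h3 (by positivity) |>.2

/-- the tail of a function close to a polynomial -/
theorem tail_approx {f : ℝ → ℂ} {C : ℝ} (hf : BM f C) (b : ℕ) (R : FP) {c E B : ℝ} (hc : 0 < c)
    (hE : ∀ t, ‖(c : ℂ) * f t - V b R t‖ ≤ E) (hB : ∀ t, ‖V b R t‖ ≤ B) (F W : Finset ℤ)
    (hF : ∀ k ∈ F, k ∉ W) :
    c ^ 2 * ∑ k ∈ F, ‖fc f k‖ ^ 2 ≤ c ^ 2 * ms f - ∑ n ∈ W, ‖fc (V b R) n‖ ^ 2 + 2 * (B * E) := by
  classical
  obtain ⟨CV, hCV⟩ := bm_V b R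
  have hE0 : 0 ≤ E := (norm_nonneg _).trans (hE 0)
  have hB0 : 0 ≤ B := (norm_nonneg _).trans (hB 0)
  have hdis : Disjoint F W := Finset.disjoint_left.2 hF
  have h1 := sum_le_ms hf (F ∪ W)
  rw [Finset.sum_union hdis] at h1
  have hVB : BM (V b R) B := ⟨hCV.m, hB⟩
  have hd : BM (fun t => (c : ℂ) * f t - V b R t) E := ⟨(hf.m.const_mul _).sub hCV.m, hE⟩
  have h2 := sum_sq_le hVB W
  have h3 := sum_sq_le hd W
  have h4 := sum_mul_le W (fun n => ‖fc (V b R) n‖) (fun n => ‖fc (fun t => (c : ℂ) * f t - V b R t) n‖) hB0 hE0 h2 h3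
  have h5 : ∑ n ∈ W, ‖fc (V b R) n‖ ^ 2 - 2 * ∑ n ∈ W, ‖fc (V b R) n‖ * ‖fc (fun t => (c : ℂ) * f t - V b R t) n‖ ≤
      c ^ 2 * ∑ n ∈ W, ‖fc f n‖ ^ 2 := by
    rw [Finset.mul_sum, Finset.mul_sum, ← Finset.sum_sub_distrib]
    refine Finset.sum_le_sum fun n _ => ?_
    have e : (c : ℂ) * fc f n = fc (V b R) n + fc (fun t => (c : ℂ) * f t - V b R t) n := by
      rw [fc_sub (hf.cmul _) hCV, fc_cmul]
      ring
    have e2 : c ^ 2 * ‖fc f n‖ ^ 2 = ‖fc (V b R) n + fc (fun t => (c : ℂ) * f t - V b R t) n‖ ^ 2 := by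
      rw [← e, norm_mul, Complex.norm_real, Real.norm_eq_abs, abs_of_pos hc, mul_pow]
    rw [e2]
    set u := fc (V b R) n
    set d := fc (fun t => (c : ℂ) * f t - V b R t) n
    have t1 : ‖u‖ ≤ ‖u + d‖ + ‖d‖ := by
      have := norm_sub_le (u + d) d
      rwa [add_sub_cancel_right] at this
    have hu := norm_nonneg u
    have hdn := norm_nonneg d
    have hud := norm_nonneg (u + d)
    by_cases hle : ‖u‖ ≤ ‖d‖
    · nlinarith [sq_nonneg ‖u + d‖]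
    · have h6 : ‖u‖ - ‖d‖ ≤ ‖u + d‖ := by linarith
      have h7 : 0 ≤ ‖u‖ - ‖d‖ := by linarith
      nlinarith [pow_le_pow_left₀ h7 h6 2, sq_nonneg ‖d‖]
  have h8 : c ^ 2 * (∑ x ∈ F, ‖fc f x‖ ^ 2 + ∑ x ∈ W, ‖fc f x‖ ^ 2) ≤ c ^ 2 * ms f :=
    mul_le_mul_of_nonneg_left h1 (by positivity)
  rw [mul_add] at h8
  linarith

/-! ## The mean square of a packed polynomial -/

/-- the centre digit of `R conj R` -/
def sqC (b : ℕ) (R : FP) : ℕ := dg b (Nat.mul 2 R.N) (mulF b R (cjF b R)).x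
/-- its conditions -/
def okC (b r : ℕ) (R : FP) : Bool := bif okn b r R then okm b r R (cjF b R) else false

theorem bif_iff (x y : Bool) : (bif x then y else false) = true ↔ x = true ∧ y = true := by
  cases x <;> simp

theorem ms_V (b r : ℕ) (hr : r ≤ b + 1) (R : FP) (hR : wf b R = true) (h : okC b r R = true) :
    ms (V b R) = (sqC b R : ℝ) - 2 ^ b := by
  unfold okC at h
  rw [bif_iff] at h
  obtain ⟨c1, c2⟩ := cjF_sound b r hr R h.1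
  obtain ⟨m1, m2⟩ := mulF_sound b r hr R (cjF b R) hR c1 h.2
  have e1 : fc (V b (mulF b R (cjF b R))) 0 = ((ms (V b R) : ℝ) : ℂ) := by
    rw [fc_eq]
    have e2 : ∀ t, V b (mulF b R (cjF b R)) t * ee (-((0 : ℤ) : ℝ) * t) = ((‖V b R t‖ ^ 2 : ℝ) : ℂ) := by
      intro t
      rw [m2, c2, Complex.mul_conj, Complex.normSq_eq_norm_sq]
      simp [ee_zero]
    simp_rw [e2]
    rw [intervalIntegral.integral_ofReal]
    unfold ms
    push_cast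
    ring
  rw [fc_V] at e1
  have hN : (mulF b R (cjF b R)).N = 2 * R.N := by
    show R.N + R.N = 2 * R.N
    ring
  unfold cf at e1
  have h0 : (0 : ℤ) ∈ Finset.Icc (-((mulF b R (cjF b R)).N : ℤ)) (mulF b R (cjF b R)).N := by
    rw [Finset.mem_Icc]
    constructor <;> omega
  rw [if_pos h0] at e1
  have h3 : ((0 : ℤ) + ((mulF b R (cjF b R)).N : ℤ)).toNat = 2 * R.N := by
    rw [hN]
    omega
  rw [h3] at e1
  unfold Helper54.RC.Fast.cc at e1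
  have e4 := congrArg Complex.re e1
  rw [Complex.ofReal_re] at e4
  rw [← e4]
  have e5 : sqC b R = dg b (2 * R.N) (mulF b R (cjF b R)).x := rfl
  rw [e5, Complex.add_re, Complex.sub_re, Complex.natCast_re, Complex.mul_re, Complex.I_re, Complex.I_im,
    Complex.sub_im, Complex.natCast_im]
  have e6 : ((2 : ℂ) ^ b).re = 2 ^ b := by
    have : ((2 : ℂ) ^ b) = ((2 ^ b : ℝ) : ℂ) := by push_cast; rfl
    rw [this, Complex.ofReal_re]
  have e7 : ((2 : ℂ) ^ b).im = 0 := by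
    have : ((2 : ℂ) ^ b) = ((2 ^ b : ℝ) : ℂ) := by push_cast; rfl
    rw [this, Complex.ofReal_im]
  rw [e6, e7]
  ring

/-! ## The factor `Θ'` -/

/-- the polynomial `2 Q Θ'` -/
def thF (b Q : ℕ) (l : List (ℤ × ℤ)) : FP :=
  subF b (cst b (der 1 l).length (Nat.mul 2 Q)) (zD b (der 1 l))
/-- its conditions -/
def okTh (b r Q : ℕ) (l : List (ℤ × ℤ)) : Bool :=
  bif Nat.ble r (Nat.succ b) then
    bif Nat.ble 1 Q then
      bif Nat.ble (Nat.succ (Nat.mul 2 Q)) (Nat.pow 2 b) then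
        bif okD b (der 1 l) then
          bif oka b r (cst b (der 1 l).length (Nat.mul 2 Q)) (zD b (der 1 l)) then
            okC b r (thF b Q l)
          else false
        else false
      else false
    else false
  else false

theorem thF_sound (b r Q : ℕ) (l : List (ℤ × ℤ)) (h : okTh b r Q l = true) :
    r ≤ b + 1 ∧ 0 < Q ∧ wf b (thF b Q l) = true ∧ okC b r (thF b Q l) = true ∧
      ∀ t, V b (thF b Q l) t = ((2 * Q * Th' Q l t : ℝ) : ℂ) := by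
  unfold okTh at h
  rw [bif_iff, bif_iff, bif_iff, bif_iff, bif_iff] at h
  obtain ⟨h1, h2, h3, h4, h5, h6⟩ := h
  have hr : r ≤ b + 1 := Nat.le_of_ble_eq_true h1
  have hQ : 0 < Q := Nat.le_of_ble_eq_true h2
  have h3 : Nat.mul 2 Q < 2 ^ b := Nat.le_of_ble_eq_true h3
  obtain ⟨z1, z2⟩ := zD_sound b Q hQ (der 1 l) h4
  obtain ⟨c1, c2⟩ := cst_sound b (der 1 l).length (Nat.mul 2 Q) h3
  obtain ⟨d1, d2⟩ := subF_sound b r hr _ _ c1 z1 h5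
  refine ⟨hr, hQ, d1, h6, fun t => ?_⟩
  show V b (subF b _ _) t = _
  rw [d2, c2, z2]
  unfold Th'
  have : ((Nat.mul 2 Q : ℕ) : ℂ) = 2 * Q := by
    show ((2 * Q : ℕ) : ℂ) = _
    push_cast
    rfl
  rw [this]
  push_cast
  ring

/-! ## The window `|k| ≤ m1` of `V R · e^{i n t}` -/

/-- its digits -/
def trR (b m1 n : ℕ) (R : FP) : FP :=
  ⟨m1, win b (Nat.sub R.N (Nat.add m1 n)) (len m1) R.x, win b (Nat.sub R.N (Nat.add m1 n)) (len m1) R.y⟩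
/-- `R` itself if all its frequencies are in the window -/
def cutR (b m1 n : ℕ) (R : FP) : FP := bif Nat.ble (Nat.add R.N n) m1 then R else trR b m1 n R
/-- the condition -/
def okCut (m1 n : ℕ) (R : FP) : Bool :=
  bif Nat.ble (Nat.add R.N n) m1 then true else Nat.ble (Nat.add m1 n) R.N

theorem dg_win (b k n j X : ℕ) (hj : j < n) : dg b j (win b k n X) = dg b (k + j) X := by
  rw [win_eq]
  show (X / (2 ^ (b + 1)) ^ k % (2 ^ (b + 1)) ^ n) >>> ((b + 1) * j) % 2 ^ (b + 1) = X >>> ((b + 1) * (k + j)) % 2 ^ (b + 1)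
  rw [Nat.shiftRight_eq_div_pow, Nat.shiftRight_eq_div_pow, pow_mul, pow_mul]
  obtain ⟨m, rfl⟩ : ∃ m, n = j + (m + 1) := ⟨n - j - 1, by omega⟩
  rw [pow_add (2 ^ (b + 1)) j (m + 1), Nat.mod_mul_right_div_self, Nat.div_div_eq_div_mul, ← pow_add, pow_succ' _ m,
    Nat.mod_mul_right_mod]

theorem cut_sound (b m1 n : ℕ) (R : FP) (hR : wf b R = true) (h : okCut m1 n R = true) :
    wf b (cutR b m1 n R) = true ∧ ∃ W : Finset ℤ, (∀ k : ℤ, (m1 : ℤ) < |k| → k - n ∉ W) ∧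
      ms (V b (cutR b m1 n R)) = ∑ j ∈ W, ‖fc (V b R) j‖ ^ 2 := by
  unfold okCut at h
  unfold cutR
  cases h1 : Nat.ble (Nat.add R.N n) m1 with
  | true =>
    have h1 : R.N + n ≤ m1 := Nat.le_of_ble_eq_true h1
    rw [cond_true]
    refine ⟨hR, Finset.Icc (-(R.N : ℤ)) R.N, fun k hk hk2 => ?_, ms_eq_sum b R⟩
    rw [Finset.mem_Icc] at hk2
    rcases abs_cases k with ⟨h6, -⟩ | ⟨h6, -⟩ <;> omega
  | false =>
    rw [h1, cond_false] at h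
    have h : m1 + n ≤ R.N := Nat.le_of_ble_eq_true h
    rw [cond_false]
    have hw : wf b (trR b m1 n R) = true := by
      refine wf_mk b m1 _ _ ?_ ?_
      · rw [win_eq]
        exact Nat.mod_lt _ (by positivity)
      · rw [win_eq]
        exact Nat.mod_lt _ (by positivity)
    refine ⟨hw, (Finset.Icc (-(m1 : ℤ)) m1).image (fun k => k - (n : ℤ)), fun k hk hk2 => ?_, ?_⟩
    · obtain ⟨k', hk', e⟩ := Finset.mem_image.1 hk2
      rw [Finset.mem_Icc] at hk'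
      have : k' = k := by linarith
      subst this
      rcases abs_cases k' with ⟨h6, -⟩ | ⟨h6, -⟩ <;> omega
    · rw [Finset.sum_image (fun a _ c _ h => by simpa using h), ms_eq_sum]
      refine Finset.sum_congr rfl fun k hk => ?_
      have hk : k ∈ Finset.Icc (-(m1 : ℤ)) m1 := hk
      rw [Finset.mem_Icc] at hk
      rw [fc_V, fc_V]
      unfold cf
      have hN : ((trR b m1 n R).N : ℤ) = m1 := rfl
      rw [if_pos (by rw [Finset.mem_Icc, hN]; exact hk), if_pos (by rw [Finset.mem_Icc]; omega), hN]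
      congr 2
      have e1 : (k - n + R.N).toNat = (R.N - (m1 + n)) + (k + m1).toNat := by omega
      have e2 : (k + (m1 : ℤ)).toNat < len m1 := by rw [len_eq]; omega
      unfold Helper54.RC.Fast.cc
      rw [e1]
      show ((dg b _ (win b (R.N - (m1 + n)) (len m1) R.x) : ℂ) - _) + Complex.I * ((dg b _ (win b (R.N - (m1 + n)) (len m1) R.y) : ℂ) - _) = _
      rw [dg_win _ _ _ _ _ e2, dg_win _ _ _ _ _ e2]

/-! ## The kernel check -/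

/-- the product `P_n (2 Q Θ')` -/
def prR (b : ℕ) (θ : FP) (p : PF) : FP := mulF b p.z θ
/-- bound of its supremum -/
def bdB (b r s : ℕ) (θ : FP) (p : PF) : ℕ := Nat.mul (Nat.add (Nat.pow 2 s) p.er) (nrF b r θ)
/-- its error -/
def bdE (b r : ℕ) (θ : FP) (p : PF) : ℕ := Nat.mul p.er (nrF b r θ)
/-- one check, second part; `R` is the cut polynomial -/
def okT0 (b r s e n2 : ℕ) (θ : FP) (p : PF) (R : FP) : Bool :=
  bif okC b r R then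
    Nat.ble (Nat.add (Nat.mul (Nat.pow 2 (Nat.mul 2 s)) n2)
      (Nat.add (Nat.mul 2 (Nat.mul (bdB b r s θ p) (bdE b r θ p))) (Nat.pow 2 b)))
      (Nat.add (sqC b R) (Nat.add (Nat.mul e e) (Nat.mul (Nat.pow 2 (Nat.mul 2 s)) (Nat.pow 2 b))))
  else false
/-- one check -/
def okT1 (b r s e m1 n n2 : ℕ) (θ : FP) (p : PF) (R : FP) : Bool :=
  bif okm b r p.z θ then
    bif okCut m1 n R then okT0 b r s e n2 θ p (cutR b m1 n R) else false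
  else false

/-- all checks, `n` is the frequency of the first polynomial -/
def okTs (b r s e m1 n2 : ℕ) (θ : FP) : ℕ → List PF → Bool
  | _, [] => true
  | n, p :: ps =>
    bif okT1 b r s e m1 n n2 θ p (prR b θ p) then okTs b r s e m1 n2 θ (Nat.succ n) ps else false

theorem okTs_get (b r s e m1 n2 : ℕ) (θ : FP) (ps : List PF) (n : ℕ) (h : okTs b r s e m1 n2 θ n ps = true)
    (k : ℕ) (p : PF) (hp : ps[k]? = some p) : okT1 b r s e m1 (n + k) n2 θ p (prR b θ p) = true := by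
  induction ps generalizing n k with
  | nil => simp at hp
  | cons q ps ih =>
    unfold okTs at h
    rw [bif_iff] at h
    cases k with
    | zero =>
      simp only [List.getElem?_cons_zero, Option.some.injEq] at hp
      subst hp
      exact h.1
    | succ k =>
      rw [List.getElem?_cons_succ] at hp
      have := ih (Nat.succ n) h.2 k hp
      have e : Nat.succ n + k = n + (k + 1) := by omega
      rw [e] at this
      exact this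

theorem tail_one (b r s e m1 n Q : ℕ) (l : List (ℤ × ℤ)) (hθ : okTh b r Q l = true) (p : PF)
    (hp : AP b s p (fun t => ee (-((n : ℝ) * Dt Q l t))))
    (h : okT1 b r s e m1 n (sqC b (thF b Q l)) (thF b Q l) p (prR b (thF b Q l) p) = true)
    (F : Finset ℤ) (hF : ∀ k ∈ F, (m1 : ℤ) < |k|) :
    ∑ k ∈ F, ‖fc (gT (Th Q l) (Th' Q l) n) k‖ ^ 2 ≤ ((e : ℝ) / (2 ^ s * (2 * Q))) ^ 2 := by
  obtain ⟨hr, hQ, w1, w2, w3⟩ := thF_sound b r Q l hθ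
  unfold okT1 okT0 at h
  rw [bif_iff, bif_iff, bif_iff] at h
  obtain ⟨h1, h3, h2, h4⟩ := h
  have h4 : 2 ^ (2 * s) * sqC b (thF b Q l) + (2 * (bdB b r s (thF b Q l) p * bdE b r (thF b Q l) p) + 2 ^ b) ≤
      sqC b (cutR b m1 n (prR b (thF b Q l) p)) + (e * e + 2 ^ (2 * s) * 2 ^ b) := Nat.le_of_ble_eq_true h4
  set θ := thF b Q l with hθd
  obtain ⟨p1, p2⟩ := hp
  obtain ⟨m1', m2⟩ := mulF_sound b r hr p.z θ p1 w1 h1
  obtain ⟨c1, W, c2, c3⟩ := cut_sound b m1 n (prR b θ p) m1' h3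
  have hms := ms_V b r hr (cutR b m1 n (prR b θ p)) c1 h2
  have hmsθ := ms_V b r hr θ w1 w2
  set f : ℝ → ℂ := fun t => ee (-((n : ℝ) * Dt Q l t)) * (Th' Q l t : ℂ) with hf
  have hQr : (0 : ℝ) < Q := by exact_mod_cast hQ
  have hc : (0 : ℝ) < 2 ^ s * (2 * Q) := by positivity
  -- measurability and boundedness
  obtain ⟨Cθ, hCθ⟩ := bm_V b θ
  have hθn : ∀ t, ‖V b θ t‖ ≤ nrF b r θ := fun t => norm_V_le b r hr θ t
  have hcD := continuous_Dt Q l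
  have hee : BM (fun t => ee (-((n : ℝ) * Dt Q l t))) 1 :=
    ⟨continuous_ee.measurable.comp ((continuous_const.mul hcD).neg).measurable, fun t => by rw [norm_ee]⟩
  have hT' : ∀ t, (Th' Q l t : ℂ) = (1 / (2 * Q) : ℂ) * V b θ t := by
    intro t
    rw [w3]
    have : (Q : ℂ) ≠ 0 := by exact_mod_cast hQ.ne'
    push_cast
    field_simp
  have hTB : BM (fun t => (Th' Q l t : ℂ)) (‖(1 / (2 * Q) : ℂ)‖ * Cθ) := by
    simp_rw [hT']
    exact hCθ.cmul _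
  have hfB := hee.mul hTB
  have hE : ∀ t, ‖((2 ^ s * (2 * Q) : ℝ) : ℂ) * f t - V b (prR b θ p) t‖ ≤ (bdE b r θ p : ℕ) := by
    intro t
    have e1 : V b (prR b θ p) t = V b p.z t * V b θ t := m2 t
    have e2 : ((2 ^ s * (2 * Q) : ℝ) : ℂ) * f t - V b (prR b θ p) t =
        -(V b p.z t - (2 ^ s : ℂ) * ee (-((n : ℝ) * Dt Q l t))) * V b θ t := by
      rw [e1, hf]
      simp only
      rw [w3]
      push_cast
      ring
    rw [e2, norm_mul, norm_neg]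
    have e3 : bdE b r θ p = p.er * nrF b r θ := rfl
    rw [e3]
    push_cast
    exact mul_le_mul (p2 t) (hθn t) (norm_nonneg _) (Nat.cast_nonneg _)
  have hB : ∀ t, ‖V b (prR b θ p) t‖ ≤ (bdB b r s θ p : ℕ) := by
    intro t
    have e1 : V b (prR b θ p) t = V b p.z t * V b θ t := m2 t
    rw [e1, norm_mul]
    have e3 : bdB b r s θ p = (2 ^ s + p.er) * nrF b r θ := rfl
    rw [e3]
    push_cast
    refine mul_le_mul ?_ (hθn t) (norm_nonneg _) (by positivity)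
    have e4 : V b p.z t = (2 ^ s : ℂ) * ee (-((n : ℝ) * Dt Q l t)) +
        (V b p.z t - (2 ^ s : ℂ) * ee (-((n : ℝ) * Dt Q l t))) := by ring
    rw [e4]
    refine (norm_add_le _ _).trans ?_
    rw [norm_mul, norm_ee, mul_one]
    have : ‖(2 ^ s : ℂ)‖ = 2 ^ s := by simp
    rw [this]
    have := p2 t
    linarith
  -- the shifted frequencies
  have hF' : ∀ k ∈ F.image (fun k => k - (n : ℤ)), k ∉ W := by
    intro k hk
    obtain ⟨k', hk', rfl⟩ := Finset.mem_image.1 hk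
    exact c2 k' (hF k' hk')
  have key := tail_approx hfB b (prR b θ p) hc hE hB (F.image fun k => k - (n : ℤ)) W hF'
  rw [Finset.sum_image (fun a _ c _ h => by simpa using h)] at key
  have hmsf : (2 ^ s * (2 * Q) : ℝ) ^ 2 * ms f = 2 ^ (2 * s) * ms (V b θ) := by
    unfold ms
    have e1 : ∀ t, ‖V b θ t‖ ^ 2 = (2 * Q : ℝ) ^ 2 * ‖f t‖ ^ 2 := by
      intro t
      rw [hf, w3]
      simp only
      rw [norm_mul, norm_ee, one_mul, Complex.norm_real, Complex.norm_real, norm_mul, mul_pow]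
      have : ‖(2 * Q : ℝ)‖ = 2 * Q := by rw [Real.norm_eq_abs, abs_of_pos (by positivity)]
      rw [this]
    simp_rw [e1]
    rw [intervalIntegral.integral_const_mul]
    ring
  have hfc : ∀ k, fc (gT (Th Q l) (Th' Q l) n) k = fc f (k - n) := by
    intro k
    rw [← Helper87.RC.fc_ee f n k]
    congr 1
    funext x
    simp only [gT, hf, Th]
    rw [← mul_assoc, ← ee_add, mul_comm]
    congr 2
    push_cast
    ring
  simp_rw [hfc]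
  rw [hmsf, ← c3, hms, hmsθ] at key
  have h5 : (2 : ℝ) ^ (2 * s) * sqC b θ + (2 * (bdB b r s θ p * bdE b r θ p) + 2 ^ b) ≤
      sqC b (cutR b m1 n (prR b θ p)) + (e * e + 2 ^ (2 * s) * 2 ^ b) := by exact_mod_cast h4
  rw [div_pow, le_div_iff₀ (by positivity), mul_comm]
  calc (2 ^ s * (2 * Q) : ℝ) ^ 2 * ∑ k ∈ F, ‖fc f (k - n)‖ ^ 2
      ≤ 2 ^ (2 * s) * ((sqC b θ : ℝ) - 2 ^ b) - ((sqC b (cutR b m1 n (prR b θ p)) : ℝ) - 2 ^ b) +
        2 * ((bdB b r s θ p : ℕ) * (bdE b r θ p : ℕ)) := key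
    _ ≤ (e : ℝ) ^ 2 := by
        have e9 : (e : ℝ) ^ 2 = e * e := sq _
        rw [e9]
        linarith

/-! ## `TB` from the kernel check -/

theorem len_der (k : ℕ) (l : List (ℤ × ℤ)) : (der k l).length = l.length := by
  induction l generalizing k with
  | nil => rfl
  | cons c l ih =>
    show (der (k + 1) l).length + 1 = l.length + 1
    rw [ih]

/-- the whole check for the table `ps` of `e^{-i m D}`, `m = 1, 2, ..` -/
def okTB (b r s e m1 Q : ℕ) (l : List (ℤ × ℤ)) (ps : List PF) : Bool :=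
  bif okTh b r Q l then
    bif Nat.ble l.length m1 then okTs b r s e m1 (sqC b (thF b Q l)) (thF b Q l) 1 ps else false
  else false

theorem TB_of (b r s e m1 Q K : ℕ) (l : List (ℤ × ℤ)) (ps : List PF) (hK : K ≤ ps.length)
    (hps : ∀ (k : ℕ) (p : PF), ps[k]? = some p → AP b s p (fun t => ee (-(((1 + k : ℕ) : ℝ) * Dt Q l t))))
    (h : okTB b r s e m1 Q l ps = true) : TB (Th Q l) (Th' Q l) K m1 ((e : ℝ) / (2 ^ s * (2 * Q))) := by
  unfold okTB at h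
  rw [bif_iff, bif_iff] at h
  obtain ⟨h1, h2, h3⟩ := h
  have h2 : l.length ≤ m1 := Nat.le_of_ble_eq_true h2
  obtain ⟨hr, hQ, w1, w2, w3⟩ := thF_sound b r Q l h1
  refine TB_of_nonneg fun n hn F hF => ?_
  rcases Nat.eq_zero_or_pos n with rfl | hn0
  · -- `n = 0`: a polynomial of the window `l.length`
    have e0 : ∀ k ∈ F, ‖fc (gT (Th Q l) (Th' Q l) ((0 : ℕ) : ℤ)) k‖ ^ 2 = 0 := by
      intro k hk
      have hQc : (2 * (Q : ℂ)) ≠ 0 := by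
        have : (Q : ℂ) ≠ 0 := by exact_mod_cast hQ.ne'
        simpa using this
      have e1 : gT (Th Q l) (Th' Q l) ((0 : ℕ) : ℤ) = fun t => (1 / (2 * Q) : ℂ) * V b (thF b Q l) t := by
        funext t
        rw [w3]
        unfold gT
        have hQ1 : (Q : ℂ) ≠ 0 := by exact_mod_cast hQ.ne'
        push_cast
        rw [zero_mul, ee_zero]
        field_simp
      rw [e1, fc_cmul, fc_V]
      unfold cf
      have hN : (thF b Q l).N = l.length := by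
        show (der 1 l).length = l.length
        exact len_der 1 l
      rw [if_neg ?_, mul_zero, norm_zero]
      · norm_num
      · rw [Finset.mem_Icc, hN]
        have := hF k hk
        rcases abs_cases k with ⟨h6, -⟩ | ⟨h6, -⟩ <;> omega
    rw [Finset.sum_eq_zero e0]
    positivity
  · obtain ⟨k, rfl⟩ : ∃ k, n = 1 + k := ⟨n - 1, by omega⟩
    have hk : k < ps.length := by omega
    have e1 : ps[k]? = some ps[k] := List.getElem?_eq_getElem hk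
    have h4 := okTs_get b r s e m1 _ _ ps 1 h3 k ps[k] e1
    exact tail_one b r s e m1 (1 + k) Q l h1 ps[k] (hps k _ e1) h4 F hF

/-! ## Minkowski -/

theorem mink {ι κ : Type*} (S : Finset ι) (I : Finset κ) (w : κ → ℝ) (G : κ → ι → ℝ) {R : ℝ}
    (hw : ∀ n ∈ I, 0 ≤ w n) (hG : ∀ n ∈ I, ∑ k ∈ S, G n k ^ 2 ≤ R) :
    ∑ k ∈ S, (∑ n ∈ I, w n * G n k) ^ 2 ≤ R * (∑ n ∈ I, w n) ^ 2 := by
  have h1 : ∀ k ∈ S, (∑ n ∈ I, w n * G n k) ^ 2 ≤ (∑ n ∈ I, w n) * ∑ n ∈ I, w n * G n k ^ 2 := by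
    intro k _
    have h := Finset.sum_mul_sq_le_sq_mul_sq I (fun n => Real.sqrt (w n)) (fun n => Real.sqrt (w n) * G n k)
    have e1 : ∑ n ∈ I, Real.sqrt (w n) * (Real.sqrt (w n) * G n k) = ∑ n ∈ I, w n * G n k :=
      Finset.sum_congr rfl fun n hn => by rw [← mul_assoc, Real.mul_self_sqrt (hw n hn)]
    have e2 : ∑ n ∈ I, Real.sqrt (w n) ^ 2 = ∑ n ∈ I, w n :=
      Finset.sum_congr rfl fun n hn => Real.sq_sqrt (hw n hn)
    have e3 : ∑ n ∈ I, (Real.sqrt (w n) * G n k) ^ 2 = ∑ n ∈ I, w n * G n k ^ 2 :=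
      Finset.sum_congr rfl fun n hn => by rw [mul_pow, Real.sq_sqrt (hw n hn)]
    rw [e1, e2, e3] at h
    exact h
  have hW : 0 ≤ ∑ n ∈ I, w n := Finset.sum_nonneg hw
  calc ∑ k ∈ S, (∑ n ∈ I, w n * G n k) ^ 2 ≤ ∑ k ∈ S, (∑ n ∈ I, w n) * ∑ n ∈ I, w n * G n k ^ 2 :=
        Finset.sum_le_sum h1
    _ = (∑ n ∈ I, w n) * ∑ n ∈ I, w n * ∑ k ∈ S, G n k ^ 2 := by
        rw [← Finset.mul_sum, Finset.sum_comm]
        congr 1
        exact Finset.sum_congr rfl fun n _ => by rw [Finset.mul_sum]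
    _ ≤ (∑ n ∈ I, w n) * ∑ n ∈ I, w n * R := by
        refine mul_le_mul_of_nonneg_left (Finset.sum_le_sum fun n hn => ?_) hW
        exact mul_le_mul_of_nonneg_left (hG n hn) (hw n hn)
    _ = R * (∑ n ∈ I, w n) ^ 2 := by
        rw [← Finset.sum_mul]
        ring

theorem mink2 {ι : Type*} (S : Finset ι) (x y : ι → ℝ) {X Y : ℝ} (hX : 0 ≤ X) (hY : 0 ≤ Y)
    (h1 : ∑ k ∈ S, x k ^ 2 ≤ X ^ 2) (h2 : ∑ k ∈ S, y k ^ 2 ≤ Y ^ 2) : ∑ k ∈ S, (x k + y k) ^ 2 ≤ (X + Y) ^ 2 := by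
  have h3 := sum_mul_le S x y hX hY h1 h2
  have e : ∑ k ∈ S, (x k + y k) ^ 2 = ∑ k ∈ S, x k ^ 2 + 2 * ∑ k ∈ S, x k * y k + ∑ k ∈ S, y k ^ 2 := by
    rw [Finset.mul_sum, ← Finset.sum_add_distrib, ← Finset.sum_add_distrib]
    exact Finset.sum_congr rfl fun k _ => by ring
  rw [e]
  nlinarith

/-! ## The rows -/

/-- the weighted contribution of the mode `n` to the row `l = 2 k + 2` -/
noncomputable def Gr (Θ Θ' : ℝ → ℝ) (n : ℤ) (k : ℕ) : ℝ :=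
  Real.sqrt (lk k ^ 2 - 1) * ((‖Rn Θ Θ' n (2 * k + 3)‖ + ‖Rn Θ Θ' n (-(2 * k + 1))‖) / 2)

theorem Gr_sq (h : IA Θ Θ') (n : ℤ) (k : ℕ) :
    Gr Θ Θ' n k ^ 2 ≤ ‖fc (gT Θ Θ' n) (2 * k + 3)‖ ^ 2 + ‖fc (gT Θ Θ' n) (-(2 * k + 1))‖ ^ 2 := by
  have hk : (0 : ℝ) ≤ k := Nat.cast_nonneg k
  have e1 : ‖Rn Θ Θ' n (2 * k + 3)‖ = ‖fc (gT Θ Θ' n) (2 * k + 3)‖ / (2 * k + 3) := by
    rw [Rn_gT h n (by omega), norm_div]
    congr 1
    have : (((2 * (k : ℤ) + 3 : ℤ)) : ℂ) = ((2 * k + 3 : ℝ) : ℂ) := by push_cast; ring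
    rw [this, Complex.norm_real, Real.norm_eq_abs, abs_of_pos (by positivity)]
  have e2 : ‖Rn Θ Θ' n (-(2 * k + 1))‖ = ‖fc (gT Θ Θ' n) (-(2 * k + 1))‖ / (2 * k + 1) := by
    rw [Rn_gT h n (by omega), norm_div]
    congr 1
    have : (((-(2 * (k : ℤ) + 1) : ℤ)) : ℂ) = ((-(2 * k + 1) : ℝ) : ℂ) := by push_cast; ring
    rw [this, Complex.norm_real, Real.norm_eq_abs, abs_neg, abs_of_pos (by positivity)]
  unfold Gr
  rw [e1, e2, mul_pow, Real.sq_sqrt (lk_sq k).le]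
  set x := ‖fc (gT Θ Θ' n) (2 * k + 3)‖
  set y := ‖fc (gT Θ Θ' n) (-(2 * k + 1))‖
  have e3 : lk k ^ 2 - 1 = (2 * k + 3) * (2 * k + 1) := by
    unfold lk
    ring
  rw [e3]
  have h3 : (0 : ℝ) < 2 * k + 3 := by positivity
  have h1 : (0 : ℝ) < 2 * k + 1 := by positivity
  have e4 : (2 * (k : ℝ) + 3) * (2 * k + 1) * ((x / (2 * k + 3) + y / (2 * k + 1)) / 2) ^ 2 =
      (x * (2 * k + 1) + y * (2 * k + 3)) ^ 2 / (4 * ((2 * k + 3) * (2 * k + 1))) := by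
    field_simp
    ring
  rw [e4, div_le_iff₀ (by positivity)]
  nlinarith [sq_nonneg (x * (2 * (k : ℝ) + 3) - y * (2 * k + 1)), sq_nonneg x, sq_nonneg y, mul_nonneg hk hk,
    mul_nonneg hk (sq_nonneg x), mul_nonneg hk (sq_nonneg y), mul_nonneg (mul_nonneg hk hk) (sq_nonneg x),
    mul_nonneg (mul_nonneg hk hk) (sq_nonneg y)]

theorem Gr_nonneg (n : ℤ) (k : ℕ) : 0 ≤ Gr Θ Θ' n k := by
  unfold Gr
  positivity

theorem row_le (M : ℕ) (a : ℤ → ℂ) (k : ℕ) :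
    Real.sqrt (lk k ^ 2 - 1) * ‖wF Θ Θ' M a (2 * k + 2)‖ ≤
      ∑ n ∈ Finset.Icc (-(M : ℤ)) M, ‖a n‖ * Gr Θ Θ' n k := by
  have h1 : ‖wF Θ Θ' M a (2 * k + 2)‖ ≤ ∑ n ∈ Finset.Icc (-(M : ℤ)) M,
      ‖a n‖ * ((‖Rn Θ Θ' n (2 * k + 3)‖ + ‖Rn Θ Θ' n (-(2 * k + 1))‖) / 2) := by
    unfold wF
    rw [norm_mul]
    have e1 : ‖(-(1 / 2) : ℂ)‖ = 1 / 2 := by norm_num
    rw [e1]
    refine (mul_le_mul_of_nonneg_left (norm_sum_le _ _) (by norm_num)).trans ?_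
    rw [Finset.mul_sum]
    refine Finset.sum_le_sum fun n _ => ?_
    have e2 : (2 * (k : ℤ) + 2 + 1) = 2 * k + 3 := by ring
    have e3 : (1 - (2 * (k : ℤ) + 2)) = -(2 * k + 1) := by ring
    rw [e2, e3]
    have := norm_add_le (a n * Rn Θ Θ' n (2 * k + 3)) ((starRingEnd ℂ) (a n * Rn Θ Θ' n (-(2 * k + 1))))
    rw [Complex.norm_conj, norm_mul, norm_mul] at this
    calc 1 / 2 * ‖a n * Rn Θ Θ' n (2 * k + 3) + (starRingEnd ℂ) (a n * Rn Θ Θ' n (-(2 * k + 1)))‖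
        ≤ 1 / 2 * (‖a n‖ * ‖Rn Θ Θ' n (2 * k + 3)‖ + ‖a n‖ * ‖Rn Θ Θ' n (-(2 * k + 1))‖) :=
          mul_le_mul_of_nonneg_left this (by norm_num)
      _ = _ := by ring
  refine (mul_le_mul_of_nonneg_left h1 (Real.sqrt_nonneg _)).trans (le_of_eq ?_)
  rw [Finset.mul_sum]
  refine Finset.sum_congr rfl fun n _ => ?_
  unfold Gr
  ring

theorem Gr_sum (h : IA Θ Θ') {K m1 : ℕ} {ε : ℝ} (hT : TB Θ Θ' K m1 ε) {n : ℤ} (hn : |n| ≤ K) (S : Finset ℕ)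
    (hS : ∀ k ∈ S, m1 < 2 * k + 1) : ∑ k ∈ S, Gr Θ Θ' n k ^ 2 ≤ ε ^ 2 := by
  classical
  have h1 : ∑ k ∈ S, Gr Θ Θ' n k ^ 2 ≤
      ∑ k ∈ S, (‖fc (gT Θ Θ' n) (2 * k + 3)‖ ^ 2 + ‖fc (gT Θ Θ' n) (-(2 * k + 1))‖ ^ 2) :=
    Finset.sum_le_sum fun k _ => Gr_sq h n k
  refine h1.trans ?_
  rw [Finset.sum_add_distrib]
  have e1 : ∑ k ∈ S, ‖fc (gT Θ Θ' n) (2 * k + 3)‖ ^ 2 =
      ∑ j ∈ S.image (fun k : ℕ => (2 * (k : ℤ) + 3)), ‖fc (gT Θ Θ' n) j‖ ^ 2 := by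
    rw [Finset.sum_image]
    intro a _ c _ h
    simpa using h
  have e2 : ∑ k ∈ S, ‖fc (gT Θ Θ' n) (-(2 * k + 1))‖ ^ 2 =
      ∑ j ∈ S.image (fun k : ℕ => (-(2 * (k : ℤ) + 1))), ‖fc (gT Θ Θ' n) j‖ ^ 2 := by
    rw [Finset.sum_image]
    intro a _ c _ h
    have h' : -(2 * (a : ℤ) + 1) = -(2 * (c : ℤ) + 1) := h
    omega
  have hdis : Disjoint (S.image (fun k : ℕ => (2 * (k : ℤ) + 3))) (S.image (fun k : ℕ => (-(2 * (k : ℤ) + 1)))) := by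
    rw [Finset.disjoint_left]
    intro j hj hj2
    obtain ⟨x, _, hx⟩ := Finset.mem_image.1 hj
    obtain ⟨y, _, hy⟩ := Finset.mem_image.1 hj2
    omega
  rw [e1, e2, ← Finset.sum_union hdis]
  refine hT n hn _ fun j hj => ?_
  rcases Finset.mem_union.1 hj with hj | hj
  · obtain ⟨x, hx, rfl⟩ := Finset.mem_image.1 hj
    have := hS x hx
    rw [abs_of_nonneg (by positivity)]
    omega
  · obtain ⟨x, hx, rfl⟩ := Finset.mem_image.1 hj
    have := hS x hx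
    rw [abs_neg, abs_of_nonneg (by positivity)]
    omega

/-- **the rows `l = 2 k + 2 > m1 + 1` of one family** -/
theorem rows_tail (h : IA Θ Θ') {K m1 : ℕ} (M : ℕ) {ε : ℝ} (hT : TB Θ Θ' K m1 ε) (a : ℤ → ℂ)
    (ha : ∀ n, n ∉ Finset.Icc (-(K : ℤ)) K → a n = 0) (S : Finset ℕ) (hS : ∀ k ∈ S, m1 < 2 * k + 1) :
    ∑ k ∈ S, (lk k ^ 2 - 1) * ‖wF Θ Θ' M a (2 * k + 2)‖ ^ 2 ≤
      (ε * ∑ n ∈ Finset.Icc (-(K : ℤ)) K, ‖a n‖) ^ 2 := by
  classical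
  set I := Finset.Icc (-(K : ℤ)) K with hI
  have h1 : ∀ k ∈ S, (lk k ^ 2 - 1) * ‖wF Θ Θ' M a (2 * k + 2)‖ ^ 2 ≤ (∑ n ∈ I, ‖a n‖ * Gr Θ Θ' n k) ^ 2 := by
    intro k _
    have h2 := row_le (Θ := Θ) (Θ' := Θ') M a k
    have h3 : ∑ n ∈ Finset.Icc (-(M : ℤ)) M, ‖a n‖ * Gr Θ Θ' n k ≤ ∑ n ∈ I, ‖a n‖ * Gr Θ Θ' n k := by
      have e : ∑ n ∈ Finset.Icc (-(M : ℤ)) M, ‖a n‖ * Gr Θ Θ' n k =
          ∑ n ∈ (Finset.Icc (-(M : ℤ)) M).filter (fun n => n ∈ I), ‖a n‖ * Gr Θ Θ' n k := by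
        rw [Finset.sum_filter]
        refine Finset.sum_congr rfl fun n _ => ?_
        by_cases hn : n ∈ I
        · rw [if_pos hn]
        · rw [if_neg hn, ha n hn, norm_zero, zero_mul]
      rw [e]
      refine Finset.sum_le_sum_of_subset_of_nonneg (fun n hn => (Finset.mem_filter.1 hn).2) fun n _ _ => ?_
      exact mul_nonneg (norm_nonneg _) (Gr_nonneg n k)
    have h4 := h2.trans h3
    have h5 := pow_le_pow_left₀ (by positivity) h4 2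
    rw [mul_pow, Real.sq_sqrt (lk_sq k).le] at h5
    exact h5
  refine (Finset.sum_le_sum h1).trans ?_
  have h2 := mink S I (fun n => ‖a n‖) (fun n k => Gr Θ Θ' n k) (R := ε ^ 2) (fun n _ => norm_nonneg _) (by
    intro n hn
    refine Gr_sum h hT ?_ S hS
    rw [hI, Finset.mem_Icc] at hn
    exact abs_le.2 hn)
  rw [mul_pow]
  exact h2

/-- **the rows of two families** -/
theorem rows_tail2 {Θ1 Θ1' Θ2 Θ2' : ℝ → ℝ} (h1 : IA Θ1 Θ1') (h2 : IA Θ2 Θ2') {K m1 : ℕ} (M : ℕ) {ε1 ε2 : ℝ}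
    (e1 : 0 ≤ ε1) (e2 : 0 ≤ ε2) (hT1 : TB Θ1 Θ1' K m1 ε1) (hT2 : TB Θ2 Θ2' K m1 ε2) (a1 a2 : ℤ → ℂ)
    (ha1 : ∀ n, n ∉ Finset.Icc (-(K : ℤ)) K → a1 n = 0) (ha2 : ∀ n, n ∉ Finset.Icc (-(K : ℤ)) K → a2 n = 0)
    (S : Finset ℕ) (hS : ∀ k ∈ S, m1 < 2 * k + 1) :
    ∑ k ∈ S, (lk k ^ 2 - 1) * ‖wF Θ1 Θ1' M a1 (2 * k + 2) + wF Θ2 Θ2' M a2 (2 * k + 2)‖ ^ 2 ≤
      (ε1 * ∑ n ∈ Finset.Icc (-(K : ℤ)) K, ‖a1 n‖ + ε2 * ∑ n ∈ Finset.Icc (-(K : ℤ)) K, ‖a2 n‖) ^ 2 := by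
  have k1 := rows_tail h1 M hT1 a1 ha1 S hS
  have k2 := rows_tail h2 M hT2 a2 ha2 S hS
  have e : ∀ (k : ℕ) (w : ℂ), (lk k ^ 2 - 1) * ‖w‖ ^ 2 = (Real.sqrt (lk k ^ 2 - 1) * ‖w‖) ^ 2 := fun k w => by
    rw [mul_pow, Real.sq_sqrt (lk_sq k).le]
  simp_rw [e] at k1 k2 ⊢
  refine le_trans (Finset.sum_le_sum fun k _ => ?_) (mink2 S _ _ (by positivity) (by positivity) k1 k2)
  refine pow_le_pow_left₀ (by positivity) ?_ 2
  rw [← mul_add]
  exact mul_le_mul_of_nonneg_left (norm_add_le _ _) (Real.sqrt_nonneg _)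

/-- the sum of all rows from `k1` on -/
theorem rows_tsum {Θ1 Θ1' Θ2 Θ2' : ℝ → ℝ} (h1 : IA Θ1 Θ1') (h2 : IA Θ2 Θ2') {K m1 : ℕ} (M : ℕ) {ε1 ε2 : ℝ}
    (e1 : 0 ≤ ε1) (e2 : 0 ≤ ε2) (hT1 : TB Θ1 Θ1' K m1 ε1) (hT2 : TB Θ2 Θ2' K m1 ε2) (a1 a2 : ℤ → ℂ)
    (ha1 : ∀ n, n ∉ Finset.Icc (-(K : ℤ)) K → a1 n = 0) (ha2 : ∀ n, n ∉ Finset.Icc (-(K : ℤ)) K → a2 n = 0)
    (k1 : ℕ) (hk : m1 < 2 * k1 + 1) :
    Summable (fun k : ℕ => (lk k ^ 2 - 1) * ‖wF Θ1 Θ1' M a1 (2 * k + 2) + wF Θ2 Θ2' M a2 (2 * k + 2)‖ ^ 2) ∧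
    ∑' k : ℕ, (lk (k + k1) ^ 2 - 1) *
        ‖wF Θ1 Θ1' M a1 (2 * (k + k1 : ℕ) + 2) + wF Θ2 Θ2' M a2 (2 * (k + k1 : ℕ) + 2)‖ ^ 2 ≤
      (ε1 * ∑ n ∈ Finset.Icc (-(K : ℤ)) K, ‖a1 n‖ + ε2 * ∑ n ∈ Finset.Icc (-(K : ℤ)) K, ‖a2 n‖) ^ 2 := by
  set f : ℕ → ℝ := fun k : ℕ => (lk k ^ 2 - 1) * ‖wF Θ1 Θ1' M a1 (2 * k + 2) + wF Θ2 Θ2' M a2 (2 * k + 2)‖ ^ 2 with hf
  have f0 : ∀ k, 0 ≤ f k := fun k => mul_nonneg (lk_sq k).le (by positivity)
  have hb : ∀ s : Finset ℕ, ∑ k ∈ s, f (k + k1) ≤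
      (ε1 * ∑ n ∈ Finset.Icc (-(K : ℤ)) K, ‖a1 n‖ + ε2 * ∑ n ∈ Finset.Icc (-(K : ℤ)) K, ‖a2 n‖) ^ 2 := by
    intro s
    have := rows_tail2 h1 h2 M e1 e2 hT1 hT2 a1 a2 ha1 ha2 (s.image fun k => k + k1) (by
      intro k hk'
      obtain ⟨x, _, rfl⟩ := Finset.mem_image.1 hk'
      omega)
    rw [Finset.sum_image (fun a _ c _ h => by simpa using h)] at this
    exact this
  have hs : Summable fun k => f (k + k1) := summable_of_sum_le (fun k => f0 _) hb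
  refine ⟨(summable_nat_add_iff k1).1 hs, ?_⟩
  exact hs.tsum_le_of_sum_le hb

end Helper76.SH
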