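import Pool.Agent.Helper76.SH.PT
import Pool.Agent.Helper95.SH.Cell

/-!
# The Parseval tail of the rows of `D2` in terms of the mass and of the coordinates

`PT_mass`: the rows `l = 2 k + 2`, `k ≥ k1`, of head arrays are at most `9 (2 N + 7) (ε1 + ε2)² mass`.
`mass_le`: the mass of the coordinates is at most `49/8 ∑ v_i²`.
`PT_coord`: both.
-/

set_option autoImplicit false

open MeasureTheory Set Filter Topology

namespace Helper76.SH

open Helper49.LT hiding sg cf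
open Helper95.RC
open Helper95.SH
open Helper49.Sharp
open Helper30.SH (G1A_sq G2A_sq nq mass nq_nonneg)
open Helper41.SH (IA inv trp)
open Pool.Agent.Helper20.RC (lk lk_ge lk_sq)

theorem norm_C1 (P : Par) (p r s : ℤ → ℂ) (m : ℤ) : ‖C1 P p r s m‖ = ‖G1A P p r s (m - 1)‖ := by
  unfold C1 c1 G1A
  rw [norm_mul, norm_ee, one_mul]

theorem norm_C2 (P : Par) (p r s : ℤ → ℂ) (m : ℤ) : ‖C2 P p r s m‖ = ‖G2A P p r s (m - 1)‖ := by
  unfold C2 c2 G2A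
  rw [norm_mul, norm_ee, one_mul]

theorem mass_pos (N : ℕ) (p r s : ℤ → ℂ) : 0 ≤ mass N p r s := by
  have h1 := nq_nonneg N p
  have h2 := nq_nonneg N r
  have h3 := nq_nonneg N s
  unfold mass
  positivity

theorem sum_C1 {P : Par} (hr : P.Reg) {N : ℕ} {p r s : ℤ → ℂ} (hp : Sup N p) (hq : Sup N r) (hs : Sup N s) (M : ℕ) :
    (∑ n ∈ Finset.Icc (-(M : ℤ)) M, ‖C1 P p r s n‖) ^ 2 ≤ (2 * M + 1) * (9 * mass N p r s) := by
  have h1 := Finset.sum_mul_sq_le_sq_mul_sq (Finset.Icc (-(M : ℤ)) M) (fun _ => (1 : ℝ)) (fun n => ‖C1 P p r s n‖)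
  simp only [one_mul, one_pow, Finset.sum_const, nsmul_eq_mul, mul_one] at h1
  have h2 : ((Finset.Icc (-(M : ℤ)) M).card : ℝ) = 2 * M + 1 := by
    rw [Int.card_Icc]
    have : ((M : ℤ) + 1 - -(M : ℤ)).toNat = 2 * M + 1 := by omega
    rw [this]
    push_cast
    ring
  rw [h2] at h1
  refine h1.trans (mul_le_mul_of_nonneg_left ?_ (by positivity))
  simp_rw [norm_C1]
  have h3 := G1A_sq hr hp hq hs ((Finset.Icc (-(M : ℤ)) M).image fun m => m - 1)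
  rw [Finset.sum_image (fun a _ c _ h => by simpa using h)] at h3
  exact h3

theorem sum_C2 {P : Par} (hr : P.Reg) {N : ℕ} {p r s : ℤ → ℂ} (hp : Sup N p) (hq : Sup N r) (hs : Sup N s) (M : ℕ) :
    (∑ n ∈ Finset.Icc (-(M : ℤ)) M, ‖C2 P p r s n‖) ^ 2 ≤ (2 * M + 1) * (9 * mass N p r s) := by
  have h1 := Finset.sum_mul_sq_le_sq_mul_sq (Finset.Icc (-(M : ℤ)) M) (fun _ => (1 : ℝ)) (fun n => ‖C2 P p r s n‖)
  simp only [one_mul, one_pow, Finset.sum_const, nsmul_eq_mul, mul_one] at h1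
  have h2 : ((Finset.Icc (-(M : ℤ)) M).card : ℝ) = 2 * M + 1 := by
    rw [Int.card_Icc]
    have : ((M : ℤ) + 1 - -(M : ℤ)).toNat = 2 * M + 1 := by omega
    rw [this]
    push_cast
    ring
  rw [h2] at h1
  refine h1.trans (mul_le_mul_of_nonneg_left ?_ (by positivity))
  simp_rw [norm_C2]
  have h3 := G2A_sq hr hp hq hs ((Finset.Icc (-(M : ℤ)) M).image fun m => m - 1)
  rw [Finset.sum_image (fun a _ c _ h => by simpa using h)] at h3
  exact h3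

/-- **the rows `k ≥ k1` of `D2` for head arrays** -/
theorem PT_mass {P : Par} (hr : P.Reg) {Θ1 Θ1' Θ2 Θ2' : ℝ → ℝ} (h1 : IA Θ1 Θ1') (h2 : IA Θ2 Θ2') {N m1 : ℕ}
    (M : ℕ) {ε1 ε2 : ℝ} (e1 : 0 ≤ ε1) (e2 : 0 ≤ ε2) (hT1 : TB Θ1 Θ1' (N + 3) m1 ε1) (hT2 : TB Θ2 Θ2' (N + 3) m1 ε2)
    {p r s : ℤ → ℂ} (hp : Sup N p) (hq : Sup N r) (hs : Sup N s) (k1 : ℕ) (hk : m1 < 2 * k1 + 1) :
    Summable (fun k : ℕ => (lk k ^ 2 - 1) * ‖WA P Θ1 Θ1' Θ2 Θ2' M p r s (2 * k + 2)‖ ^ 2) ∧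
    ∑' k : ℕ, (lk (k + k1) ^ 2 - 1) * ‖WA P Θ1 Θ1' Θ2 Θ2' M p r s (2 * (k + k1 : ℕ) + 2)‖ ^ 2 ≤
      9 * (2 * N + 7) * (ε1 + ε2) ^ 2 * mass N p r s := by
  have key := rows_tsum h1 h2 (M + 3) e1 e2 hT1 hT2 (C1 P p r s) (C2 P p r s) (C1_sup P N hp hq hs)
    (C2_sup P N hp hq hs) k1 hk
  refine ⟨key.1, key.2.trans ?_⟩
  have s1 := sum_C1 hr hp hq hs (N + 3)
  have s2 := sum_C2 hr hp hq hs (N + 3)
  have m0 := mass_pos N p r s
  set A := ∑ n ∈ Finset.Icc (-((N + 3 : ℕ) : ℤ)) ((N + 3 : ℕ) : ℤ), ‖C1 P p r s n‖ with hA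
  set B := ∑ n ∈ Finset.Icc (-((N + 3 : ℕ) : ℤ)) ((N + 3 : ℕ) : ℤ), ‖C2 P p r s n‖ with hB
  have hA0 : 0 ≤ A := Finset.sum_nonneg fun n _ => norm_nonneg _
  have hB0 : 0 ≤ B := Finset.sum_nonneg fun n _ => norm_nonneg _
  set X : ℝ := (2 * ((N + 3 : ℕ) : ℝ) + 1) * (9 * mass N p r s) with hX
  have hX0 : 0 ≤ X := by positivity
  have a1 : A ≤ Real.sqrt X := Real.le_sqrt_of_sq_le s1
  have a2 : B ≤ Real.sqrt X := Real.le_sqrt_of_sq_le s2
  have a3 : ε1 * A + ε2 * B ≤ (ε1 + ε2) * Real.sqrt X := by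
    rw [add_mul]
    exact add_le_add (mul_le_mul_of_nonneg_left a1 e1) (mul_le_mul_of_nonneg_left a2 e2)
  have a4 := pow_le_pow_left₀ (by positivity) a3 2
  rw [mul_pow, Real.sq_sqrt hX0] at a4
  refine a4.trans (le_of_eq ?_)
  rw [hX]
  push_cast
  ring

/-! ## The mass of the coordinates -/

theorem two_inj {ι : Type*} (I : Finset ι) (f g : ι → ℕ) (T : Finset ℕ) (hf : Set.InjOn f I) (hg : Set.InjOn g I)
    (hd : ∀ a ∈ I, ∀ b ∈ I, f a ≠ g b) (hfT : ∀ a ∈ I, f a ∈ T) (hgT : ∀ a ∈ I, g a ∈ T) (w : ℕ → ℝ)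
    (hw : ∀ i, 0 ≤ w i) : ∑ a ∈ I, (w (f a) + w (g a)) ≤ ∑ i ∈ T, w i := by
  classical
  rw [Finset.sum_add_distrib, ← Finset.sum_image hf, ← Finset.sum_image hg, ← Finset.sum_union]
  · refine Finset.sum_le_sum_of_subset_of_nonneg ?_ fun i _ _ => hw i
    intro i hi
    rcases Finset.mem_union.1 hi with h | h
    · obtain ⟨a, ha, rfl⟩ := Finset.mem_image.1 h
      exact hfT a ha
    · obtain ⟨a, ha, rfl⟩ := Finset.mem_image.1 h
      exact hgT a ha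
  · rw [Finset.disjoint_left]
    intro i h1 h2
    obtain ⟨a, ha, rfl⟩ := Finset.mem_image.1 h1
    obtain ⟨c, hc, e⟩ := Finset.mem_image.1 h2
    exact hd a ha c hc e.symm

theorem nsq_re_im (x y : ℝ) : ‖(x : ℂ) + Complex.I * (y : ℂ)‖ ^ 2 = x ^ 2 + y ^ 2 := by
  rw [← Complex.normSq_eq_norm_sq, Complex.normSq_apply]
  simp
  ring

theorem nq_sV (K N : ℕ) (v : ℕ → ℝ) : nq N (sV K v) ≤ ∑ i ∈ Finset.Ico 1 (bp K), v i ^ 2 := by
  classical
  unfold nq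
  set I := (Finset.Icc (-(N : ℤ)) N).filter (fun n => ¬ (Even n ∨ n ∉ Finset.Icc (-(K : ℤ)) K)) with hI
  have e : ∑ n ∈ Finset.Icc (-(N : ℤ)) N, ‖sV K v n‖ ^ 2 =
      ∑ n ∈ I, (v (1 + (n + K).toNat) ^ 2 + v (2 + (n + K).toNat) ^ 2) := by
    rw [hI, Finset.sum_filter]
    refine Finset.sum_congr rfl fun n _ => ?_
    unfold sV
    by_cases h : Even n ∨ n ∉ Finset.Icc (-(K : ℤ)) K
    · rw [if_pos h, if_neg (not_not.2 h), norm_zero]
      norm_num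
    · rw [if_neg h, if_pos h, nsq_re_im]
  have hm : ∀ n ∈ I, ¬ Even n ∧ -(K : ℤ) ≤ n ∧ n ≤ K := by
    intro n hn
    have h := (Finset.mem_filter.1 hn).2
    push Not at h
    exact ⟨h.1, Finset.mem_Icc.1 h.2⟩
  rw [e]
  refine two_inj I (fun n => 1 + (n + K).toNat) (fun n => 2 + (n + K).toNat) _ ?_ ?_ ?_ ?_ ?_ (fun i => v i ^ 2)
    (fun i => by positivity)
  · intro a ha c hc h
    have h1 := hm a ha
    have h2 := hm c hc
    have h3 : 1 + (a + K).toNat = 1 + (c + K).toNat := h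
    omega
  · intro a ha c hc h
    have h1 := hm a ha
    have h2 := hm c hc
    have h3 : 2 + (a + K).toNat = 2 + (c + K).toNat := h
    omega
  · intro a ha c hc h
    obtain ⟨h1, h1', h1''⟩ := hm a ha
    obtain ⟨h2, h2', h2''⟩ := hm c hc
    rw [Int.not_even_iff_odd] at h1 h2
    obtain ⟨x, hx⟩ := h1
    obtain ⟨y, hy⟩ := h2
    have h3 : 1 + (a + K).toNat = 2 + (c + K).toNat := h
    omega
  · intro a ha
    have h1 := hm a ha
    rw [Finset.mem_Ico]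
    show _ ∧ 1 + (a + K).toNat < bp K
    unfold bp
    omega
  · intro a ha
    have h1 := hm a ha
    rw [Finset.mem_Ico]
    show _ ∧ 2 + (a + K).toNat < bp K
    unfold bp
    omega

theorem nq_hV (L base N : ℕ) (v : ℕ → ℝ) :
    nq N (hV L base v) ≤ 2 * ∑ i ∈ Finset.Ico base (base + (L + 1)), v i ^ 2 := by
  classical
  unfold nq
  set I := (Finset.Icc (1 : ℤ) N).filter (fun n => ¬ (¬ Even n ∨ n ∉ Finset.Icc (-(L : ℤ)) L)) with hI
  have hm : ∀ n ∈ I, Even n ∧ 1 ≤ n ∧ n ≤ L := by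
    intro n hn
    have h := (Finset.mem_filter.1 hn).2
    have h' := (Finset.mem_Icc.1 (Finset.mem_filter.1 hn).1).1
    push Not at h
    exact ⟨h.1, h', (Finset.mem_Icc.1 h.2).2⟩
  have hsplit : Finset.Icc (-(N : ℤ)) N = insert 0 (Finset.Icc (1 : ℤ) N ∪ (Finset.Icc (1 : ℤ) N).image (fun n => -n)) := by
    ext n
    simp only [Finset.mem_insert, Finset.mem_union, Finset.mem_image, Finset.mem_Icc]
    constructor
    · intro h
      rcases lt_trichotomy n 0 with h0 | h0 | h0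
      · right; right
        exact ⟨-n, by omega, by omega⟩
      · left; exact h0
      · right; left; omega
    · rintro (h | h | ⟨a, h, rfl⟩) <;> omega
  have h0 : (0 : ℤ) ∉ Finset.Icc (1 : ℤ) N ∪ (Finset.Icc (1 : ℤ) N).image (fun n => -n) := by
    simp only [Finset.mem_union, Finset.mem_image, Finset.mem_Icc]
    rintro (h | ⟨a, h, h'⟩) <;> omega
  have hdis : Disjoint (Finset.Icc (1 : ℤ) N) ((Finset.Icc (1 : ℤ) N).image (fun n => -n)) := by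
    rw [Finset.disjoint_left]
    intro n h1 h2
    obtain ⟨a, ha, rfl⟩ := Finset.mem_image.1 h2
    rw [Finset.mem_Icc] at h1 ha
    omega
  rw [hsplit, Finset.sum_insert h0, Finset.sum_union hdis, Finset.sum_image (fun a _ c _ h => by simpa using h)]
  have e1 : ∀ n, ‖hV L base v (-n)‖ = ‖hV L base v n‖ := fun n => by rw [hV_neg, RCLike.norm_conj]
  simp_rw [e1]
  have e2 : ∑ n ∈ Finset.Icc (1 : ℤ) N, ‖hV L base v n‖ ^ 2 =
      ∑ n ∈ I, (v (base + (n.toNat - 1)) ^ 2 + v (base + n.toNat) ^ 2) := by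
    rw [hI, Finset.sum_filter]
    refine Finset.sum_congr rfl fun n hn => ?_
    rw [Finset.mem_Icc] at hn
    unfold hV
    by_cases h : ¬ Even n ∨ n ∉ Finset.Icc (-(L : ℤ)) L
    · rw [if_pos h, if_neg (not_not.2 h), norm_zero]
      norm_num
    · rw [if_neg h, if_pos h, if_neg (by omega), if_pos (by omega), nsq_re_im]
  have e3 : ∑ n ∈ I, (v (base + (n.toNat - 1)) ^ 2 + v (base + n.toNat) ^ 2) ≤
      ∑ i ∈ Finset.Ico (base + 1) (base + (L + 1)), v i ^ 2 := by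
    refine two_inj I (fun n => base + (n.toNat - 1)) (fun n => base + n.toNat) _ ?_ ?_ ?_ ?_ ?_ (fun i => v i ^ 2)
      (fun i => by positivity)
    · intro a ha c hc h
      have h1 := hm a ha
      have h2 := hm c hc
      have h3 : base + (a.toNat - 1) = base + (c.toNat - 1) := h
      omega
    · intro a ha c hc h
      have h1 := hm a ha
      have h2 := hm c hc
      have h3 : base + a.toNat = base + c.toNat := h
      omega
    · intro a ha c hc h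
      obtain ⟨⟨x, hx⟩, h1', h1''⟩ := hm a ha
      obtain ⟨⟨y, hy⟩, h2', h2''⟩ := hm c hc
      have h3 : base + (a.toNat - 1) = base + c.toNat := h
      omega
    · intro a ha
      obtain ⟨⟨x, hx⟩, h1', h1''⟩ := hm a ha
      rw [Finset.mem_Ico]
      show _ ∧ base + (a.toNat - 1) < _
      omega
    · intro a ha
      obtain ⟨⟨x, hx⟩, h1', h1''⟩ := hm a ha
      rw [Finset.mem_Ico]
      show _ ∧ base + a.toNat < _
      omega
  have e4 : ‖hV L base v 0‖ ^ 2 ≤ v base ^ 2 := by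
    unfold hV
    by_cases h : ¬ Even (0 : ℤ) ∨ (0 : ℤ) ∉ Finset.Icc (-(L : ℤ)) L
    · rw [if_pos h, norm_zero]
      have := sq_nonneg (v base)
      linarith
    · rw [if_neg h, if_pos rfl, Complex.norm_real, Real.norm_eq_abs, sq_abs]
  have e5 : ∑ i ∈ Finset.Ico base (base + (L + 1)), v i ^ 2 =
      v base ^ 2 + ∑ i ∈ Finset.Ico (base + 1) (base + (L + 1)), v i ^ 2 :=
    Finset.sum_eq_sum_Ico_succ_bot (by omega) _
  rw [e2, e5]
  have h5 : 0 ≤ v base ^ 2 := by positivity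
  linarith

/-- **the mass of the coordinates** -/
theorem mass_le (K L N : ℕ) (v : ℕ → ℝ) (hv : v 0 = 1) :
    mass N (pV K L v) (rV K L v) (sV K v) ≤ 49 / 8 * ∑ i ∈ Finset.range (nt K L), v i ^ 2 := by
  have h1 := nq_sV K N v
  have h2 : nq N (pV K L v) ≤ _ := nq_hV L (bp K) N v
  have h3 : nq N (rV K L v) ≤ _ := nq_hV L (br K L) N v
  have e : ∑ i ∈ Finset.range (nt K L), v i ^ 2 = 1 + ∑ i ∈ Finset.Ico 1 (bp K), v i ^ 2 +
      ∑ i ∈ Finset.Ico (bp K) (bp K + (L + 1)), v i ^ 2 + ∑ i ∈ Finset.Ico (br K L) (br K L + (L + 1)), v i ^ 2 := by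
    have a1 := Finset.sum_range_succ_comm (fun i => v i ^ 2) 0
    rw [Finset.range_eq_Ico, ← Finset.sum_Ico_consecutive (fun i => v i ^ 2) (Nat.zero_le (br K L)) (by unfold nt br; omega),
      ← Finset.sum_Ico_consecutive (fun i => v i ^ 2) (Nat.zero_le (bp K)) (by unfold br; omega : bp K ≤ br K L),
      ← Finset.sum_Ico_consecutive (fun i => v i ^ 2) (Nat.zero_le 1) (by unfold bp; omega : 1 ≤ bp K)]
    have a2 : ∑ i ∈ Finset.Ico 0 1, v i ^ 2 = 1 := by simp [hv]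
    rw [a2]
    rfl
  have n1 : 0 ≤ ∑ i ∈ Finset.Ico 1 (bp K), v i ^ 2 := Finset.sum_nonneg fun i _ => by positivity
  have n2 : 0 ≤ ∑ i ∈ Finset.Ico (bp K) (bp K + (L + 1)), v i ^ 2 := Finset.sum_nonneg fun i _ => by positivity
  have n3 : 0 ≤ ∑ i ∈ Finset.Ico (br K L) (br K L + (L + 1)), v i ^ 2 := Finset.sum_nonneg fun i _ => by positivity
  rw [e]
  unfold mass
  linarith

/-- **the rows `k ≥ k1` of `D2` in the coordinates** -/
theorem PT_coord {P : Par} (hr : P.Reg) {Θ1 Θ1' Θ2 Θ2' : ℝ → ℝ} (h1 : IA Θ1 Θ1') (h2 : IA Θ2 Θ2') {K L N m1 : ℕ}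
    (hK : K ≤ N) (hL : L ≤ N) (M : ℕ) {ε1 ε2 : ℝ} (e1 : 0 ≤ ε1) (e2 : 0 ≤ ε2) (hT1 : TB Θ1 Θ1' (N + 3) m1 ε1)
    (hT2 : TB Θ2 Θ2' (N + 3) m1 ε2) (v : ℕ → ℝ) (hv : v 0 = 1) (k1 : ℕ) (hk : m1 < 2 * k1 + 1) :
    Summable (fun k : ℕ => (lk k ^ 2 - 1) * ‖WA P Θ1 Θ1' Θ2 Θ2' M (pV K L v) (rV K L v) (sV K v) (2 * k + 2)‖ ^ 2) ∧
    ∑' k : ℕ, (lk (k + k1) ^ 2 - 1) *
        ‖WA P Θ1 Θ1' Θ2 Θ2' M (pV K L v) (rV K L v) (sV K v) (2 * (k + k1 : ℕ) + 2)‖ ^ 2 ≤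
      56 * (2 * N + 7) * (ε1 + ε2) ^ 2 * ∑ i ∈ Finset.range (nt K L), v i ^ 2 := by
  have hA := arrV (K := K) (L := L) (N := N) hK hL v
  have key := PT_mass hr h1 h2 M e1 e2 hT1 hT2 hA.sp hA.sr hA.ss k1 hk
  refine ⟨key.1, key.2.trans ?_⟩
  have h3 := mass_le K L N v hv
  have n0 : 0 ≤ ∑ i ∈ Finset.range (nt K L), v i ^ 2 := Finset.sum_nonneg fun i _ => by positivity
  have c0 : 0 ≤ 9 * (2 * (N : ℝ) + 7) * (ε1 + ε2) ^ 2 := by positivity
  calc 9 * (2 * (N : ℝ) + 7) * (ε1 + ε2) ^ 2 * mass N (pV K L v) (rV K L v) (sV K v)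
      ≤ 9 * (2 * (N : ℝ) + 7) * (ε1 + ε2) ^ 2 * (49 / 8 * ∑ i ∈ Finset.range (nt K L), v i ^ 2) :=
        mul_le_mul_of_nonneg_left h3 c0
    _ ≤ 56 * (2 * N + 7) * (ε1 + ε2) ^ 2 * ∑ i ∈ Finset.range (nt K L), v i ^ 2 := by
        have : 0 ≤ (2 * (N : ℝ) + 7) * (ε1 + ε2) ^ 2 * ∑ i ∈ Finset.range (nt K L), v i ^ 2 := by positivity
        nlinarith

end Helper76.SH
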