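import Pool.Agent.Helper76.RC.TrD

/-!
# The total slope of two alignments at `x` and `x + π`

`evL l1 l2` are the even harmonics of `D1 + D2`; the total slope is `2 + 2 (1 - D'(evL l1 l2))`.
-/

set_option autoImplicit false

open Helper49.LT

namespace Helper76.RC.TrD

open Helper76.RC.TPoly Helper54.RC.Fast Helper76.RC.ExpF

/-- the sum of two lists (the longer one decides the length) -/
def addC : List (ℤ × ℤ) → List (ℤ × ℤ) → List (ℤ × ℤ)
  | [], m => m
  | l, [] => l
  | a :: l, c :: m => (Int.add a.1 c.1, Int.add a.2 c.2) :: addC l m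

/-- the entries of even frequency; `e` says that the first frequency is even -/
def evC : Bool → List (ℤ × ℤ) → List (ℤ × ℤ)
  | _, [] => []
  | true, a :: l => a :: evC false l
  | false, _ :: l => (0, 0) :: evC true l

/-- the even harmonics of `D1 + D2` -/
def evL (l1 l2 : List (ℤ × ℤ)) : List (ℤ × ℤ) := evC false (addC l1 l2)

theorem DA_addC (k : ℕ) (l m : List (ℤ × ℤ)) (x : ℝ) : DA k (addC l m) x = DA k l x + DA k m x := by
  induction l generalizing k m with
  | nil =>
    have e : addC [] m = m := by cases m <;> rfl
    rw [e]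
    simp [DA]
  | cons a l ih =>
    cases m with
    | nil =>
      have e : addC (a :: l) [] = a :: l := rfl
      rw [e]
      simp [DA]
    | cons c m =>
      show DA k ((Int.add a.1 c.1, Int.add a.2 c.2) :: addC l m) x = _
      simp only [DA]
      rw [ih]
      have e1 : ((Int.add a.1 c.1 : ℤ) : ℝ) = a.1 + c.1 := by
        have : Int.add a.1 c.1 = a.1 + c.1 := rfl
        rw [this]
        push_cast
        rfl
      have e2 : ((Int.add a.2 c.2 : ℤ) : ℝ) = a.2 + c.2 := by
        have : Int.add a.2 c.2 = a.2 + c.2 := rfl
        rw [this]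
        push_cast
        rfl
      rw [e1, e2]
      ring

theorem DA_evC (k : ℕ) (e : Bool) (he : e = true ↔ Even k) (l : List (ℤ × ℤ)) (x : ℝ) :
    DA k l x + DA k l (x + Real.pi) = 2 * DA k (evC e l) x := by
  induction l generalizing k e with
  | nil => cases e <;> simp [DA, evC]
  | cons a l ih =>
    cases e with
    | true =>
      have hk : Even k := he.1 rfl
      obtain ⟨j, hj⟩ := hk
      have h1 := ih (k + 1) false (by
        constructor
        · intro h
          exact absurd h (by decide)
        · intro h
          obtain ⟨i, hi⟩ := h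
          omega)
      show DA k (a :: l) x + DA k (a :: l) (x + Real.pi) = 2 * DA k (a :: evC false l) x
      simp only [DA]
      have e0 : (k : ℝ) * (x + Real.pi) = k * x + (j : ℤ) * (2 * Real.pi) := by
        rw [hj]
        push_cast
        ring
      rw [e0, Real.cos_add_int_mul_two_pi, Real.sin_add_int_mul_two_pi]
      linarith
    | false =>
      have hk : ¬ Even k := fun h => by simpa using he.2 h
      rw [Nat.not_even_iff_odd] at hk
      obtain ⟨j, hj⟩ := hk
      have h1 := ih (k + 1) true (by
        constructor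
        · intro _
          exact ⟨j + 1, by omega⟩
        · intro _
          rfl)
      show DA k (a :: l) x + DA k (a :: l) (x + Real.pi) = 2 * DA k ((0, 0) :: evC true l) x
      simp only [DA]
      have e0 : (k : ℝ) * (x + Real.pi) = k * x + Real.pi + (j : ℤ) * (2 * Real.pi) := by
        rw [hj]
        push_cast
        ring
      rw [e0, Real.cos_add_int_mul_two_pi, Real.sin_add_int_mul_two_pi, Real.cos_add_pi, Real.sin_add_pi]
      push_cast
      linarith

theorem der_addC (k : ℕ) (l m : List (ℤ × ℤ)) : der k (addC l m) = addC (der k l) (der k m) := by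
  induction l generalizing k m with
  | nil =>
    have e : addC [] m = m := by cases m <;> rfl
    have e' : addC (der k []) (der k m) = der k m := by
      show addC [] (der k m) = der k m
      cases der k m <;> rfl
    rw [e, e']
  | cons a l ih =>
    cases m with
    | nil => rfl
    | cons c m =>
      show der k ((Int.add a.1 c.1, Int.add a.2 c.2) :: addC l m) = _
      simp only [der]
      rw [ih]
      show _ = (Int.add _ _, Int.add _ _) :: addC (der (k + 1) l) (der (k + 1) m)
      congr 1
      refine Prod.ext ?_ ?_
      · show _ * (a.2 + c.2) = _ * a.2 + _ * c.2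
        ring
      · show -(_ * (a.1 + c.1)) = -(_ * a.1) + -(_ * c.1)
        ring

theorem der_evC (k : ℕ) (e : Bool) (l : List (ℤ × ℤ)) : der k (evC e l) = evC e (der k l) := by
  induction l generalizing k e with
  | nil => cases e <;> rfl
  | cons a l ih =>
    cases e with
    | true =>
      show der k (a :: evC false l) = _
      simp only [der]
      rw [ih]
      rfl
    | false =>
      show der k ((0, 0) :: evC true l) = _
      simp only [der]
      rw [ih]
      show _ = (0, 0) :: evC true (der (k + 1) l)
      congr 1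

theorem slope_sum (Q : ℕ) (l1 l2 : List (ℤ × ℤ)) (x : ℝ) :
    Th' Q l1 x + Th' Q l1 (x + Real.pi) + Th' Q l2 x + Th' Q l2 (x + Real.pi) = 2 + 2 * Th' Q (evL l1 l2) x := by
  have h1 := DA_evC 1 false (by simp) (der 1 (addC l1 l2)) x
  rw [← der_evC, der_addC, DA_addC, DA_addC] at h1
  unfold Th' Dt evL
  have e : DA 1 (der 1 (evC false (addC l1 l2))) x / Q =
      ((DA 1 (der 1 l1) x + DA 1 (der 1 l2) x + (DA 1 (der 1 l1) (x + Real.pi) + DA 1 (der 1 l2) (x + Real.pi))) / 2) / Q := by
    rw [h1]
    ring
  rw [e]
  ring

/-- **the bound of the total slope** -/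
theorem kap4_of (b r K Q s δ : ℕ) (l1 l2 : List (ℤ × ℤ)) (q : FP) (hr : r ≤ b + 1)
    (h : okUp b r K Q s δ (evL l1 l2) q = true) (x : ℝ) :
    Th' Q l1 x + Th' Q l1 (x + Real.pi) + Th' Q l2 x + Th' Q l2 (x + Real.pi) ≤ 2 + ((s : ℝ) + δ) / Q := by
  have h1 := okUp_sound b r K Q s δ (evL l1 l2) q hr h x
  rw [slope_sum]
  have e : 2 * (((s : ℝ) + δ) / (2 * Q)) = ((s : ℝ) + δ) / Q := by ring
  unfold Th'
  linarith

end Helper76.RC.TrD
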