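import Pool.Agent.Helper76.SH.Defs

/-!
# MP_506470_co : definitions for the case of bounded cliques
-/

namespace SetHom

/-- No vertex of the finite set `U` is adjacent to all other vertices of `U` (in particular `U` is
not a singleton). -/
def CL {V : Type*} (G : SimpleGraph V) (U : Finset V) : Prop :=
  ∀ x ∈ U, ∃ y ∈ U, y ≠ x ∧ ¬ G.Adj x y

/-- Weakly set-homogeneous: set-homogeneous for sets without dominating vertex. -/
def WSH {V : Type*} (G : SimpleGraph V) : Prop :=
  ∀ U W : Finset V, CL G U → Nonempty (G.induce (U : Set V) ≃g G.induce (W : Set V)) →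
    ∃ φ : G ≃g G, φ '' (U : Set V) = (W : Set V)

/-- The common neighbourhood of a set. -/
def Nb {V : Type*} (G : SimpleGraph V) (K : Set V) : Set V := {x | ∀ k ∈ K, G.Adj k x}

/-- The link of a set. -/
abbrev Lk {V : Type*} (G : SimpleGraph V) (K : Set V) : SimpleGraph (Nb G K) := G.induce (Nb G K)

/-- The link of a vertex. -/
abbrev Ln {V : Type*} (G : SimpleGraph V) (v : V) : SimpleGraph (G.neighborSet v) :=
  G.induce (G.neighborSet v)

/-- Every finite graph without `r`-clique embeds. -/
def AllEmb (r : ℕ) {V : Type} (L : SimpleGraph V) : Prop :=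
  ∀ (W : Type) [Fintype W] (H : SimpleGraph W), H.CliqueFree r → Nonempty (H ↪g L)

/-- Not a join of two nonempty graphs. -/
def CoConn {V : Type*} (L : SimpleGraph V) : Prop :=
  ∀ S : Set V, S.Nonempty → Sᶜ.Nonempty → ∃ a ∈ S, ∃ b ∈ Sᶜ, ¬ L.Adj a b

/-- Infinite, of diameter two and not a join. -/
structure Gam {V : Type*} (L : SimpleGraph V) : Prop where
  inf : Infinite V
  com : ∀ a b, a ≠ b → ¬ L.Adj a b → ∃ c, L.Adj a c ∧ L.Adj b c
  coco : CoConn L

/-- Vertex-transitive. -/
def VT {V : Type*} (L : SimpleGraph V) : Prop := ∀ u v, ∃ φ : L ≃g L, φ u = v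

/-- `b` lies between `a` and `c` (for graphs isomorphic to the complement of `R(3)`). -/
def MidG {V : Type*} (L : SimpleGraph V) (a b c : V) : Prop :=
  ∀ x, L.Adj a x → L.Adj c x → L.Adj b x

/-- `b` lies between `a` and `c`, seen from `v`. -/
def Mid {V : Type*} (L : SimpleGraph V) (v a b c : V) : Prop :=
  ∀ x, L.Adj v x → L.Adj a x → L.Adj c x → L.Adj b x

/-- `X` with all vertices of `Y` joined to the vertex `u`. -/
def hang {W W' : Type*} (X : SimpleGraph W) (u : W) (Y : SimpleGraph W') :
    SimpleGraph (W ⊕ W') where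
  Adj a b := match a, b with
    | Sum.inl x, Sum.inl y => X.Adj x y
    | Sum.inl x, Sum.inr _ => x = u
    | Sum.inr _, Sum.inl x => x = u
    | Sum.inr y, Sum.inr z => Y.Adj y z
  symm := ⟨by
    rintro (x | y) (x' | y') h
    · exact SimpleGraph.Adj.symm (G := X) h
    · exact h
    · exact h
    · exact SimpleGraph.Adj.symm (G := Y) h⟩
  loopless := ⟨by
    rintro (x | y) h
    · exact X.loopless.irrefl x h
    · exact Y.loopless.irrefl y h⟩

end SetHom
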