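import Pool.Agent.Helper76.SH.Rigid

/-!
# MP_506470_co : module Gc
-/

namespace SetHom

/-- the decoration numbers -/
noncomputable def num (W : Type*) [Finite W] (x : W) : ℕ :=
  (Nat.card W + 3) * ((Finite.equivFin W x : ℕ) + 1)

lemma num_div (W : Type*) [Finite W] (x : W) (m : ℕ) (h1 : num W x ≤ m)
    (h2 : m ≤ num W x + Nat.card W) : m / (Nat.card W + 3) = (Finite.equivFin W x : ℕ) + 1 := by
  unfold num at h1 h2
  apply Nat.div_eq_of_lt_le
  · rw [mul_comm]
    exact h1
  · refine lt_of_le_of_lt h2 ?_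
    have : ((Finite.equivFin W x : ℕ) + 1 + 1) * (Nat.card W + 3) =
        (Nat.card W + 3) * ((Finite.equivFin W x : ℕ) + 1) + (Nat.card W + 3) := by ring
    rw [this]
    omega

lemma num_ge (W : Type*) [Finite W] (x : W) : Nat.card W + 3 ≤ num W x := by
  unfold num
  nlinarith [Nat.zero_le (Finite.equivFin W x : ℕ)]

/-- `A` with one more vertex joined to `B` -/
def addV {T : Type*} (A : SimpleGraph T) (B : Set T) : SimpleGraph (Option T) where
  Adj a b := match a, b with
    | none, none => False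
    | none, some x => x ∈ B
    | some x, none => x ∈ B
    | some x, some y => A.Adj x y
  symm := ⟨by
    rintro (_ | x) (_ | y) h
    · exact h
    · exact h
    · exact h
    · exact SimpleGraph.Adj.symm (G := A) h⟩
  loopless := ⟨by
    rintro (_ | x) h
    · exact h
    · exact A.loopless.irrefl x h⟩

lemma addV_tf {T : Type*} {A : SimpleGraph T} {B : Set T} (h : TF A)
    (hB : ∀ x ∈ B, ∀ y ∈ B, ¬ A.Adj x y) : TF (addV A B) := by
  rintro (_ | x) (_ | y) (_ | z) h1 h2 h3
  · exact h1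
  · exact h1
  · exact h3
  · exact hB y h1 z h3 h2
  · exact h2
  · exact hB x h1 z h2 h3
  · exact hB x h3 y h2 h1
  · exact h x y z h1 h2 h3

theorem ope_of_embed {V : Type} {G : SimpleGraph V} (hs : SetHomogeneous G) (tf : TF G)
    (hE : ∀ (W : Type) [Fintype W] (H : SimpleGraph W), TF H → Nonempty (H ↪g G)) : OPE G := by
  classical
  intro U f hf hadj a ha
  let W : Set V := f '' (U : Set V)
  have hWf : W.Finite := Set.toFinite _
  have _ : Finite W := hWf
  have _ : Fintype W := Fintype.ofFinite W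
  let H : SimpleGraph W := G.induce W
  have tH : TF H := fun x y z h1 h2 h3 => tf x.1 y.1 z.1 h1 h2 h3
  let n : W → ℕ := num W
  let D := Dec H n
  have tD : TF D := Dec_tf tH
  obtain ⟨h0⟩ := hE _ D tD
  -- move the copy of `W` onto `W`
  let e1 : H ↪g G := ⟨⟨fun x => h0 (Sum.inl x), fun x y hxy => by
    have := h0.injective hxy
    simpa using this⟩, by
      intro x y
      exact h0.map_adj_iff⟩
  let e2 : H ↪g G := ⟨⟨Subtype.val, Subtype.val_injective⟩, Iff.rfl⟩
  obtain ⟨φ, α, hφ⟩ := emb_lemma hs e1 e2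
  have hφ' : ∀ x, φ (h0 (Sum.inl x)) = (α x).1 := hφ
  -- the new vertex
  let B : Set (W ⊕ ((Σ x : W, Fin (n x)) × Bool)) :=
    {t | ∃ x : W, t = Sum.inl x ∧ ∃ u ∈ U, G.Adj a u ∧ f u = (α x).1}
  have hB : ∀ x ∈ B, ∀ y ∈ B, ¬ D.Adj x y := by
    rintro _ ⟨x, rfl, u, hu, hau, hx⟩ _ ⟨y, rfl, v, hv, hav, hy⟩ h
    have h' : H.Adj x y := h
    have h'' : H.Adj (α x) (α y) := α.map_adj_iff.2 h'
    have h3 : G.Adj (α x).1 (α y).1 := h''
    rw [← hx, ← hy, hadj u hu v hv] at h3
    exact tf a u v hau h3 hav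
  obtain ⟨h1⟩ := hE _ (addV D B) (addV_tf tD hB)
  let e3 : D ↪g G := ⟨⟨fun t => h1 (some t), fun x y hxy => by
    have := h1.injective hxy
    simpa using this⟩, by
      intro x y
      exact h1.map_adj_iff⟩
  let e4 : D ↪g G := h0.trans φ.toEmbedding
  obtain ⟨ψ, β, hψ⟩ := emb_lemma hs e3 e4
  have hψ' : ∀ t, ψ (h1 (some t)) = φ (h0 (β t)) := hψ
  -- `β` fixes `W`
  have hβ : ∀ x : W, β (Sum.inl x) = Sum.inl x := by
    intro x
    have key : ∀ x : W, dg D (Sum.inl x) = cnt H n x Set.univ := by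
      intro x
      unfold dg cnt
      congr 1
      ext t
      simp only [Set.mem_univ, true_and, Set.mem_ofPred_eq]
      exact Iff.rfl
    have key2 : ∀ q, dg D (Sum.inr q) ≤ 2 := by
      intro q
      have := dg_inr (H := H) (n := n) Set.univ q (Set.mem_univ _)
      refine le_trans (le_of_eq ?_) this
      unfold dg
      rw [← Set.ncard_image_of_injective
        ((SimpleGraph.induce Set.univ (Dec H n)).neighborSet ⟨Sum.inr q, _⟩) Subtype.val_injective]
      congr 1
      ext t
      constructor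
      · intro ht
        exact ⟨⟨t, Set.mem_univ _⟩, ht, rfl⟩
      · rintro ⟨⟨t, ht⟩, h, rfl⟩
        exact h
    apply fix_of_dg (Set.range Sum.inl) (Nat.card W + 3)
    · rintro (y | q) ht
      · exact absurd ⟨y, rfl⟩ ht
      · have := key2 q
        omega
    · rintro _ ⟨y, rfl⟩
      rw [key]
      exact (num_ge W y).trans (cnt_lower H n y _ (fun _ => Set.mem_univ _))
    · rintro _ ⟨y, rfl⟩ _ ⟨z, rfl⟩ h
      rw [key, key, num_div W y _ (cnt_lower H n y _ (fun _ => Set.mem_univ _))
        (cnt_upper H n y _), num_div W z _ (cnt_lower H n z _ (fun _ => Set.mem_univ _))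
        (cnt_upper H n z _)] at h
      have : Finite.equivFin W y = Finite.equivFin W z := by
        apply Fin.ext
        omega
      rw [(Finite.equivFin W).injective this]
    · exact ⟨x, rfl⟩
  have hfin : ∀ x : W, ψ (h1 (some (Sum.inl x))) = (α x).1 := by
    intro x
    rw [hψ', hβ, hφ']
  refine ⟨ψ (h1 none), ?_, ?_⟩
  · intro u hu h
    obtain ⟨x, hx⟩ := α.surjective ⟨f u, ⟨u, hu, rfl⟩⟩
    have h2 := hfin x
    rw [hx] at h2
    have h3 : f u = ψ (h1 (some (Sum.inl x))) := h2.symm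
    rw [h3] at h
    have := h1.injective (ψ.injective h)
    simp at this
  · intro u hu
    obtain ⟨x, hx⟩ := α.surjective ⟨f u, ⟨u, hu, rfl⟩⟩
    have h2 := hfin x
    rw [hx] at h2
    have h3 : f u = ψ (h1 (some (Sum.inl x))) := h2.symm
    rw [h3, ψ.map_adj_iff, h1.map_adj_iff]
    show Sum.inl x ∈ B ↔ _
    constructor
    · rintro ⟨y, hy, v, hv, hav, hfv⟩
      obtain rfl : x = y := Sum.inl_injective hy
      rw [hx] at hfv
      rw [← hf hv hu hfv]
      exact hav
    · intro h
      exact ⟨x, rfl, u, hu, h, by rw [hx]⟩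

end SetHom
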