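import Pool.Agent.Helper76.SH.Defs

/-!
# MP_506470_co, module D : from segments to the coloured model
-/

namespace SetHom

variable {V : Type*} {G : SimpleGraph V}

/-- initial segment -/
def Lo (G : SimpleGraph V) (v : V) (r : V → V → Prop) (u : V) : Prop :=
  ∀ a b, G.Adj v a → G.Adj v b → r a b → G.Adj u b → G.Adj u a

/-- final segment -/
def Up (G : SimpleGraph V) (v : V) (r : V → V → Prop) (u : V) : Prop :=
  ∀ a b, G.Adj v a → G.Adj v b → r a b → G.Adj u a → G.Adj u b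

/-- the context -/
structure Ctx (G : SimpleGraph V) (v : V) (r : V → V → Prop) : Prop where
  irr : ∀ a, G.Adj v a → ¬ r a a
  trans : ∀ a b c, G.Adj v a → G.Adj v b → G.Adj v c → r a b → r b c → r a c
  tot : ∀ a b, G.Adj v a → G.Adj v b → a ≠ b → r a b ∨ r b a
  go : ∀ a b a' b', G.Adj v a → G.Adj v b → G.Adj v a' → G.Adj v b' → r a b → r a' b' →
    ∃ φ : G ≃g G, φ v = v ∧ φ a = a' ∧ φ b = b'
  seg : ∀ u, u ≠ v → ¬ G.Adj u v → Lo G v r u ∨ Up G v r u

lemma Ctx.dual {v : V} {r : V → V → Prop} (C : Ctx G v r) : Ctx G v (fun a b => r b a) where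
  irr := C.irr
  trans := fun a b c ha hb hc h1 h2 => C.trans c b a hc hb ha h2 h1
  tot := fun a b ha hb hab => (C.tot b a hb ha (Ne.symm hab))
  go := fun a b a' b' ha hb ha' hb' h h' => by
    obtain ⟨φ, h1, h2, h3⟩ := C.go b a b' a' hb ha hb' ha' h h'
    exact ⟨φ, h1, h3, h2⟩
  seg := fun u h1 h2 => by
    rcases C.seg u h1 h2 with h | h
    · right
      exact fun a b ha hb hab hu => h b a hb ha hab hu
    · left
      exact fun a b ha hb hab hu => h b a hb ha hab hu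

lemma tr_nonempty (hG : Good G) {u v : V} (h : u ≠ v) (h' : ¬ G.Adj u v) :
    ∃ x, G.Adj v x ∧ G.Adj u x := by
  obtain ⟨x, hx⟩ := (hG.inter u v h h').nonempty
  exact ⟨x, hx.2, hx.1⟩

lemma tr_ne (hG : Good G) {u v : V} (h : u ≠ v) (h' : ¬ G.Adj u v) :
    ∃ x, G.Adj v x ∧ ¬ G.Adj u x := by
  obtain ⟨x, hx⟩ := (hG.diff u v h h').nonempty
  exact ⟨x, hx.1, hx.2⟩

lemma adj_iff_disj (hG : Good G) {u w v : V} (hu : u ≠ v) (hu' : ¬ G.Adj u v) (hw : w ≠ v)
    (hw' : ¬ G.Adj w v) : G.Adj u w ↔ ∀ x, G.Adj v x → ¬ (G.Adj u x ∧ G.Adj w x) := by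
  classical
  constructor
  · rintro h x _ ⟨h1, h2⟩
    exact hG.tf u w x h h2 h1
  · intro h
    by_contra hn
    obtain ⟨x, hx⟩ := hG.common {v, u, w} (by
      intro a ha b hb
      simp only [Finset.mem_insert, Finset.mem_singleton] at ha hb
      rcases ha with rfl | rfl | rfl <;> rcases hb with rfl | rfl | rfl <;>
        first
          | exact G.loopless.irrefl _
          | exact hu'
          | exact hw'
          | exact hn
          | exact fun h => hu' h.symm
          | exact fun h => hw' h.symm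
          | exact fun h => hn h.symm)
    have h1 := hx v (by simp)
    have h2 := hx u (by simp)
    have h3 := hx w (by simp)
    exact h x h1.symm ⟨h2.symm, h3.symm⟩

/-- P6 -/
lemma p6 (hG : Good G) {u v z : V} (hu : u ≠ v) (hu' : ¬ G.Adj u v) (hz : G.Adj v z)
    (hz' : ¬ G.Adj u z) : ∃ w, w ≠ v ∧ ¬ G.Adj w v ∧ G.Adj w z ∧ G.Adj w u := by
  classical
  obtain ⟨w, hw⟩ := hG.common {z, u} (by
    intro a ha b hb
    simp only [Finset.mem_insert, Finset.mem_singleton] at ha hb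
    rcases ha with rfl | rfl <;> rcases hb with rfl | rfl <;>
      first
        | exact G.loopless.irrefl _
        | exact hz'
        | exact fun h => hz' h.symm)
  have h1 := hw z (by simp)
  have h2 := hw u (by simp)
  refine ⟨w, ?_, ?_, h1, h2⟩
  · rintro rfl
    exact hu' h2.symm
  · intro h
    exact hG.tf v z w hz h1.symm h.symm

section

variable {v : V} {r : V → V → Prop} (hG : Good G) (C : Ctx G v r)

include hG C

/-- two initial segments meet -/
lemma lo_lo {u w : V} (hu : u ≠ v) (hu' : ¬ G.Adj u v) (hw : w ≠ v) (hw' : ¬ G.Adj w v)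
    (h1 : Lo G v r u) (h2 : Lo G v r w) : ¬ G.Adj u w := by
  intro h
  rw [adj_iff_disj hG hu hu' hw hw'] at h
  obtain ⟨p, hp, hp'⟩ := tr_nonempty hG hu hu'
  obtain ⟨q, hq, hq'⟩ := tr_nonempty hG hw hw'
  by_cases hpq : p = q
  · subst hpq
    exact h p hp ⟨hp', hq'⟩
  · rcases C.tot p q hp hq hpq with h3 | h3
    · exact h p hp ⟨hp', h2 p q hp hq h3 hq'⟩
    · exact h q hq ⟨h1 q p hq hp h3 hp', hq'⟩

lemma up_up {u w : V} (hu : u ≠ v) (hu' : ¬ G.Adj u v) (hw : w ≠ v) (hw' : ¬ G.Adj w v)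
    (h1 : Up G v r u) (h2 : Up G v r w) : ¬ G.Adj u w :=
  lo_lo hG C.dual hu hu' hw hw' (fun a b ha hb hab h => h1 b a hb ha hab h)
    (fun a b ha hb hab h => h2 b a hb ha hab h)

/-- there are initial segments -/
lemma exists_lo : ∃ u, u ≠ v ∧ ¬ G.Adj u v ∧ Lo G v r u := by
  obtain ⟨u, hu, hu'⟩ := hG.nonedge v
  rcases C.seg u hu hu' with h | h
  · exact ⟨u, hu, hu', h⟩
  · obtain ⟨z, hz, hz'⟩ := tr_ne hG hu hu'
    obtain ⟨w, hw, hw', hwz, hwu⟩ := p6 hG hu hu' hz hz'
    rcases C.seg w hw hw' with h2 | h2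
    · exact ⟨w, hw, hw', h2⟩
    · exact absurd hwu (up_up hG C hw hw' hu hu' h2 h)

/-- not both -/
lemma not_lo_up {u : V} (hu : u ≠ v) (hu' : ¬ G.Adj u v) (h1 : Lo G v r u) (h2 : Up G v r u) :
    False := by
  obtain ⟨p, hp, hp'⟩ := tr_nonempty hG hu hu'
  obtain ⟨q, hq, hq'⟩ := tr_ne hG hu hu'
  have hpq : p ≠ q := by
    rintro rfl
    exact hq' hp'
  rcases C.tot p q hp hq hpq with h | h
  · exact hq' (h2 p q hp hq h hp')
  · exact hq' (h1 q p hq hp h hp')

lemma sep_lo {x y : V} (hx : G.Adj v x) (hy : G.Adj v y) (hxy : r x y) :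
    ∃ u, u ≠ v ∧ ¬ G.Adj u v ∧ Lo G v r u ∧ G.Adj u x ∧ ¬ G.Adj u y := by
  obtain ⟨u, hu, hu', hlo⟩ := exists_lo hG C
  obtain ⟨p, hp, hp'⟩ := tr_nonempty hG hu hu'
  obtain ⟨q, hq, hq'⟩ := tr_ne hG hu hu'
  have hpq : p ≠ q := by
    rintro rfl
    exact hq' hp'
  have hr : r p q := by
    rcases C.tot p q hp hq hpq with h | h
    · exact h
    · exact absurd (hlo q p hq hp h hp') hq'
  obtain ⟨φ, h1, h2, h3⟩ := C.go p q x y hp hq hx hy hr hxy
  have e1 : φ u ≠ v := by
    intro h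
    rw [← h1] at h
    exact hu (φ.injective h)
  have e2 : ¬ G.Adj (φ u) v := by
    intro h
    rw [← h1, φ.map_adj_iff] at h
    exact hu' h
  have e3 : G.Adj (φ u) x := by
    rw [← h2, φ.map_adj_iff]; exact hp'
  have e4 : ¬ G.Adj (φ u) y := by
    rw [← h3, φ.map_adj_iff]; exact hq'
  refine ⟨φ u, e1, e2, ?_, e3, e4⟩
  rcases C.seg (φ u) e1 e2 with h | h
  · exact h
  · exact absurd (h x y hx hy hxy e3) e4

lemma sep_up {x y : V} (hx : G.Adj v x) (hy : G.Adj v y) (hxy : r x y) :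
    ∃ u, u ≠ v ∧ ¬ G.Adj u v ∧ Up G v r u ∧ ¬ G.Adj u x ∧ G.Adj u y := by
  obtain ⟨u, h1, h2, h3, h4, h5⟩ := sep_lo hG C.dual hy hx hxy
  exact ⟨u, h1, h2, fun a b ha hb hab h => h3 b a hb ha hab h, h5, h4⟩

/-- betweenness -/
lemma btw_common {p q s w : V} (hp : G.Adj v p) (hq : G.Adj v q) (hs : G.Adj v s) (h1 : r p q)
    (h2 : r q s) (hwp : G.Adj w p) (hws : G.Adj w s) : G.Adj w q := by
  by_cases hw : w = v
  · rw [hw]; exact hq
  · have hw' : ¬ G.Adj w v := by
      intro h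
      exact hG.tf v p w hp hwp.symm h.symm
    rcases C.seg w hw hw' with h | h
    · exact h q s hq hs h2 hws
    · exact h p q hp hq h1 hwp

lemma no_max {x : V} (hx : G.Adj v x) : ∃ y, G.Adj v y ∧ r x y := by
  by_contra hcon
  push Not at hcon
  -- `x` is the maximum
  have hmax : ∀ y, G.Adj v y → y ≠ x → r y x := by
    intro y hy hyx
    rcases C.tot y x hy hx hyx with h | h
    · exact h
    · exact absurd h (hcon y hy)
  obtain ⟨a, ha, hax⟩ := ((hG.infdeg v).sdiff (Set.finite_singleton x)).nonempty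
  obtain ⟨b, hb, hbx⟩ := ((hG.infdeg v).sdiff (Set.toFinite {x, a})).nonempty
  simp only [Set.mem_singleton_iff, Set.mem_insert_iff, not_or] at hax hbx
  have ha' : G.Adj v a := ha
  have hb' : G.Adj v b := hb
  -- the statement for two elements `a < b` below `x`
  have key : ∀ a b, G.Adj v a → G.Adj v b → r a b → b ≠ x → a ≠ x → False := by
    intro a b ha hb hab hbx hax
    obtain ⟨φ, h1, h2, h3⟩ := C.go a b a x ha hb ha hx hab (hmax a ha hax)
    -- everything adjacent to `a` and `x` is adjacent to `b`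
    have hc : ∀ w, G.Adj w a → G.Adj w (φ x) → G.Adj w x := by
      intro w hwa hwx
      have e1 : G.Adj (φ.symm w) a := by
        rw [← φ.map_adj_iff, RelIso.apply_symm_apply, h2]; exact hwa
      have e2 : G.Adj (φ.symm w) x := by
        rw [← φ.map_adj_iff, RelIso.apply_symm_apply]; exact hwx
      have e3 := btw_common hG C ha hb hx hab (hmax b hb hbx) e1 e2
      rw [← φ.map_adj_iff, RelIso.apply_symm_apply, h3] at e3
      exact e3
    have hφx : G.Adj v (φ x) := by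
      have := φ.map_adj_iff.2 hx
      rwa [h1] at this
    have hφxne : φ x ≠ x := by
      intro h
      exact hbx (φ.injective (h3.trans h.symm))
    -- choose the larger of `a` and `φ x`
    have hm : ∃ m, G.Adj v m ∧ m ≠ x ∧ (m = a ∨ r a m) ∧ (m = φ x ∨ r (φ x) m) := by
      by_cases haφ : a = φ x
      · exact ⟨a, ha, hax, Or.inl rfl, Or.inl haφ⟩
      · rcases C.tot a (φ x) ha hφx haφ with h | h
        · exact ⟨φ x, hφx, hφxne, Or.inr h, Or.inl rfl⟩
        · exact ⟨a, ha, hax, Or.inl rfl, Or.inr h⟩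
    obtain ⟨m, hm1, hm2, hm3, hm4⟩ := hm
    obtain ⟨w, _, _, hlo, hwm, hwx⟩ := sep_lo hG C hm1 hx (hmax m hm1 hm2)
    apply hwx
    apply hc
    · rcases hm3 with rfl | h
      · exact hwm
      · exact hlo a m ha hm1 h hwm
    · rcases hm4 with h | h
      · rw [← h]; exact hwm
      · exact hlo (φ x) m hφx hm1 h hwm
  rcases C.tot a b ha' hb' (Ne.symm hbx.2) with h | h
  · exact key a b ha' hb' h hbx.1 hax
  · exact key b a hb' ha' h hax hbx.1

lemma no_min {x : V} (hx : G.Adj v x) : ∃ y, G.Adj v y ∧ r y x :=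
  no_max hG C.dual hx

/-- every vertex of a neighbourhood is between two others -/
lemma non_extremal (w x : V) (h : G.Adj w x) : ∃ p q, G.Adj w p ∧ G.Adj w q ∧ p ≠ x ∧ q ≠ x ∧
    ∀ z, G.Adj z p → G.Adj z q → G.Adj z x := by
  obtain ⟨φ, hφ⟩ := hG.trans w v
  have hx : G.Adj v (φ x) := by
    have := φ.map_adj_iff.2 h
    rwa [hφ] at this
  obtain ⟨p, hp, hpx⟩ := no_min hG C hx
  obtain ⟨q, hq, hxq⟩ := no_max hG C hx
  have back : ∀ a, G.Adj v a → G.Adj w (φ.symm a) := by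
    intro a ha
    rw [← φ.map_adj_iff, RelIso.apply_symm_apply, hφ]
    exact ha
  refine ⟨φ.symm p, φ.symm q, back p hp, back q hq, ?_, ?_, ?_⟩
  · intro h2
    have : p = φ x := by rw [← h2, RelIso.apply_symm_apply]
    rw [this] at hpx
    exact C.irr _ hx hpx
  · intro h2
    have : q = φ x := by rw [← h2, RelIso.apply_symm_apply]
    rw [this] at hxq
    exact C.irr _ hx hxq
  · intro z h1 h2
    rw [← φ.map_adj_iff, RelIso.apply_symm_apply] at h1 h2
    rw [← φ.map_adj_iff]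
    exact btw_common hG C hp hx hq hpx hxq h1 h2

/-- an initial trace has no maximum -/
lemma lo_no_max {u a : V} (hu : u ≠ v) (hu' : ¬ G.Adj u v) (hlo : Lo G v r u) (ha : G.Adj v a)
    (hua : G.Adj u a) : ∃ b, G.Adj v b ∧ G.Adj u b ∧ r a b := by
  by_contra hcon
  push Not at hcon
  have hmax : ∀ b, G.Adj v b → G.Adj u b → b ≠ a → r b a := by
    intro b hb hub hba
    rcases C.tot b a hb ha hba with h | h
    · exact h
    · exact absurd h (hcon b hb hub)
  obtain ⟨p, q, hp, hq, hpa, hqa, hpq⟩ := non_extremal hG C u a hua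
  -- choose `b < a` above `p` and `q` (as far as they are in the neighbourhood of `v`)
  have step : ∀ p, G.Adj u p → p ≠ a → ∀ b, G.Adj v b → r b a →
      ∃ b', G.Adj v b' ∧ r b' a ∧ (b' = b ∨ r b b') ∧ (G.Adj v p → p = b' ∨ r p b') := by
    intro p hp hpa b hb hba
    by_cases hvp : G.Adj v p
    · by_cases hpb : p = b
      · exact ⟨b, hb, hba, Or.inl rfl, fun _ => Or.inl hpb⟩
      · rcases C.tot p b hvp hb hpb with h | h
        · exact ⟨b, hb, hba, Or.inl rfl, fun _ => Or.inr h⟩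
        · exact ⟨p, hvp, hmax p hvp hp hpa, Or.inr h, fun _ => Or.inl rfl⟩
    · exact ⟨b, hb, hba, Or.inl rfl, fun h => absurd h hvp⟩
  obtain ⟨b0, hb0, hb0a⟩ := no_min hG C ha
  obtain ⟨b1, hb1, hb1a, _, hpb1⟩ := step p hp hpa b0 hb0 hb0a
  obtain ⟨b, hb, hba, hb1b, hqb⟩ := step q hq hqa b1 hb1 hb1a
  have hpb : G.Adj v p → p = b ∨ r p b := by
    intro h
    rcases hpb1 h with h1 | h1
    · rcases hb1b with h2 | h2
      · left; rw [h1, h2]
      · right; rw [h1]; exact h2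
    · rcases hb1b with h2 | h2
      · right; rw [h2]; exact h1
      · right; exact C.trans _ _ _ h hb1 hb h1 h2
  obtain ⟨w, hw, hw', hwlo, hwb, hwa⟩ := sep_lo hG C hb ha hba
  have hadj : ∀ p, G.Adj u p → (G.Adj v p → p = b ∨ r p b) → G.Adj w p := by
    intro p hup hpb
    by_cases hvp : G.Adj v p
    · rcases hpb hvp with h | h
      · rw [h]; exact hwb
      · exact hwlo p b hvp hb h hwb
    · have hpv : p ≠ v := by
        rintro rfl
        exact hu' hup
      rw [adj_iff_disj hG hw hw' hpv (fun h => hvp h.symm)]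
      rintro x hx ⟨h1, h2⟩
      have hxa : r x a := by
        by_cases hxa : x = a
        · rw [hxa] at h1
          exact absurd h1 hwa
        · rcases C.tot x a hx ha hxa with h | h
          · exact h
          · exact absurd (hwlo a x ha hx h h1) hwa
      have hux : G.Adj u x := hlo x a hx ha hxa hua
      exact hG.tf u p x hup h2 hux
  exact hwa (hpq w (hadj p hp hpb) (hadj q hq hqb))

/-- a final trace has no minimum -/
lemma up_no_min {u a : V} (hu : u ≠ v) (hu' : ¬ G.Adj u v) (hup : Up G v r u) (ha : G.Adj v a)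
    (hua : G.Adj u a) : ∃ b, G.Adj v b ∧ G.Adj u b ∧ r b a :=
  lo_no_max hG C.dual hu hu' (fun a b ha hb hab h => hup b a hb ha hab h) ha hua

/-- the complement of an initial trace has no minimum -/
lemma lo_compl_no_min {u a : V} (hu : u ≠ v) (hu' : ¬ G.Adj u v) (hlo : Lo G v r u)
    (ha : G.Adj v a) (hua : ¬ G.Adj u a) : ∃ b, G.Adj v b ∧ ¬ G.Adj u b ∧ r b a := by
  obtain ⟨w, hw, hw', hwa, hwu⟩ := p6 hG hu hu' ha hua
  have hup : Up G v r w := by
    rcases C.seg w hw hw' with h | h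
    · exact absurd hwu (lo_lo hG C hw hw' hu hu' h hlo)
    · exact h
  obtain ⟨b, hb, hwb, hba⟩ := up_no_min hG C hw hw' hup ha hwa
  exact ⟨b, hb, fun h => hG.tf w u b hwu h hwb, hba⟩

lemma up_compl_no_max {u a : V} (hu : u ≠ v) (hu' : ¬ G.Adj u v) (hup : Up G v r u)
    (ha : G.Adj v a) (hua : ¬ G.Adj u a) : ∃ b, G.Adj v b ∧ ¬ G.Adj u b ∧ r a b :=
  lo_compl_no_min hG C.dual hu hu' (fun a b ha hb hab h => hup b a hb ha hab h) ha hua

/-- density -/
lemma dense {x y : V} (hx : G.Adj v x) (hy : G.Adj v y) (hxy : r x y) :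
    ∃ z, G.Adj v z ∧ r x z ∧ r z y := by
  obtain ⟨u, hu, hu', hlo, hux, huy⟩ := sep_lo hG C hx hy hxy
  obtain ⟨z, hz, huz, hxz⟩ := lo_no_max hG C hu hu' hlo hx hux
  refine ⟨z, hz, hxz, ?_⟩
  by_cases hzy : z = y
  · rw [hzy] at huz
    exact absurd huz huy
  · rcases C.tot z y hz hy hzy with h | h
    · exact h
    · exact absurd (hlo y z hy hz h huz) huy

/-- distinct vertices have distinct traces -/
lemma tr_inj {u w : V} (hu : u ≠ v) (hu' : ¬ G.Adj u v) (hw : w ≠ v) (hw' : ¬ G.Adj w v)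
    (h : ∀ x, G.Adj v x → (G.Adj u x ↔ G.Adj w x)) : u = w := by
  by_contra hne
  have hnadj : ¬ G.Adj u w := by
    rw [adj_iff_disj hG hu hu' hw hw']
    intro h2
    obtain ⟨x, hx, hux⟩ := tr_nonempty hG hu hu'
    exact h2 x hx ⟨hux, (h x hx).1 hux⟩
  obtain ⟨z, hz, hz'⟩ := (hG.diff u w hne hnadj).nonempty
  have hz1 : G.Adj w z := hz
  have hz2 : ¬ G.Adj u z := hz'
  by_cases hvz : G.Adj v z
  · exact hz2 ((h z hvz).2 hz1)
  · have hzv : z ≠ v := by
      rintro rfl
      exact hw' hz1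
    apply hz2
    rw [adj_iff_disj hG hu hu' hzv (fun h => hvz h.symm)]
    rw [adj_iff_disj hG hw hw' hzv (fun h => hvz h.symm)] at hz1
    rintro x hx ⟨h1, h2⟩
    exact hz1 x hx ⟨(h x hx).1 h1, h2⟩

/-- an initial and a final trace are not complementary -/
lemma not_compl {u w : V} (hu : u ≠ v) (hu' : ¬ G.Adj u v) (hw : w ≠ v) (hw' : ¬ G.Adj w v)
    (hup : Up G v r w) (h : ∀ x, G.Adj v x → (G.Adj u x ↔ ¬ G.Adj w x)) : False := by
  have huw : G.Adj u w := by
    rw [adj_iff_disj hG hu hu' hw hw']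
    rintro x hx ⟨h1, h2⟩
    exact (h x hx).1 h1 h2
  obtain ⟨x, hx, hwx⟩ := tr_nonempty hG hw hw'
  obtain ⟨y, hy, hxy⟩ := no_max hG C hx
  obtain ⟨w', hw1, hw1', hw'up, hw'x, hw'y⟩ := sep_up hG C hx hy hxy
  have huw' : G.Adj u w' := by
    rw [adj_iff_disj hG hu hu' hw1 hw1']
    rintro z hz ⟨h1, h2⟩
    have hxz : r x z := by
      by_cases hxz : x = z
      · rw [← hxz] at h2
        exact absurd h2 hw'x
      · rcases C.tot x z hx hz hxz with h3 | h3
        · exact h3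
        · exact absurd (hw'up z x hz hx h3 h2) hw'x
    exact (h z hz).1 h1 (hup x z hx hz hxz hwx)
  obtain ⟨φ, h1, h2⟩ := hG.copath u w v u w' v huw hu' hw' hu.symm hw.symm huw' hu' hw1' hu.symm
    hw1.symm
  have hux : ¬ G.Adj u x := fun h3 => (h x hx).1 h3 hwx
  -- preimage of `x`
  have hx' : G.Adj v (φ.symm x) := by
    rw [← φ.map_adj_iff, RelIso.apply_symm_apply, h1]; exact hx
  have hcov : G.Adj u (φ.symm x) ∨ G.Adj w (φ.symm x) := by
    by_cases h3 : G.Adj w (φ.symm x)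
    · exact Or.inr h3
    · exact Or.inl ((h _ hx').2 h3)
  have hmem : ∀ t ∈ ({u, w} : Set V), φ t ∈ ({u, w'} : Set V) := by
    intro t ht
    rw [← h2]
    exact ⟨t, ht, rfl⟩
  have hno : ∀ t ∈ ({u, w'} : Set V), ¬ G.Adj t x := by
    intro t ht
    rcases ht with rfl | rfl
    · exact hux
    · exact hw'x
  rcases hcov with h3 | h3
  · rw [← φ.map_adj_iff, RelIso.apply_symm_apply] at h3
    exact hno _ (hmem u (by simp)) h3
  · rw [← φ.map_adj_iff, RelIso.apply_symm_apply] at h3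
    exact hno _ (hmem w (by simp)) h3

end

end SetHom
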