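import Pool.Agent.Helper76.SH.ModD

/-!
# MP_506470_co, module D, second part : the coloured model
-/

namespace SetHom

open Classical in
/-- the cut of a vertex -/
noncomputable def Kc {V : Type*} (G : SimpleGraph V) (v : V) (r : V → V → Prop) (x y : V) : Prop :=
  if G.Adj v x then r y x else if Lo G v r x then G.Adj x y else ¬ G.Adj x y

section

variable {V : Type*} {G : SimpleGraph V} {v : V} {r : V → V → Prop}

lemma Kc_om {x y : V} (h : G.Adj v x) : Kc G v r x y ↔ r y x := by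
  unfold Kc; simp [h]

lemma Kc_lo {x y : V} (h : ¬ G.Adj v x) (h' : Lo G v r x) : Kc G v r x y ↔ G.Adj x y := by
  unfold Kc; simp [h, h']

lemma Kc_up {x y : V} (h : ¬ G.Adj v x) (h' : ¬ Lo G v r x) : Kc G v r x y ↔ ¬ G.Adj x y := by
  unfold Kc; simp [h, h']

variable (hG : Good G) (C : Ctx G v r)

include hG C

lemma up_of_not_lo {x : V} (hx : x ≠ v) (h : ¬ G.Adj v x) (h' : ¬ Lo G v r x) : Up G v r x := by
  rcases C.seg x hx (fun h2 => h h2.symm) with h2 | h2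
  · exact absurd h2 h'
  · exact h2

lemma Kc_lower {x y y' : V} (hx : x ≠ v) (hy : G.Adj v y) (hy' : G.Adj v y') (h : r y' y)
    (hK : Kc G v r x y) : Kc G v r x y' := by
  by_cases h1 : G.Adj v x
  · rw [Kc_om h1] at hK ⊢
    exact C.trans _ _ _ hy' hy h1 h hK
  · by_cases h2 : Lo G v r x
    · rw [Kc_lo h1 h2] at hK ⊢
      exact h2 y' y hy' hy h hK
    · rw [Kc_up h1 h2] at hK ⊢
      exact fun h3 => hK (up_of_not_lo hG C hx h1 h2 y' y hy' hy h h3)

lemma Kc_no_max {x y : V} (hx : x ≠ v) (hy : G.Adj v y) (hK : Kc G v r x y) :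
    ∃ y', G.Adj v y' ∧ Kc G v r x y' ∧ r y y' := by
  by_cases h1 : G.Adj v x
  · rw [Kc_om h1] at hK
    obtain ⟨z, hz, h2, h3⟩ := dense hG C hy h1 hK
    exact ⟨z, hz, (Kc_om h1).2 h3, h2⟩
  · have h1' : ¬ G.Adj x v := fun h => h1 h.symm
    by_cases h2 : Lo G v r x
    · rw [Kc_lo h1 h2] at hK
      obtain ⟨z, hz, h3, h4⟩ := lo_no_max hG C hx h1' h2 hy hK
      exact ⟨z, hz, (Kc_lo h1 h2).2 h3, h4⟩
    · rw [Kc_up h1 h2] at hK
      obtain ⟨z, hz, h3, h4⟩ := up_compl_no_max hG C hx h1' (up_of_not_lo hG C hx h1 h2) hy hK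
      exact ⟨z, hz, (Kc_up h1 h2).2 h3, h4⟩

lemma Kc_nonempty {x : V} (hx : x ≠ v) : ∃ y, G.Adj v y ∧ Kc G v r x y := by
  by_cases h1 : G.Adj v x
  · obtain ⟨z, hz, h3⟩ := no_min hG C h1
    exact ⟨z, hz, (Kc_om h1).2 h3⟩
  · have h1' : ¬ G.Adj x v := fun h => h1 h.symm
    by_cases h2 : Lo G v r x
    · obtain ⟨z, hz, h3⟩ := tr_nonempty hG hx h1'
      exact ⟨z, hz, (Kc_lo h1 h2).2 h3⟩
    · obtain ⟨z, hz, h3⟩ := tr_ne hG hx h1'
      exact ⟨z, hz, (Kc_up h1 h2).2 h3⟩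

lemma Kc_compl_nonempty {x : V} (hx : x ≠ v) : ∃ y, G.Adj v y ∧ ¬ Kc G v r x y := by
  by_cases h1 : G.Adj v x
  · exact ⟨x, h1, by rw [Kc_om h1]; exact C.irr x h1⟩
  · have h1' : ¬ G.Adj x v := fun h => h1 h.symm
    by_cases h2 : Lo G v r x
    · obtain ⟨z, hz, h3⟩ := tr_ne hG hx h1'
      exact ⟨z, hz, by rw [Kc_lo h1 h2]; exact h3⟩
    · obtain ⟨z, hz, h3⟩ := tr_nonempty hG hx h1'
      exact ⟨z, hz, by rw [Kc_up h1 h2]; exact fun h => h h3⟩

lemma Kc_inj {x x' : V} (hx : x ≠ v) (hx' : x' ≠ v)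
    (h : ∀ y, G.Adj v y → (Kc G v r x y ↔ Kc G v r x' y)) : x = x' := by
  -- auxiliary: a point of the neighbourhood against another vertex
  have aux : ∀ x x', x' ≠ v → G.Adj v x → ¬ G.Adj v x' →
      (∀ y, G.Adj v y → (Kc G v r x y ↔ Kc G v r x' y)) → False := by
    intro x x' hx' h1 h2 h
    have h2' : ¬ G.Adj x' v := fun h => h2 h.symm
    have hxx := h x h1
    rw [Kc_om h1] at hxx
    by_cases h3 : Lo G v r x'
    · rw [Kc_lo h2 h3] at hxx
      have h4 : ¬ G.Adj x' x := fun h4 => C.irr x h1 (hxx.2 h4)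
      obtain ⟨b, hb, h5, h6⟩ := lo_compl_no_min hG C hx' h2' h3 h1 h4
      have h7 := (h b hb).1 ((Kc_om h1).2 h6)
      rw [Kc_lo h2 h3] at h7
      exact h5 h7
    · rw [Kc_up h2 h3] at hxx
      have h4 : G.Adj x' x := by
        by_contra h4
        exact C.irr x h1 (hxx.2 h4)
      obtain ⟨b, hb, h5, h6⟩ := up_no_min hG C hx' h2' (up_of_not_lo hG C hx' h2 h3) h1 h4
      have h7 := (h b hb).1 ((Kc_om h1).2 h6)
      rw [Kc_up h2 h3] at h7
      exact h7 h5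
  -- initial against final
  have aux2 : ∀ x x', x ≠ v → x' ≠ v → ¬ G.Adj v x → ¬ G.Adj v x' → Lo G v r x → ¬ Lo G v r x' →
      (∀ y, G.Adj v y → (Kc G v r x y ↔ Kc G v r x' y)) → False := by
    intro x x' hx hx' h1 h2 h3 h4 h
    refine not_compl hG C hx (fun h => h1 h.symm) hx' (fun h => h2 h.symm)
      (up_of_not_lo hG C hx' h2 h4) ?_
    intro y hy
    have := h y hy
    rwa [Kc_lo h1 h3, Kc_up h2 h4] at this
  by_cases h1 : G.Adj v x
  · by_cases h2 : G.Adj v x'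
    · by_contra hne
      rcases C.tot x x' h1 h2 hne with h3 | h3
      · have := (h x h1).2 ((Kc_om h2).2 h3)
        rw [Kc_om h1] at this
        exact C.irr x h1 this
      · have := (h x' h2).1 ((Kc_om h1).2 h3)
        rw [Kc_om h2] at this
        exact C.irr x' h2 this
    · exact absurd (aux x x' hx' h1 h2 h) id
  · by_cases h2 : G.Adj v x'
    · exact absurd (aux x' x hx h2 h1 (fun y hy => (h y hy).symm)) id
    · by_cases h3 : Lo G v r x
      · by_cases h4 : Lo G v r x'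
        · refine tr_inj hG C hx (fun h => h1 h.symm) hx' (fun h => h2 h.symm) ?_
          intro y hy
          have := h y hy
          rwa [Kc_lo h1 h3, Kc_lo h2 h4] at this
        · exact absurd (aux2 x x' hx hx' h1 h2 h3 h4 h) id
      · by_cases h4 : Lo G v r x'
        · exact absurd (aux2 x' x hx' hx h2 h1 h4 h3 (fun y hy => (h y hy).symm)) id
        · refine tr_inj hG C hx (fun h => h1 h.symm) hx' (fun h => h2 h.symm) ?_
          intro y hy
          have := h y hy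
          rw [Kc_up h1 h3, Kc_up h2 h4] at this
          exact not_iff_not.1 this

end

/-- Module D. -/
theorem segments_model {V : Type} [Countable V] {G : SimpleGraph V} (hG : Good G) (v : V)
    [LinearOrder (G.neighborSet v)]
    (hgo : ∀ l l' : List (G.neighborSet v), l.Pairwise (· < ·) → l'.Pairwise (· < ·) →
      l.length = l'.length → 2 ≤ l.length →
      ∃ φ : G ≃g G, φ v = v ∧ l.map (fun x => φ x.1) = l'.map Subtype.val)
    (hseg : ∀ u, u ≠ v → ¬ G.Adj u v → IsLowerSet (Tr G v u) ∨ IsUpperSet (Tr G v u)) :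
    ∃ (X : Type) (_ : LinearOrder X) (_ : Countable X) (_ : Nonempty X) (c : X → Fin 3),
      Dense3 c ∧ Nonempty (G ≃g tri c) := by
  classical
  set r : V → V → Prop := fun a b => ∃ (ha : G.Adj v a) (hb : G.Adj v b),
    (⟨a, ha⟩ : G.neighborSet v) < ⟨b, hb⟩ with hr
  have C : Ctx G v r := by
    constructor
    · rintro a _ ⟨h1, h2, h3⟩
      exact lt_irrefl _ h3
    · rintro a b c _ _ _ ⟨h1, h2, h3⟩ ⟨h4, h5, h6⟩
      exact ⟨h1, h5, lt_trans h3 h6⟩
    · intro a b ha hb hab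
      have : (⟨a, ha⟩ : G.neighborSet v) ≠ ⟨b, hb⟩ := fun h => hab (congrArg Subtype.val h)
      rcases lt_or_gt_of_ne this with h | h
      · exact Or.inl ⟨ha, hb, h⟩
      · exact Or.inr ⟨hb, ha, h⟩
    · rintro a b a' b' _ _ _ _ ⟨h1, h2, h3⟩ ⟨h4, h5, h6⟩
      obtain ⟨φ, hφ, hl⟩ := hgo [⟨a, h1⟩, ⟨b, h2⟩] [⟨a', h4⟩, ⟨b', h5⟩] (by simpa using h3)
        (by simpa using h6) rfl (le_refl _)
      simp only [List.map_cons, List.map_nil, List.cons.injEq, and_true] at hl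
      exact ⟨φ, hφ, hl.1, hl.2⟩
    · intro u hu hu'
      rcases hseg u hu hu' with h | h
      · left
        rintro a b ha hb ⟨h1, h2, h3⟩ hub
        exact h h3.le (show (⟨b, h2⟩ : G.neighborSet v) ∈ Tr G v u from hub)
      · right
        rintro a b ha hb ⟨h1, h2, h3⟩ hua
        exact h h3.le (show (⟨a, h1⟩ : G.neighborSet v) ∈ Tr G v u from hua)
  -- the keys
  let X := {x : V // x ≠ v}
  let key : X → LowerSet (G.neighborSet v) := fun x =>
    ⟨{y | Kc G v r x.1 y.1}, by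
      intro y y' hyy' hy
      rcases eq_or_lt_of_le hyy' with h | h
      · rw [h]; exact hy
      · exact Kc_lower hG C x.2 y.2 y'.2 ⟨y'.2, y.2, h⟩ hy⟩
  have hkey : ∀ (x : X) (y : V) (hy : G.Adj v y),
      ((⟨y, hy⟩ : G.neighborSet v) ∈ key x ↔ Kc G v r x.1 y) := by
    intro x y hy
    exact Iff.rfl
  have hinj : Function.Injective key := by
    intro x x' h
    apply Subtype.ext
    refine Kc_inj hG C x.2 x'.2 ?_
    intro y hy
    rw [← hkey x y hy, ← hkey x' y hy, h]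
  let _ : LinearOrder X := LinearOrder.lift' key hinj
  have hlt : ∀ x y : X, x < y ↔ ∃ q, G.Adj v q ∧ Kc G v r y.1 q ∧ ¬ Kc G v r x.1 q := by
    intro x y
    have h1 : x < y ↔ key x < key y := Iff.rfl
    have h2 : key y ≤ key x ↔ ∀ z, z ∈ key y → z ∈ key x := Iff.rfl
    rw [h1, ← not_le, h2]
    push Not
    constructor
    · rintro ⟨⟨q, hq⟩, h2, h3⟩
      exact ⟨q, hq, h2, h3⟩
    · rintro ⟨q, hq, h2, h3⟩
      exact ⟨⟨q, hq⟩, h2, h3⟩
  -- colours
  let c : X → Fin 3 := fun x => if G.Adj v x.1 then 0 else if Lo G v r x.1 then 1 else 2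
  have c0 : ∀ x : X, c x = 0 ↔ G.Adj v x.1 := by
    intro x
    by_cases h : G.Adj v x.1
    · simp [c, h]
    · by_cases h2 : Lo G v r x.1
      · simp [c, h, h2]
      · simp [c, h, h2]
  have c1 : ∀ x : X, c x = 1 ↔ ¬ G.Adj v x.1 ∧ Lo G v r x.1 := by
    intro x
    by_cases h : G.Adj v x.1
    · simp [c, h]
    · by_cases h2 : Lo G v r x.1
      · simp [c, h, h2]
      · simp [c, h, h2]
  have c2 : ∀ x : X, c x = 2 ↔ ¬ G.Adj v x.1 ∧ ¬ Lo G v r x.1 := by
    intro x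
    by_cases h : G.Adj v x.1
    · simp [c, h]
    · by_cases h2 : Lo G v r x.1
      · simp [c, h, h2]
      · simp [c, h, h2]
  -- comparisons
  have cmp1 : ∀ x u : X, c x = 0 → c u = 1 → (x < u ↔ G.Adj x.1 u.1) := by
    intro x u hx hu
    rw [c0] at hx
    rw [c1] at hu
    rw [hlt]
    constructor
    · rintro ⟨q, hq, h1, h2⟩
      rw [Kc_lo hu.1 hu.2] at h1
      rw [Kc_om hx] at h2
      by_cases hqx : q = x.1
      · rw [hqx] at h1; exact h1.symm
      · rcases C.tot q x.1 hq hx hqx with h | h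
        · exact absurd h h2
        · exact (hu.2 x.1 q hx hq h h1).symm
    · intro h
      exact ⟨x.1, hx, (Kc_lo hu.1 hu.2).2 h.symm, by rw [Kc_om hx]; exact C.irr _ hx⟩
  have cmp2 : ∀ x u : X, c x = 0 → c u = 2 → (u < x ↔ G.Adj x.1 u.1) := by
    intro x u hx hu
    rw [c0] at hx
    rw [c2] at hu
    have hup := up_of_not_lo hG C u.2 hu.1 hu.2
    rw [hlt]
    constructor
    · rintro ⟨q, hq, h1, h2⟩
      rw [Kc_up hu.1 hu.2, not_not] at h2
      rw [Kc_om hx] at h1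
      exact (hup q x.1 hq hx h1 h2).symm
    · intro h
      obtain ⟨b, hb, h1, h2⟩ := up_no_min hG C u.2 (fun h => hu.1 h.symm) hup hx h.symm
      exact ⟨b, hb, (Kc_om hx).2 h2, by rw [Kc_up hu.1 hu.2]; exact fun h => h h1⟩
  have cmp3 : ∀ u w : X, c u = 1 → c w = 2 → (u < w ↔ G.Adj u.1 w.1) := by
    intro u w hu hw
    rw [c1] at hu
    rw [c2] at hw
    have hup := up_of_not_lo hG C w.2 hw.1 hw.2
    rw [hlt, adj_iff_disj hG u.2 (fun h => hu.1 h.symm) w.2 (fun h => hw.1 h.symm)]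
    constructor
    · rintro ⟨q, hq, h1, h2⟩ x hx ⟨h3, h4⟩
      rw [Kc_up hw.1 hw.2] at h1
      rw [Kc_lo hu.1 hu.2] at h2
      have hxq : x ≠ q := by
        rintro rfl
        exact h1 h4
      rcases C.tot x q hx hq hxq with h | h
      · exact h1 (hup x q hx hq h h4)
      · exact h2 (hu.2 q x hq hx h h3)
    · intro h
      by_contra hcon
      push Not at hcon
      refine not_compl hG C u.2 (fun h => hu.1 h.symm) w.2 (fun h => hw.1 h.symm) hup ?_
      intro x hx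
      constructor
      · intro h1 h2
        exact h x hx ⟨h1, h2⟩
      · intro h1
        have := hcon x hx ((Kc_up hw.1 hw.2).2 h1)
        rwa [Kc_lo hu.1 hu.2] at this
  have same1 : ∀ u w : X, c u = 1 → c w = 1 → ¬ G.Adj u.1 w.1 := by
    intro u w hu hw
    rw [c1] at hu hw
    exact lo_lo hG C u.2 (fun h => hu.1 h.symm) w.2 (fun h => hw.1 h.symm) hu.2 hw.2
  have same2 : ∀ u w : X, c u = 2 → c w = 2 → ¬ G.Adj u.1 w.1 := by
    intro u w hu hw
    rw [c2] at hu hw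
    exact up_up hG C u.2 (fun h => hu.1 h.symm) w.2 (fun h => hw.1 h.symm)
      (up_of_not_lo hG C u.2 hu.1 hu.2) (up_of_not_lo hG C w.2 hw.1 hw.2)
  have same0 : ∀ u w : X, c u = 0 → c w = 0 → ¬ G.Adj u.1 w.1 := by
    intro u w hu hw h
    rw [c0] at hu hw
    exact hG.tf v u.1 w.1 hu h hw
  -- all colours between two elements of the neighbourhood
  have hne : ∀ q, G.Adj v q → q ≠ v := by
    rintro q hq rfl
    exact G.loopless.irrefl _ hq
  have fill : ∀ (q q' : V) (hq : G.Adj v q) (hq' : G.Adj v q'), r q q' → ∀ i : Fin 3,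
      ∃ z : X, (⟨q, hne q hq⟩ : X) ≤ z ∧ z < ⟨q', hne q' hq'⟩ ∧ c z = i := by
    intro q q' hq hq' hqq' i
    have hlt' : (⟨q, hne q hq⟩ : X) < ⟨q', hne q' hq'⟩ := by
      rw [hlt]
      exact ⟨q, hq, (Kc_om hq').2 hqq', by rw [Kc_om hq]; exact C.irr _ hq⟩
    have hi : i = 0 ∨ i = 1 ∨ i = 2 := by
      fin_cases i
      · exact Or.inl rfl
      · exact Or.inr (Or.inl rfl)
      · exact Or.inr (Or.inr rfl)
    rcases hi with rfl | rfl | rfl
    · exact ⟨⟨q, hne q hq⟩, le_refl _, hlt', (c0 _).2 hq⟩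
    · obtain ⟨u, hu, hu', hlo, h1, h2⟩ := sep_lo hG C hq hq' hqq'
      have hcu : c (⟨u, hu⟩ : X) = 1 := (c1 _).2 ⟨fun h => hu' h.symm, hlo⟩
      refine ⟨⟨u, hu⟩, ?_, ?_, hcu⟩
      · exact ((cmp1 ⟨q, hne q hq⟩ ⟨u, hu⟩ ((c0 _).2 hq) hcu).2 h1.symm).le
      · rw [← not_le]
        intro h3
        rcases eq_or_lt_of_le h3 with h4 | h4
        · have : q' = u := congrArg Subtype.val h4
          rw [this] at hq'
          exact hu' hq'.symm
        · exact h2 ((cmp1 ⟨q', hne q' hq'⟩ ⟨u, hu⟩ ((c0 _).2 hq') hcu).1 h4).symm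
    · obtain ⟨u, hu, hu', hup, h1, h2⟩ := sep_up hG C hq hq' hqq'
      have hnlo : ¬ Lo G v r u := fun h => not_lo_up hG C hu hu' h hup
      have hcu : c (⟨u, hu⟩ : X) = 2 := (c2 _).2 ⟨fun h => hu' h.symm, hnlo⟩
      refine ⟨⟨u, hu⟩, ?_, ?_, hcu⟩
      · rw [← not_lt]
        intro h3
        exact h1 ((cmp2 ⟨q, hne q hq⟩ ⟨u, hu⟩ ((c0 _).2 hq) hcu).1 h3).symm
      · exact (cmp2 ⟨q', hne q' hq'⟩ ⟨u, hu⟩ ((c0 _).2 hq') hcu).2 h2.symm
  have hlt_of : ∀ (x : X) (q : V) (hq : G.Adj v q), ¬ Kc G v r x.1 q → ∀ q' (hq' : G.Adj v q'),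
      r q q' → x < ⟨q', hne q' hq'⟩ := by
    intro x q hq h q' hq' hqq'
    rw [hlt]
    exact ⟨q, hq, (Kc_om hq').2 hqq', h⟩
  have hlt_of' : ∀ (x : X) (q : V) (hq : G.Adj v q), Kc G v r x.1 q → (⟨q, hne q hq⟩ : X) < x := by
    intro x q hq h
    rw [hlt]
    exact ⟨q, hq, h, by rw [Kc_om hq]; exact C.irr _ hq⟩
  have hdense : Dense3 c := by
    constructor
    · intro x y hxy i
      rw [hlt] at hxy
      obtain ⟨q, hq, h1, h2⟩ := hxy
      obtain ⟨q1, hq1, h3, h4⟩ := Kc_no_max hG C y.2 hq h1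
      obtain ⟨q2, hq2, h5, h6⟩ := Kc_no_max hG C y.2 hq1 h3
      obtain ⟨z, hz1, hz2, hz3⟩ := fill q1 q2 hq1 hq2 h6 i
      exact ⟨z, lt_of_lt_of_le (hlt_of x q hq h2 q1 hq1 h4) hz1,
        lt_trans hz2 (hlt_of' y q2 hq2 h5), hz3⟩
    · intro x i
      obtain ⟨q, hq, h1⟩ := Kc_nonempty hG C x.2
      obtain ⟨q1, hq1, h3, h4⟩ := Kc_no_max hG C x.2 hq h1
      obtain ⟨z, hz1, hz2, hz3⟩ := fill q q1 hq hq1 h4 i
      exact ⟨z, lt_trans hz2 (hlt_of' x q1 hq1 h3), hz3⟩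
    · intro x i
      obtain ⟨q, hq, h1⟩ := Kc_compl_nonempty hG C x.2
      obtain ⟨q1, hq1, h3⟩ := no_max hG C hq
      obtain ⟨q2, hq2, h4⟩ := no_max hG C hq1
      obtain ⟨z, hz1, hz2, hz3⟩ := fill q1 q2 hq1 hq2 h4 i
      exact ⟨z, lt_of_lt_of_le (hlt_of x q hq h1 q1 hq1 h3) hz1, hz3⟩
  obtain ⟨x0, hx0⟩ := (hG.infdeg v).nonempty
  refine ⟨X, inferInstance, inferInstance, ⟨⟨x0, hne x0 hx0⟩⟩, c, hdense, ?_⟩
  -- the isomorphism
  have e : tri c ≃g G := by
    refine ⟨Equiv.optionSubtypeNe v, ?_⟩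
    intro a b
    rcases a with _ | x <;> rcases b with _ | y
    · simp [tri]
    · simp only [Equiv.optionSubtypeNe_none, Equiv.optionSubtypeNe_some, tri]
      exact (c0 y).symm
    · simp only [Equiv.optionSubtypeNe_none, Equiv.optionSubtypeNe_some, tri]
      rw [c0 x]
      exact ⟨fun h => h.symm, fun h => h.symm⟩
    · show G.Adj x.1 y.1 ↔ (triRel c x y ∨ triRel c y x)
      clear_value c
      have hcx : c x = 0 ∨ c x = 1 ∨ c x = 2 := by
        have : ∀ i : Fin 3, i = 0 ∨ i = 1 ∨ i = 2 := by decide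
        exact this _
      have hcy : c y = 0 ∨ c y = 1 ∨ c y = 2 := by
        have : ∀ i : Fin 3, i = 0 ∨ i = 1 ∨ i = 2 := by decide
        exact this _
      rcases hcx with hx | hx | hx <;> rcases hcy with hy | hy | hy
      · simp [triRel, hx, hy, same0 x y hx hy]
      · simp [triRel, hx, hy, cmp1 x y hx hy]
      · simp [triRel, hx, hy, cmp2 x y hx hy]
      · simp [triRel, hx, hy, cmp1 y x hy hx, G.adj_comm]
      · simp [triRel, hx, hy, same1 x y hx hy]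
      · simp [triRel, hx, hy, cmp3 x y hx hy]
      · simp [triRel, hx, hy, cmp2 y x hy hx, G.adj_comm]
      · simp [triRel, hx, hy, cmp3 y x hy hx, G.adj_comm]
      · simp [triRel, hx, hy, same2 x y hx hy]
  exact ⟨e.symm⟩

end SetHom
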