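import Pool.Agent.Helper76.SH.Defs

/-!
# MP_506470_co : set-homogeneity for embeddings and rigid decorations
-/

namespace SetHom

/-- Two embeddings of a finite graph into a set-homogeneous graph differ by an automorphism of the
big graph and an automorphism of the finite graph. -/
lemma emb_lemma {V T : Type*} [Finite T] {G : SimpleGraph V} (hs : SetHomogeneous G)
    {A : SimpleGraph T} (e₁ e₂ : A ↪g G) :
    ∃ (φ : G ≃g G) (α : A ≃g A), ∀ t, φ (e₁ t) = e₂ (α t) := by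
  classical
  have _ := Fintype.ofFinite T
  let U : Finset V := Finset.univ.image e₁
  let W : Finset V := Finset.univ.image e₂
  have hU : (U : Set V) = Set.range e₁ := by simp [U]
  have hW : (W : Set V) = Set.range e₂ := by simp [W]
  have i1 : A ≃g G.induce (U : Set V) := by
    refine ⟨Equiv.ofBijective (fun t => ⟨e₁ t, by rw [hU]; exact ⟨t, rfl⟩⟩) ⟨?_, ?_⟩, ?_⟩
    · intro s t h
      exact e₁.injective (congrArg Subtype.val h)
    · rintro ⟨y, hy⟩
      rw [hU] at hy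
      obtain ⟨t, rfl⟩ := hy
      exact ⟨t, rfl⟩
    · intro s t
      exact e₁.map_adj_iff
  have i2 : A ≃g G.induce (W : Set V) := by
    refine ⟨Equiv.ofBijective (fun t => ⟨e₂ t, by rw [hW]; exact ⟨t, rfl⟩⟩) ⟨?_, ?_⟩, ?_⟩
    · intro s t h
      exact e₂.injective (congrArg Subtype.val h)
    · rintro ⟨y, hy⟩
      rw [hW] at hy
      obtain ⟨t, rfl⟩ := hy
      exact ⟨t, rfl⟩
    · intro s t
      exact e₂.map_adj_iff
  obtain ⟨φ, hφ⟩ := hs U W ⟨i1.symm.trans i2⟩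
  rw [hU, hW] at hφ
  have ex : ∀ t, ∃ s, e₂ s = φ (e₁ t) := by
    intro t
    have : φ (e₁ t) ∈ Set.range e₂ := by
      rw [← hφ]
      exact ⟨e₁ t, ⟨t, rfl⟩, rfl⟩
    exact this
  choose a ha using ex
  have inj : Function.Injective a := by
    intro s t h
    apply e₁.injective
    apply φ.injective
    rw [← ha, ← ha, h]
  refine ⟨φ, ⟨Equiv.ofBijective a (Finite.injective_iff_bijective.1 inj), ?_⟩, fun t => (ha t).symm⟩
  intro s t
  show A.Adj (a s) (a t) ↔ A.Adj s t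
  rw [← e₂.map_adj_iff, ha, ha, φ.map_adj_iff, e₁.map_adj_iff]

/-- number of neighbours -/
noncomputable def dg {T : Type*} (A : SimpleGraph T) (t : T) : ℕ := (A.neighborSet t).ncard

lemma dg_iso {T : Type*} {A : SimpleGraph T} (α : A ≃g A) (t : T) : dg A (α t) = dg A t := by
  unfold dg
  have : A.neighborSet (α t) = α '' (A.neighborSet t) := by
    ext x
    constructor
    · intro hx
      refine ⟨α.symm x, ?_, by simp⟩
      show A.Adj t (α.symm x)
      rw [← α.map_adj_iff]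
      simpa using hx
    · rintro ⟨y, hy, rfl⟩
      exact α.map_adj_iff.2 hy
  rw [this, Set.ncard_image_of_injective _ α.injective]

/-- Automorphisms fix the vertices which are recognised by their degree. -/
lemma fix_of_dg {T : Type*} {A : SimpleGraph T} (S : Set T) (k : ℕ)
    (h1 : ∀ t, t ∉ S → dg A t < k) (h2 : ∀ t ∈ S, k ≤ dg A t)
    (h3 : ∀ t ∈ S, ∀ s ∈ S, dg A t / k = dg A s / k → t = s) (α : A ≃g A) (t : T) (ht : t ∈ S) :
    α t = t := by
  have hS : α t ∈ S := by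
    by_contra h
    have := h1 _ h
    rw [dg_iso] at this
    exact absurd (h2 t ht) (by omega)
  exact h3 _ hS _ ht (by rw [dg_iso])

/-- `H` with `n x` pendant paths of length two at every vertex `x`. -/
def Dec {W : Type*} (H : SimpleGraph W) (n : W → ℕ) :
    SimpleGraph (W ⊕ ((Σ x : W, Fin (n x)) × Bool)) where
  Adj a b := match a, b with
    | Sum.inl x, Sum.inl y => H.Adj x y
    | Sum.inl x, Sum.inr (p, c) => p.1 = x ∧ c = false
    | Sum.inr (p, c), Sum.inl x => p.1 = x ∧ c = false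
    | Sum.inr (p, c), Sum.inr (q, d) => p = q ∧ c ≠ d
  symm := ⟨by
    rintro (x | ⟨p, c⟩) (y | ⟨q, d⟩) h
    · exact SimpleGraph.Adj.symm (G := H) h
    · exact h
    · exact h
    · exact ⟨h.1.symm, h.2.symm⟩⟩
  loopless := ⟨by
    rintro (x | ⟨p, c⟩) h
    · exact H.loopless.irrefl x h
    · exact h.2 rfl⟩

section
variable {W : Type*} {H : SimpleGraph W} {n : W → ℕ}

@[simp] lemma Dec_ll (x y : W) : (Dec H n).Adj (Sum.inl x) (Sum.inl y) ↔ H.Adj x y := Iff.rfl
@[simp] lemma Dec_lr (x : W) (p : Σ x : W, Fin (n x)) (c : Bool) :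
    (Dec H n).Adj (Sum.inl x) (Sum.inr (p, c)) ↔ p.1 = x ∧ c = false := Iff.rfl
@[simp] lemma Dec_rl (x : W) (p : Σ x : W, Fin (n x)) (c : Bool) :
    (Dec H n).Adj (Sum.inr (p, c)) (Sum.inl x) ↔ p.1 = x ∧ c = false := Iff.rfl
@[simp] lemma Dec_rr (p q : Σ x : W, Fin (n x)) (c d : Bool) :
    (Dec H n).Adj (Sum.inr (p, c)) (Sum.inr (q, d)) ↔ p = q ∧ c ≠ d := Iff.rfl

end

lemma Dec_tf {W : Type*} {H : SimpleGraph W} {n : W → ℕ} (h : TF H) : TF (Dec H n) := by
  rintro (x | ⟨p, c⟩) (y | ⟨q, d⟩) (z | ⟨r, e⟩) h1 h2 h3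
  · exact h x y z h1 h2 h3
  · simp only [Dec_lr, Dec_ll] at h1 h2 h3
    rw [← h2.1, ← h3.1] at h1
    exact H.loopless.irrefl _ h1
  · simp only [Dec_lr, Dec_rl, Dec_ll] at h1 h2 h3
    rw [← h1.1, ← h2.1] at h3
    exact H.loopless.irrefl _ h3
  · simp only [Dec_lr, Dec_rl, Dec_rr] at h1 h2 h3
    exact h2.2 (h1.2.trans h3.2.symm)
  · simp only [Dec_lr, Dec_rl, Dec_ll] at h1 h2 h3
    rw [← h1.1, ← h3.1] at h2
    exact H.loopless.irrefl _ h2
  · simp only [Dec_lr, Dec_rl, Dec_rr] at h1 h2 h3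
    exact h3.2 (h1.2.trans h2.2.symm)
  · simp only [Dec_lr, Dec_rl, Dec_rr] at h1 h2 h3
    exact h1.2 (h3.2.trans h2.2.symm)
  · simp only [Dec_rr] at h1 h2 h3
    have h1 := h1.2
    have h2 := h2.2
    have h3 := h3.2
    cases c <;> cases d <;> cases e <;> simp_all

/-- the number of neighbours of `inl x` in `s` -/
noncomputable def cnt {W : Type*} (H : SimpleGraph W) (n : W → ℕ) (x : W)
    (s : Set (W ⊕ ((Σ x : W, Fin (n x)) × Bool))) : ℕ :=
  {t | t ∈ s ∧ (Dec H n).Adj (Sum.inl x) t}.ncard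

lemma cnt_lower {W : Type*} [Finite W] (H : SimpleGraph W) (n : W → ℕ) (x : W)
    (s : Set (W ⊕ ((Σ x : W, Fin (n x)) × Bool))) (hs : ∀ q, Sum.inr q ∈ s) :
    n x ≤ cnt H n x s := by
  have h : (Set.range (fun i : Fin (n x) => (Sum.inr (⟨x, i⟩, false) :
      W ⊕ ((Σ x : W, Fin (n x)) × Bool)))).ncard = n x := by
    rw [← Set.image_univ, Set.ncard_image_of_injective]
    · simp
    · intro i j hij
      simpa using hij
  unfold cnt
  rw [← h]
  apply Set.ncard_le_ncard _ (Set.toFinite _)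
  rintro _ ⟨i, rfl⟩
  exact ⟨hs _, by simp⟩

lemma cnt_upper {W : Type*} [Finite W] (H : SimpleGraph W) (n : W → ℕ) (x : W)
    (s : Set (W ⊕ ((Σ x : W, Fin (n x)) × Bool))) :
    cnt H n x s ≤ n x + Nat.card W := by
  have h : (Set.range (fun i : Fin (n x) => (Sum.inr (⟨x, i⟩, false) :
      W ⊕ ((Σ x : W, Fin (n x)) × Bool)))).ncard = n x := by
    rw [← Set.image_univ, Set.ncard_image_of_injective]
    · simp
    · intro i j hij
      simpa using hij
  have h' : (Set.range (Sum.inl : W → W ⊕ ((Σ x : W, Fin (n x)) × Bool))).ncard = Nat.card W := by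
    rw [← Set.image_univ, Set.ncard_image_of_injective _ Sum.inl_injective, Set.ncard_univ]
  unfold cnt
  refine le_trans (Set.ncard_le_ncard (t := (Set.range (fun i : Fin (n x) =>
      (Sum.inr (⟨x, i⟩, false) : W ⊕ ((Σ x : W, Fin (n x)) × Bool)))) ∪
      (Set.range (Sum.inl : W → W ⊕ ((Σ x : W, Fin (n x)) × Bool)))) ?_ (Set.toFinite _)) ?_
  · rintro (y | ⟨⟨y, i⟩, c⟩) ⟨-, hy⟩
    · right; exact ⟨y, rfl⟩
    · left
      simp only [Dec_lr] at hy
      obtain ⟨rfl, rfl⟩ := hy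
      exact ⟨i, rfl⟩
  · refine le_trans (Set.ncard_union_le _ _) ?_
    rw [h, h']

lemma dg_induce {W : Type*} {H : SimpleGraph W} {n : W → ℕ} (x : W)
    (s : Set (W ⊕ ((Σ x : W, Fin (n x)) × Bool))) (hx : Sum.inl x ∈ s) :
    dg ((Dec H n).induce s) ⟨Sum.inl x, hx⟩ = cnt H n x s := by
  unfold dg cnt
  rw [← Set.ncard_image_of_injective _ Subtype.val_injective]
  congr 1
  ext t
  constructor
  · rintro ⟨⟨t, ht⟩, h, rfl⟩
    exact ⟨ht, h⟩
  · rintro ⟨ht, h⟩
    exact ⟨⟨t, ht⟩, h, rfl⟩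

lemma dg_inr {W : Type*} [Finite W] {H : SimpleGraph W} {n : W → ℕ}
    (s : Set (W ⊕ ((Σ x : W, Fin (n x)) × Bool))) (q) (hx : Sum.inr q ∈ s) :
    dg ((Dec H n).induce s) ⟨Sum.inr q, hx⟩ ≤ 2 := by
  unfold dg
  rw [← Set.ncard_image_of_injective _ Subtype.val_injective]
  obtain ⟨p, c⟩ := q
  refine le_trans (Set.ncard_le_ncard (t := {Sum.inl p.1, Sum.inr (p, !c)}) ?_
    (Set.toFinite _)) ?_
  · rintro _ ⟨⟨y | ⟨q, d⟩, hy⟩, h, rfl⟩
    · left
      have h' : p.1 = y ∧ c = false := h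
      simp [h'.1]
    · right
      have h' : p = q ∧ c ≠ d := h
      obtain ⟨rfl, h2⟩ := h'
      simp only [Set.mem_singleton_iff, Sum.inr.injEq, Prod.mk.injEq, true_and]
      cases c <;> cases d <;> simp_all
  · refine (Set.ncard_insert_le _ _).trans ?_
    rw [Set.ncard_singleton]

end SetHom
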