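import Pool.Agent.Helper96.SH.TabM
import Pool.Agent.Helper51.SH.Low
import Pool.Agent.Helper70.SH.Asm

/-!
# Project SHARP: the tables of a cell (helper76)

From helper51's `Tab` (helper75's `tab_opt`) and helper96's Bool check `okTM` of the first `M` powers to helper96's
`TabOK`; the displacements of helper70's `cd`.
-/

set_option autoImplicit false

namespace Helper76.SH

open Helper54.RC.Fast Helper76.RC.TrD Helper96.SH
open Pool.Agent.Helper51.SH (Tab)

/-- a part of a table is a table -/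
theorem Tab_take {b s Q : ℕ} {l : List (ℤ × ℤ)} {ps : List PF} (h : Tab b s Q l ps) (M : ℕ) :
    Tab b s Q l (ps.take M) := by
  intro i p hp
  have h1 : ps[i]? = some p := by
    rw [List.getElem?_take] at hp
    split_ifs at hp with h2
    exact hp
  exact h i p h1

/-- **`TabOK` from the check** -/
theorem TabOK_of {b r s u Q N l1 M E : ℕ} {l : List (ℤ × ℤ)} {ps : List PF} (hp : Tab b s Q l ps)
    (h : okTM b r s u Q N l1 M E l (ps.take M) = true) : TabOK b s l1 M E (Dt Q l) (T0P b s u Q N l :: ps.take M) := by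
  refine TabM (fun k p hk => ?_) h
  have h1 := (Tab_take hp M) k p hk
  simpa only [mul_one] using h1

section record

open Helper70.SH Helper49.Cell

variable {R : Rec} {C : Crt} (h : R.ok C = true) {K0 : ℕ} (len : Len R K0) (s : ℕ)

/-- the four hypotheses `c1 c1' c2 c2'` of `Helper96.SH.LR_cell` -/
theorem cd_disp : (cd R h len s).Th1 = (fun x => x - Dt 1000 R.D1 x) ∧
    (cd R h len s).Th1' = (fun x => 1 - Dt 1000 (der 1 R.D1) x) ∧
    (cd R h len s).Th2 = (fun x => x - Dt 1000 R.D2 x) ∧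
    (cd R h len s).Th2' = (fun x => 1 - Dt 1000 (der 1 R.D2) x) := ⟨rfl, rfl, rfl, rfl⟩

/-- the two hypotheses `d1 d2` -/
theorem cd_DD : DD (Dt 1000 R.D1) (Dt 1000 (der 1 R.D1)) ∧ DD (Dt 1000 R.D2) (Dt 1000 (der 1 R.D2)) :=
  ⟨DD_Dt 1000 R.D1, DD_Dt 1000 R.D2⟩

end record

end Helper76.SH
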